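import Pool.Statements.S00852
import Pool.Agent.Work.MP_1b4c08_al.Family

set_option autoImplicit false
open Pool Pool.MP_1b4c08_al

namespace Pool.Agent.S00852

/-- The negation of the preceding statement: There is a constant c such that for every field K, every r and every square-free monomial ideal I in K[X_1..X_r], the depth of R modulo the n-th symbolic power of I is the same for all n at least c(r+1). -/
theorem result :
    ¬ (∃ c : ℕ, ∀ (K : Type) [Field K] (r : ℕ) (S : Set (Finset (Fin r))) (n : ℕ),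
      c * (r + 1) ≤ n →
      sSup {k : ℕ | ∃ rs : List (MvPolynomial (Fin r) K), rs.length = k ∧
          (∀ x ∈ rs, x ∈ Ideal.span (Set.range (MvPolynomial.X : Fin r → MvPolynomial (Fin r) K))) ∧
          RingTheory.Sequence.IsRegular
            (MvPolynomial (Fin r) K ⧸
              ⨅ P ∈ Ideal.minimalPrimes (Ideal.span
                ((fun s : Finset (Fin r) =>
                  MvPolynomial.monomial (∑ i ∈ s, Finsupp.single i 1) (1 : K)) '' S)), P ^ n)
            rs}
      =
      sSup {k : ℕ | ∃ rs : List (MvPolynomial (Fin r) K), rs.length = k ∧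
          (∀ x ∈ rs, x ∈ Ideal.span (Set.range (MvPolynomial.X : Fin r → MvPolynomial (Fin r) K))) ∧
          RingTheory.Sequence.IsRegular
            (MvPolynomial (Fin r) K ⧸
              ⨅ P ∈ Ideal.minimalPrimes (Ideal.span
                ((fun s : Finset (Fin r) =>
                  MvPolynomial.monomial (∑ i ∈ s, Finsupp.single i 1) (1 : K)) '' S)), P ^ (c * (r + 1)))
            rs}) := by
  rintro ⟨c, hc⟩
  obtain ⟨M, hM, hMc⟩ := Pool.Agent.Work.MP_1b4c08_al.growth_bound c
  have key := hc ℚ (M + 4) (Pool.Agent.Work.MP_1b4c08_al.Sset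
    (Pool.Agent.Work.MP_1b4c08_al.fam M)) (c * (M + 4 + 1) + Nat.fib (M + 2) + 1) (by omega)
  rw [Pool.Agent.Work.MP_1b4c08_al.symb_eq _ (Pool.Agent.Work.MP_1b4c08_al.fam_anti M),
    Pool.Agent.Work.MP_1b4c08_al.symb_eq _ (Pool.Agent.Work.MP_1b4c08_al.fam_anti M)] at key
  have h1 := Pool.Agent.Work.MP_1b4c08_al.depth_one ℚ M
    (c * (M + 4 + 1) + Nat.fib (M + 2) + 1) hM (by omega) (by omega)
  unfold Pool.Agent.Work.MP_1b4c08_al.T at h1
  rw [h1] at key
  rcases Nat.eq_zero_or_pos c with hc0 | hc0
  · subst hc0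
    have hempty : {k : ℕ | ∃ rs : List (MvPolynomial (Fin (M + 4)) ℚ), rs.length = k ∧
          (∀ x ∈ rs, x ∈ Ideal.span (Set.range
            (MvPolynomial.X : Fin (M + 4) → MvPolynomial (Fin (M + 4)) ℚ))) ∧
          RingTheory.Sequence.IsRegular
            (MvPolynomial (Fin (M + 4)) ℚ ⧸ Pool.Agent.Work.MP_1b4c08_al.J ℚ
              (Pool.Agent.Work.MP_1b4c08_al.fam M) (0 * (M + 4 + 1))) rs} = ∅ := by
      ext k
      simp only [Set.mem_setOf_eq, Set.mem_empty_iff_false, iff_false]
      rintro ⟨rs, _, _, hreg⟩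
      apply hreg.top_ne_smul
      have hJ : Pool.Agent.Work.MP_1b4c08_al.J ℚ
          (Pool.Agent.Work.MP_1b4c08_al.fam M) (0 * (M + 4 + 1)) = ⊤ := by
        unfold Pool.Agent.Work.MP_1b4c08_al.J
        simp
      rw [hJ]
      exact Subsingleton.elim _ _
    rw [hempty] at key
    simp at key
  · have h2 := Pool.Agent.Work.MP_1b4c08_al.depth_ne_one ℚ M (c * (M + 4 + 1)) hM
      (by simpa [add_assoc] using hMc) (by nlinarith)
    exact h2 key.symm

end Pool.Agent.S00852
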