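import Pool.Statements.S01331
-- import your own Pool.Agent.* helpers here
import Pool.Agent.Work.MP_432615_al.Six

set_option autoImplicit false
open Pool Pool.MP_432615_al

namespace Pool.Agent.S01331

/-- Every group in which each element has 2-power order, and whose finite subgroups are all nilpotent of class at most 3, is itself nilpotent. -/
theorem result :
    ∀ (G : Type) [Group G], IsPGroup 2 G →
      (∀ H : Subgroup G, Finite ↥H → upperCentralSeries (↥H) 3 = ⊤) →
      Group.IsNilpotent G := by
  intro G _ h2 hcl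
  apply Pool.Agent.Work.MP_432615_al.nilpotent
  refine ⟨fun g => h2 g, ?_⟩
  intro F hF x hx y hy z hz w hw
  have hfin : Finite ↥F := hF
  have h3 := hcl F hfin
  have hx3 : (⟨x, hx⟩ : ↥F) ∈ Subgroup.upperCentralSeries (↥F) 3 := by
    have : Subgroup.upperCentralSeries (↥F) 3 = ⊤ := h3
    rw [this]; exact Subgroup.mem_top _
  have h2' := Subgroup.mem_upperCentralSeries_succ_iff.mp hx3 ⟨y, hy⟩
  have h1' := Subgroup.mem_upperCentralSeries_succ_iff.mp h2' ⟨z, hz⟩
  have h0' := Subgroup.mem_upperCentralSeries_succ_iff.mp h1' ⟨w, hw⟩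
  rw [Subgroup.upperCentralSeries_zero, Subgroup.mem_bot] at h0'
  exact congrArg (Subtype.val) h0'

end Pool.Agent.S01331
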