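import Pool.Statements.S01668
import Pool.Agent.Work.MP_611b97_al.K.Main

set_option autoImplicit false
open Pool Pool.MP_611b97_al

namespace Pool.Agent.S01668

/-- The negation of the preceding statement: For a torsion-free group G with soluble normal subgroup H such that G/H is periodic and Engel, every G-conjugation-invariant total order on H extends to a two-sided invariant total order on all of G. -/
theorem result :
    ¬ (∀ (G : Type) [Group G] (H : Subgroup G) [H.Normal],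
      (∀ g : G, g ≠ 1 → ¬ IsOfFinOrder g) →
      IsSolvable H →
      (∀ x : G ⧸ H, IsOfFinOrder x) →
      (∀ x y : G ⧸ H, ∃ n : ℕ, (fun z : G ⧸ H => z⁻¹ * y⁻¹ * z * y)^[n] x = 1) →
      ∀ P : Set G, P ⊆ (H : Set G) →
        (∀ a ∈ P, ∀ b ∈ P, a * b ∈ P) →
        (1 : G) ∉ P →
        (∀ h ∈ H, h ≠ 1 → h ∈ P ∨ h⁻¹ ∈ P) →
        (∀ g : G, ∀ a ∈ P, g * a * g⁻¹ ∈ P) →
        ∃ Q : Set G,
          (∀ a ∈ Q, ∀ b ∈ Q, a * b ∈ Q) ∧
          (1 : G) ∉ Q ∧
          (∀ g : G, g ≠ 1 → g ∈ Q ∨ g⁻¹ ∈ Q) ∧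
          (∀ g : G, ∀ a ∈ Q, g * a * g⁻¹ ∈ Q) ∧
          (∀ h ∈ H, (h ∈ Q ↔ h ∈ P))) := by
  exact K611.not_main_of K611.exists_group

end Pool.Agent.S01668
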