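import Pool.Statements.S01712
-- import your own Pool.Agent.* helpers here

set_option autoImplicit false
open Pool Pool.MP_63a718_al

namespace Pool.Agent.S01712

/-!
The counterexample.

Let `K = ⟨b, x | x b x⁻¹ = b⁻¹⟩` be the Klein bottle group, written as pairs `(i, q)` (for `b ^ i * x ^ q`),
and let `B` be the group of affine maps `y ↦ 2 ^ k * y + r` of the rationals, written as pairs `(r, k)`.
Take `G = K × B`, let `R` be the ring of rationals with odd denominator, and put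
`A = {(i, q, r, 0) : r ∈ R}` and `t = (0, 0, 0, 1)`. Then `t A t⁻¹ ⊆ A` and `G` is the union of the sets
`t ^ (-m) * A * t ^ n`.
Order `A` lexicographically: first by `2 * r + q`, then by `i`, then by `r`; the kernel of
`(i, q, r, 0) ↦ 2 * r + q` on `A` is abelian since `q` is even there.
The cone `P` of the semilinear order is (the cone of `A`) together with all `A * t ^ k`, `k > 0`.
The elements `a = (0, -1, 1/2, 0)` and `b = (1, 0, 0, 0)` satisfy
`a * b * a⁻¹ = b⁻¹` and `1 < a ^ 2 < b` in this order; no right order has these properties.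
-/

/-- The group `K × B` described above. -/
@[ext]
structure GG where
  i : ℤ
  q : ℤ
  r : ℚ
  k : ℤ

/-- The sign `(-1) ^ q`. -/
def sg (q : ℤ) : ℤ := (q.negOnePow : ℤ)

lemma sg_zero : sg 0 = 1 := by simp [sg]

lemma sg_add (p q : ℤ) : sg (p + q) = sg p * sg q := by
  simp [sg, Int.negOnePow_add]

lemma sg_neg (p : ℤ) : sg (-p) = sg p := by
  simp [sg, Int.negOnePow_neg]

lemma sg_mul_self (p : ℤ) : sg p * sg p = 1 := by
  rw [← sg_add]
  have : p + p = 2 * p := by ring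
  rw [this]
  simp [sg]

lemma sg_even {p : ℤ} (h : Even p) : sg p = 1 := by
  simp [sg, Int.negOnePow_even p h]

lemma sg_neg_one : sg (-1) = -1 := by
  have h : (-1 : ℤ).negOnePow = -1 := Int.negOnePow_odd (-1) (by decide)
  simp [sg, h]

instance : One GG := ⟨⟨0, 0, 0, 0⟩⟩
instance : Mul GG := ⟨fun g h => ⟨g.i + sg g.q * h.i, g.q + h.q, g.r + (2 : ℚ) ^ g.k * h.r, g.k + h.k⟩⟩
instance : Inv GG := ⟨fun g => ⟨-(sg g.q * g.i), -g.q, -((2 : ℚ) ^ (-g.k) * g.r), -g.k⟩⟩

@[simp] lemma one_i : (1 : GG).i = 0 := rfl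
@[simp] lemma one_q : (1 : GG).q = 0 := rfl
@[simp] lemma one_r : (1 : GG).r = 0 := rfl
@[simp] lemma one_k : (1 : GG).k = 0 := rfl
@[simp] lemma mul_i (g h : GG) : (g * h).i = g.i + sg g.q * h.i := rfl
@[simp] lemma mul_q (g h : GG) : (g * h).q = g.q + h.q := rfl
@[simp] lemma mul_r (g h : GG) : (g * h).r = g.r + (2 : ℚ) ^ g.k * h.r := rfl
@[simp] lemma mul_k (g h : GG) : (g * h).k = g.k + h.k := rfl
@[simp] lemma inv_i (g : GG) : (g⁻¹).i = -(sg g.q * g.i) := rfl
@[simp] lemma inv_q (g : GG) : (g⁻¹).q = -g.q := rfl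
@[simp] lemma inv_r (g : GG) : (g⁻¹).r = -((2 : ℚ) ^ (-g.k) * g.r) := rfl
@[simp] lemma inv_k (g : GG) : (g⁻¹).k = -g.k := rfl

instance : Group GG :=
  Group.ofLeftAxioms
    (by
      intro a b c
      ext
      · simp only [mul_i, mul_q, sg_add]; ring
      · simp only [mul_q]; ring
      · simp only [mul_r, mul_k, zpow_add₀ (two_ne_zero : (2 : ℚ) ≠ 0)]; ring
      · simp only [mul_k]; ring)
    (by
      intro a
      ext <;> simp [sg_zero])
    (by
      intro a
      ext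
      · simp only [mul_i, inv_i, inv_q, sg_neg, one_i]; ring
      · simp
      · simp only [mul_r, inv_r, inv_k, one_r]; ring
      · simp)

/-- Rational numbers with odd denominator. -/
def InR (r : ℚ) : Prop := ∃ m : ℤ, Odd m ∧ ∃ a : ℤ, r * m = a

lemma InR.add {r s : ℚ} (hr : InR r) (hs : InR s) : InR (r + s) := by
  obtain ⟨m, hm, a, ha⟩ := hr
  obtain ⟨n, hn, b, hb⟩ := hs
  refine ⟨m * n, hm.mul hn, a * n + b * m, ?_⟩
  push_cast
  rw [← ha, ← hb]; ring

lemma InR.neg {r : ℚ} (hr : InR r) : InR (-r) := by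
  obtain ⟨m, hm, a, ha⟩ := hr
  refine ⟨m, hm, -a, ?_⟩
  push_cast
  rw [← ha]; ring

lemma InR.zpow_mul {r : ℚ} (hr : InR r) {k : ℤ} (hk : 0 ≤ k) : InR ((2 : ℚ) ^ k * r) := by
  obtain ⟨m, hm, a, ha⟩ := hr
  obtain ⟨n, rfl⟩ := Int.eq_ofNat_of_zero_le hk
  refine ⟨m, hm, 2 ^ n * a, ?_⟩
  push_cast
  rw [← ha]
  simp only [zpow_natCast]
  ring

lemma InR.zero : InR 0 := ⟨1, odd_one, 0, by simp⟩

lemma InR.even_of {r : ℚ} (hr : InR r) {q : ℤ} (h : 2 * r + q = 0) : Even q := by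
  obtain ⟨m, hm, a, ha⟩ := hr
  have h1 : (q : ℚ) * m = ((-2 * a : ℤ) : ℚ) := by
    push_cast
    rw [← ha]
    have : (q : ℚ) = -2 * r := by linarith
    rw [this]; ring
  have h2 : q * m = -2 * a := by exact_mod_cast h1
  have h3 : Even (q * m) := by
    rw [h2]
    exact ⟨-a, by ring⟩
  rcases Int.even_mul.mp h3 with h4 | h4
  · exact h4
  · exact absurd h4 (Int.not_even_iff_odd.mpr hm)

lemma exists_InR (r : ℚ) : ∃ n : ℤ, ∀ m : ℤ, n ≤ m → InR ((2 : ℚ) ^ m * r) := by
  obtain ⟨e, d, hd, he⟩ := Nat.exists_eq_two_pow_mul_odd (n := r.den) r.den_ne_zero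
  refine ⟨e, fun m hm => ?_⟩
  obtain ⟨n, hn⟩ := Int.eq_ofNat_of_zero_le (sub_nonneg.mpr hm)
  have hm' : m = (n : ℤ) + (e : ℤ) := by omega
  refine ⟨d, by exact_mod_cast hd, 2 ^ n * r.num, ?_⟩
  have h2 : r * r.den = r.num := Rat.mul_den_eq_num r
  rw [he] at h2
  push_cast at h2 ⊢
  rw [← h2, hm', zpow_add₀ (two_ne_zero : (2 : ℚ) ≠ 0)]
  simp only [zpow_natCast]
  ring

/-- The positive cone. -/
def P (g : GG) : Prop :=
  InR g.r ∧ (0 < g.k ∨ (g.k = 0 ∧ (0 < 2 * g.r + g.q ∨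
    (2 * g.r + g.q = 0 ∧ (0 < g.i ∨ (g.i = 0 ∧ 0 ≤ g.r))))))

lemma P_one : P 1 := by
  refine ⟨InR.zero, Or.inr ⟨rfl, Or.inr ⟨by simp, Or.inr ⟨rfl, by simp⟩⟩⟩⟩

lemma P_mul {g h : GG} (hg : P g) (hh : P h) : P (g * h) := by
  obtain ⟨hg1, hg2⟩ := hg
  obtain ⟨hh1, hh2⟩ := hh
  have hgk : 0 ≤ g.k := by
    rcases hg2 with h | h
    · exact h.le
    · exact h.1.ge
  have hhk : 0 ≤ h.k := by
    rcases hh2 with h | h
    · exact h.le
    · exact h.1.ge
  refine ⟨?_, ?_⟩
  · rw [mul_r]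
    exact hg1.add (hh1.zpow_mul hgk)
  · rcases hg2 with h1 | ⟨h1, h2⟩
    · left; rw [mul_k]; omega
    · rcases hh2 with h3 | ⟨h3, h4⟩
      · left; rw [mul_k]; omega
      · right
        refine ⟨by rw [mul_k]; omega, ?_⟩
        have hr : (g * h).r = g.r + h.r := by rw [mul_r, h1]; simp
        have hq : (((g * h).q : ℤ) : ℚ) = g.q + h.q := by rw [mul_q]; push_cast; ring
        rw [hr, hq]
        rcases h2 with h2 | ⟨h2, h5⟩
        · left
          rcases h4 with h4 | ⟨h4, h6⟩ <;> linarith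
        · rcases h4 with h4 | ⟨h4, h6⟩
          · left; linarith
          · right
            refine ⟨by linarith, ?_⟩
            have hev : Even g.q := hg1.even_of h2
            rw [mul_i, sg_even hev, one_mul]
            rcases h5 with h5 | ⟨h5, h7⟩
            · left
              rcases h6 with h6 | ⟨h6, h8⟩ <;> omega
            · rcases h6 with h6 | ⟨h6, h8⟩
              · left; omega
              · right
                exact ⟨by omega, by linarith⟩

lemma P_total {g : GG} (hk : g.k = 0) (hr : InR g.r) : P g ∨ P g⁻¹ := by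
  have hr' : (g⁻¹).r = -g.r := by rw [inv_r, hk]; simp
  have hq' : (((g⁻¹).q : ℤ) : ℚ) = -g.q := by rw [inv_q]; push_cast; ring
  have hk' : (g⁻¹).k = 0 := by rw [inv_k, hk]; simp
  rcases lt_trichotomy (0 : ℚ) (2 * g.r + g.q) with h | h | h
  · left
    exact ⟨hr, Or.inr ⟨hk, Or.inl h⟩⟩
  · have hev : Even g.q := hr.even_of h.symm
    have hi' : (g⁻¹).i = -g.i := by rw [inv_i, sg_even hev, one_mul]
    rcases lt_trichotomy (0 : ℤ) g.i with h1 | h1 | h1
    · left
      exact ⟨hr, Or.inr ⟨hk, Or.inr ⟨h.symm, Or.inl h1⟩⟩⟩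
    · rcases le_total (0 : ℚ) g.r with h2 | h2
      · left
        exact ⟨hr, Or.inr ⟨hk, Or.inr ⟨h.symm, Or.inr ⟨h1.symm, h2⟩⟩⟩⟩
      · right
        refine ⟨by rw [hr']; exact hr.neg, Or.inr ⟨hk', Or.inr ⟨?_, Or.inr ⟨?_, ?_⟩⟩⟩⟩
        · rw [hr', hq']; linarith
        · rw [hi']; omega
        · rw [hr']; linarith
    · right
      refine ⟨by rw [hr']; exact hr.neg, Or.inr ⟨hk', Or.inr ⟨?_, Or.inl ?_⟩⟩⟩
      · rw [hr', hq']; linarith
      · rw [hi']; omega
  · right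
    refine ⟨by rw [hr']; exact hr.neg, Or.inr ⟨hk', Or.inl ?_⟩⟩
    rw [hr', hq']; linarith

lemma P_antisymm {g : GG} (h1 : P g) (h2 : P g⁻¹) : g = 1 := by
  obtain ⟨hr, h1⟩ := h1
  obtain ⟨_, h2⟩ := h2
  rw [inv_k] at h2
  have hk : g.k = 0 := by
    rcases h1 with h1 | ⟨h1, _⟩
    · rcases h2 with h2 | ⟨h2, _⟩ <;> omega
    · exact h1
  have hr' : (g⁻¹).r = -g.r := by rw [inv_r, hk]; simp
  have hq' : (((g⁻¹).q : ℤ) : ℚ) = -g.q := by rw [inv_q]; push_cast; ring
  rcases h1 with h1 | ⟨_, h1⟩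
  · omega
  rcases h2 with h2 | ⟨_, h2⟩
  · omega
  rw [hr', hq'] at h2
  have hz : 2 * g.r + g.q = 0 := by
    rcases h1 with h1 | ⟨h1, _⟩
    · rcases h2 with h2 | ⟨h2, _⟩ <;> linarith
    · exact h1
  have hev : Even g.q := hr.even_of hz
  have hi' : (g⁻¹).i = -g.i := by rw [inv_i, sg_even hev, one_mul]
  rcases h1 with h1 | ⟨_, h1⟩
  · linarith
  rcases h2 with h2 | ⟨_, h2⟩
  · linarith
  rw [hi'] at h2
  have hi : g.i = 0 := by
    rcases h1 with h1 | ⟨h1, _⟩
    · rcases h2 with h2 | ⟨h2, _⟩ <;> omega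
    · exact h1
  have hr0 : g.r = 0 := by
    rcases h1 with h1 | ⟨_, h1⟩
    · omega
    · rcases h2 with h2 | ⟨_, h2⟩
      · omega
      · linarith
  have hq0 : g.q = 0 := by
    rw [hr0] at hz
    have : (g.q : ℚ) = 0 := by linarith
    exact_mod_cast this
  ext <;> simp [hi, hq0, hr0, hk]

lemma P_div {a b : GG} (ha : P a) (hb : P b) : P (b * a⁻¹) ∨ P (a * b⁻¹) := by
  wlog hab : a.k ≤ b.k generalizing a b
  · exact (this hb ha (le_of_not_ge hab)).symm
  have h1 : InR (b * a⁻¹).r := by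
    have : (b * a⁻¹).r = b.r + -((2 : ℚ) ^ (b.k - a.k) * a.r) := by
      rw [mul_r, inv_r, sub_eq_add_neg, zpow_add₀ (two_ne_zero : (2 : ℚ) ≠ 0)]
      ring
    rw [this]
    exact hb.1.add ((ha.1.zpow_mul (by omega)).neg)
  have h2 : (b * a⁻¹).k = b.k - a.k := by rw [mul_k, inv_k]; ring
  rcases hab.eq_or_lt with h | h
  · have h3 : (b * a⁻¹).k = 0 := by omega
    have h4 := P_total h3 h1
    rwa [mul_inv_rev, inv_inv] at h4
  · left
    exact ⟨h1, Or.inl (by omega)⟩

/-- The negation of the preceding statement: For every group G and every right-invariant, upward-directed partial order on G whose positive cone is a chain, there is a right-invariant total order on G that contains it. -/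
theorem result :
    ¬ (∀ (G : Type) [Group G] (r : G → G → Prop),
      (∀ a : G, r a a) →
      (∀ a b : G, r a b → r b a → a = b) →
      (∀ a b c : G, r a b → r b c → r a c) →
      (∀ a b c : G, r a b → r (a * c) (b * c)) →
      (∀ a b : G, ∃ c : G, r a c ∧ r b c) →
      (∀ a b : G, r 1 a → r 1 b → r a b ∨ r b a) →
      ∃ s : G → G → Prop,
        (∀ a : G, s a a) ∧
        (∀ a b : G, s a b → s b a → a = b) ∧
        (∀ a b c : G, s a b → s b c → s a c) ∧
        (∀ a b : G, s a b ∨ s b a) ∧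
        (∀ a b c : G, s a b → s (a * c) (b * c)) ∧
        (∀ a b : G, r a b → s a b)) := by
  intro H
  obtain ⟨s, s_refl, s_anti, s_trans, s_total, s_mul, s_ext⟩ :=
    H GG (fun a b => P (b * a⁻¹))
      (fun a => by simpa using P_one)
      (fun a b h1 h2 => by
        have h3 : (b * a⁻¹)⁻¹ = a * b⁻¹ := by group
        rw [← h3] at h2
        have h4 := P_antisymm h1 h2
        exact (mul_inv_eq_one.mp h4).symm)
      (fun a b c h1 h2 => by
        have h3 : c * a⁻¹ = (c * b⁻¹) * (b * a⁻¹) := by group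
        show P (c * a⁻¹)
        rw [h3]
        exact P_mul h2 h1)
      (fun a b c h => by
        have h3 : (b * c) * (a * c)⁻¹ = b * a⁻¹ := by group
        show P ((b * c) * (a * c)⁻¹)
        rw [h3]
        exact h)
      (fun a b => by
        obtain ⟨n1, h1⟩ := exists_InR (a⁻¹).r
        obtain ⟨n2, h2⟩ := exists_InR (b⁻¹).r
        refine ⟨⟨0, 0, 0, max (max n1 n2) (max (a.k + 1) (b.k + 1))⟩, ⟨?_, Or.inl ?_⟩, ⟨?_, Or.inl ?_⟩⟩
        · rw [mul_r, zero_add]
          exact h1 _ (by simp)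
        · rw [mul_k, inv_k]
          have : a.k + 1 ≤ max (max n1 n2) (max (a.k + 1) (b.k + 1)) := by simp
          simp only
          omega
        · rw [mul_r, zero_add]
          exact h2 _ (by simp)
        · rw [mul_k, inv_k]
          have : b.k + 1 ≤ max (max n1 n2) (max (a.k + 1) (b.k + 1)) := by simp
          simp only
          omega)
      (fun a b h1 h2 => by
        rw [inv_one, mul_one] at h1 h2
        exact P_div h1 h2)
  set a : GG := ⟨0, -1, 1/2, 0⟩ with ha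
  set b : GG := ⟨1, 0, 0, 0⟩ with hb
  have haa : a * a = ⟨0, -2, 1, 0⟩ := by
    ext <;> simp [ha] <;> norm_num
  have hinv : a * (b * a⁻¹) = b⁻¹ := by
    ext
    · simp [ha, hb, sg_neg_one, sg_zero]
    · simp [ha, hb]
    · simp [ha, hb]
    · simp [ha, hb]
  have haa1 : a * a ≠ 1 := by
    rw [haa]
    intro h
    have := congrArg GG.r h
    simp at this
  have hb1 : b ≠ 1 := by
    intro h
    have := congrArg GG.i h
    simp [hb] at this
  have r1 : s 1 (a * a) := by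
    apply s_ext
    rw [inv_one, mul_one, haa]
    exact ⟨⟨1, odd_one, 1, by norm_num⟩, Or.inr ⟨rfl, Or.inr ⟨by norm_num, Or.inr ⟨rfl, by norm_num⟩⟩⟩⟩
  have r2 : s (a * a) b := by
    apply s_ext
    rw [haa]
    have h1 : b * (⟨0, -2, 1, 0⟩ : GG)⁻¹ = ⟨1, 2, -1, 0⟩ := by
      ext <;> simp [hb]
    rw [h1]
    exact ⟨⟨1, odd_one, -1, by norm_num⟩, Or.inr ⟨rfl, Or.inr ⟨by norm_num, Or.inl (by norm_num)⟩⟩⟩
  have s1 : s 1 a := by
    rcases s_total 1 a with h | h
    · exact h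
    · exfalso
      have h1 := s_mul a 1 a h
      rw [one_mul] at h1
      have h2 := s_trans _ _ _ h1 h
      exact haa1 (s_anti _ _ h2 r1)
  have s2 : s a (b * a⁻¹) := by
    have h1 := s_mul _ _ a⁻¹ r2
    have h2 : a * a * a⁻¹ = a := by group
    rwa [h2] at h1
  have s3 : s 1 (b * a⁻¹) := s_trans _ _ _ s1 s2
  have s4 : s 1 (a * (b * a⁻¹)) := by
    have h1 := s_mul _ _ (b * a⁻¹) s1
    rw [one_mul] at h1
    exact s_trans _ _ _ s3 h1
  rw [hinv] at s4
  have s5 : s b 1 := by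
    have h1 := s_mul _ _ b s4
    rwa [one_mul, inv_mul_cancel] at h1
  have s6 : s 1 b := s_trans _ _ _ r1 r2
  exact hb1 (s_anti _ _ s5 s6)

end Pool.Agent.S01712
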