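import Pool.Statements.S03060
import Pool.Agent.Work.MP_cb8b78_al.Final

set_option autoImplicit false
open Pool Pool.MP_cb8b78_al

namespace Pool.Agent.S03060

/-- The negation of the preceding statement: Every finitely generated elementary amenable group that is not virtually nilpotent has a subgroup H and a normal subgroup N of H with H/N finitely generated, metabelian, and not virtually nilpotent. -/
theorem result :
    ¬ (∀ (G : Type) [Group G] [Group.FG G],
    (∀ P : ∀ (H : Type) [Group H], Prop,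
      (∀ (H : Type) [Group H] [Finite H], P H) →
      (∀ (H : Type) [CommGroup H], P H) →
      (∀ (H K : Type) [Group H] [Group K], Nonempty (H ≃* K) → P H → P K) →
      (∀ (H : Type) [Group H] (K : Subgroup H), P H → P K) →
      (∀ (H : Type) [Group H] (N : Subgroup H) [N.Normal], P H → P (H ⧸ N)) →
      (∀ (H : Type) [Group H] (N : Subgroup H) [N.Normal], P N → P (H ⧸ N) → P H) →
      (∀ (H : Type) [Group H] (S : Set (Subgroup H)),
        DirectedOn (fun A B => A ≤ B) S → sSup S = ⊤ → (∀ K ∈ S, P K) → P H) →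
      P G) →
    (¬ ∃ K : Subgroup G, K.FiniteIndex ∧ Group.IsNilpotent K) →
    ∃ (H : Subgroup G) (N : Subgroup H) (_ : N.Normal),
      Group.FG (H ⧸ N) ∧ derivedSeries (H ⧸ N) 2 = ⊥ ∧
      ¬ ∃ K : Subgroup (H ⧸ N), K.FiniteIndex ∧ Group.IsNilpotent K) := by
  intro hmain
  -- the simple group
  have hsimple : IsSimpleGroup (alternatingGroup (Fin 5)) := alternatingGroup.isSimpleGroup (by simp)
  have hnc : ¬ ∀ x y : alternatingGroup (Fin 5), x * y = y * x := by
    intro h
    let a : alternatingGroup (Fin 5) :=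
      ⟨Equiv.swap 0 1 * Equiv.swap 1 2, by
        rw [Equiv.Perm.mem_alternatingGroup, Equiv.Perm.sign_mul, Equiv.Perm.sign_swap (by decide),
          Equiv.Perm.sign_swap (by decide)]; rfl⟩
    let b : alternatingGroup (Fin 5) :=
      ⟨Equiv.swap 2 3 * Equiv.swap 3 4, by
        rw [Equiv.Perm.mem_alternatingGroup, Equiv.Perm.sign_mul, Equiv.Perm.sign_swap (by decide),
          Equiv.Perm.sign_swap (by decide)]; rfl⟩
    have h1 := h a b
    have h2 := congrArg (fun z : alternatingGroup (Fin 5) => (z : Equiv.Perm (Fin 5)) 1) h1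
    revert h2
    decide
  obtain ⟨x0, hx0⟩ := exists_ne (1 : alternatingGroup (Fin 5))
  obtain ⟨r, v, hv⟩ := Pool.Agent.MP_cb8b78_al.exists_rich (S := alternatingGroup (Fin 5))
  have hr : 0 < r := by
    obtain ⟨i, hi, _⟩ := hv 1 1 1
    omega
  have hfg := Pool.Agent.MP_cb8b78_al.fg_GG (Pool.Agent.MP_cb8b78_al.aZ r v x0)
  obtain ⟨H, N, hN, h1, h2, h3⟩ := hmain
    (Pool.Agent.MP_cb8b78_al.GG (Pool.Agent.MP_cb8b78_al.aZ r v x0))
    (by
      intro P p1 p2 p3 p4 p5 p6 p7
      exact p4 _ _ (Pool.Agent.MP_cb8b78_al.ambient_EA P p1 p2 p3 p4 p5 p6 p7))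
    (Pool.Agent.MP_cb8b78_al.not_virt_nilpotent hnc hr v x0 hx0 hv)
  exact h3 (Pool.Agent.MP_cb8b78_al.sections hnc hr v x0 hv H N h1 h2)

end Pool.Agent.S03060
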