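import Pool.Statements.S03821
import Pool.Agent.Work.MP_0e9e72_an.Main
import Pool.Agent.Work.MP_0e9e72_an.D

set_option autoImplicit false
open Pool Pool.MP_0e9e72_an

namespace Pool.Agent.S03821

/-- For n≥3, a bounded domain with smooth pseudoconvex finite-type boundary near p and Levi form at p with at least n−2 positive eigenvalues is strongly pseudoconvex at p, if some sequence approaching p paraboloidally has squeezing function tending to 1. -/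
theorem result :
  ∀ n : ℕ, 3 ≤ n →
  ∀ D : Set (EuclideanSpace ℂ (Fin n)), IsOpen D → IsConnected D → Bornology.IsBounded D →
  ∀ p ∈ frontier D,
  ∀ U : Set (EuclideanSpace ℂ (Fin n)), ∀ r : EuclideanSpace ℂ (Fin n) → ℝ,
    IsOpen U → p ∈ U → ContDiff ℝ ((⊤ : ℕ∞) : WithTop ℕ∞) r →
    (∀ z ∈ U, fderiv ℝ r z ≠ 0) →
    D ∩ U = {z | z ∈ U ∧ r z < 0} →
    (∃ W : Submodule ℂ (EuclideanSpace ℂ (Fin n)), n - 2 ≤ Module.finrank ℂ W ∧
      ∀ v ∈ W, v ≠ 0 → fderiv ℝ r p v = 0 ∧ fderiv ℝ r p (Complex.I • v) = 0 ∧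
        0 < fderiv ℝ (fderiv ℝ r) p v v
              + fderiv ℝ (fderiv ℝ r) p (Complex.I • v) (Complex.I • v)) →
    (∀ q ∈ U, r q = 0 → ∀ v : EuclideanSpace ℂ (Fin n),
        fderiv ℝ r q v = 0 → fderiv ℝ r q (Complex.I • v) = 0 →
        0 ≤ fderiv ℝ (fderiv ℝ r) q v v
              + fderiv ℝ (fderiv ℝ r) q (Complex.I • v) (Complex.I • v)) →
    (∀ q ∈ U, r q = 0 → ∃ M : ℕ, ∀ γ : ℂ → EuclideanSpace ℂ (Fin n), ∀ ε : ℝ, 0 < ε →
        DifferentiableOn ℂ γ (Metric.ball 0 ε) → γ 0 = q →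
        ∀ m : ℕ, 1 ≤ m → iteratedDeriv m γ 0 ≠ 0 →
        (∀ j : ℕ, 1 ≤ j → j < m → iteratedDeriv j γ 0 = 0) →
        ∃ k : ℕ, k ≤ M * m ∧ iteratedFDeriv ℝ k (r ∘ γ) 0 ≠ 0) →
    (∃ z : ℕ → EuclideanSpace ℂ (Fin n), (∀ ν, z ν ∈ D) ∧
      Filter.Tendsto z Filter.atTop (nhds p) ∧
      (∃ C : ℝ, 0 < C ∧ ∀ᶠ ν in Filter.atTop,
        ‖z ν - p‖ ^ 2 - (fderiv ℝ r p (z ν - p)) ^ 2 / ‖fderiv ℝ r p‖ ^ 2
          ≤ C ^ 2 * Metric.infDist (z ν) (frontier D)) ∧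
      ∀ ε : ℝ, 0 < ε → ∀ᶠ ν in Filter.atTop,
        ∃ F : EuclideanSpace ℂ (Fin n) → EuclideanSpace ℂ (Fin n),
          DifferentiableOn ℂ F D ∧ Set.InjOn F D ∧ Set.MapsTo F D (Metric.ball 0 1) ∧
          F (z ν) = 0 ∧ Metric.ball 0 (1 - ε) ⊆ F '' D) →
    ∀ v : EuclideanSpace ℂ (Fin n), v ≠ 0 → fderiv ℝ r p v = 0 →
      fderiv ℝ r p (Complex.I • v) = 0 →
      0 < fderiv ℝ (fderiv ℝ r) p v v
            + fderiv ℝ (fderiv ℝ r) p (Complex.I • v) (Complex.I • v) := by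
  intro n hn D hDo hDc hDb p hp U r hUo hpU hr hdr hDU hW hpsc hft hseq v hv hv1 hv2
  obtain ⟨W, hWd, hWpos⟩ := hW
  obtain ⟨z, hzD, hzp, hz, hF⟩ := hseq
  by_contra hcon
  have hv3 := not_lt.1 hcon
  -- `r p = 0`
  have hrc : Continuous r := hr.continuous
  have hpD : p ∉ D := by
    intro h
    rw [frontier, hDo.interior_eq] at hp
    exact hp.2 h
  have hrp : r p = 0 := by
    apply le_antisymm
    · have h1 : ∀ᶠ k in Filter.atTop, z k ∈ U := hzp.eventually (hUo.mem_nhds hpU)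
      have h2 : Filter.Tendsto (fun k => r (z k)) Filter.atTop (nhds (r p)) :=
        (hrc.tendsto p).comp hzp
      refine le_of_tendsto h2 ?_
      filter_upwards [h1] with k hk
      have h3 : z k ∈ D ∩ U := ⟨hzD k, hk⟩
      rw [hDU] at h3
      exact h3.2.le
    · by_contra hneg
      push Not at hneg
      have h3 : p ∈ D ∩ U := by rw [hDU]; exact ⟨hpU, hneg⟩
      exact hpD h3.1
  obtain ⟨Φ, D', r', U', N, b, hNF, hbD, hb0, hb, hF'⟩ :=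
    Pool.Agent.Sqz.iD D hDo hDb p hp U r hUo hpU hr hdr hDU
      ⟨W, by rw [finrank_euclideanSpace_fin]; exact hWd, hWpos⟩ hpsc (hft p hpU hrp) z hzD hzp hz hF
      v hv hv1 hv2 hv3
  exact Pool.Agent.Sqz.mainM hNF b hbD hb0 hb hF'

end Pool.Agent.S03821
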