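import Pool.Statements.S03951
import Pool.Agent.Work.MP_194f66_an.Final
import Pool.Agent.Work.Shared.MSS.Halving

set_option autoImplicit false
open Pool Pool.MP_194f66_an

namespace Pool.Agent.S03951

/-- On ℓ²(ℕ), the set of bounded invertible operators that are upper triangular in the standard basis and whose inverses are also upper triangular is connected in the operator-norm topology. -/
theorem result :
    IsConnected
      {T : lp (fun _ : ℕ => ℂ) 2 →L[ℂ] lp (fun _ : ℕ => ℂ) 2 |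
        ∃ U : (lp (fun _ : ℕ => ℂ) 2 →L[ℂ] lp (fun _ : ℕ => ℂ) 2)ˣ,
          (U : lp (fun _ : ℕ => ℂ) 2 →L[ℂ] lp (fun _ : ℕ => ℂ) 2) = T ∧
          (∀ i j : ℕ, j < i →
            ((U : lp (fun _ : ℕ => ℂ) 2 →L[ℂ] lp (fun _ : ℕ => ℂ) 2)
              (lp.single 2 j (1 : ℂ)) : ℕ → ℂ) i = 0) ∧
          (∀ i j : ℕ, j < i →
            (((U⁻¹ : (lp (fun _ : ℕ => ℂ) 2 →L[ℂ] lp (fun _ : ℕ => ℂ) 2)ˣ) :
                lp (fun _ : ℕ => ℂ) 2 →L[ℂ] lp (fun _ : ℕ => ℂ) 2)
              (lp.single 2 j (1 : ℂ)) : ℕ → ℂ) i = 0)} := by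
  exact Pool.Agent.Work.MP_194f66_an.isConnected_units
    (fun _ _ u v δ hδ hu hv h => Pool.Agent.Work.Shared.MSS.halving u v δ hδ hu hv h)

end Pool.Agent.S03951
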