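import Pool.Statements.S04088
import Pool.Agent.Work.MP_260e18_an.Tiling

set_option autoImplicit false
open MeasureTheory
open Pool Pool.MP_260e18_an

namespace Pool.Agent.S04088

/-- The negation of the preceding statement: Suppose f is integrable and not a.e. zero, and Λ is a nonempty set of bounded density with the sum over Λ of f(x-λ) absolutely convergent and zero for a.e. x. Then there is D>0 with #(Λ∩[x,x+r)) = Dr + o(r) as r→∞, uniformly in x. -/
theorem result :
    ¬ (∀ (f : ℝ → ℂ) (Λ : Set ℝ),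
      Integrable f volume →
      ¬ (f =ᵐ[volume] 0) →
      Λ.Nonempty →
      (∃ M : ℕ, ∀ x : ℝ, (Λ ∩ Set.Ico x (x + 1)).encard ≤ (M : ℕ∞)) →
      (∀ᵐ x ∂(volume : Measure ℝ),
        Summable (fun l : Λ => ‖f (x - (l : ℝ))‖) ∧
        ∑' l : Λ, f (x - (l : ℝ)) = 0) →
      ∃ D : ℝ, 0 < D ∧
        ∀ ε : ℝ, 0 < ε → ∃ R : ℝ, 0 < R ∧
          ∀ r : ℝ, R ≤ r → ∀ x : ℝ,
            |((Λ ∩ Set.Ico x (x + r)).ncard : ℝ) - D * r| ≤ ε * r) := by
  intro h
  obtain ⟨L, r, hL, hr, -, hfix⟩ := Pool.Agent.Work.MP_260e18_an.exists_fixed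
  refine Pool.Agent.Work.MP_260e18_an.not_uniform L hL r ?_
  refine h (Pool.Agent.Work.MP_260e18_an.tile L) (Pool.Agent.Work.MP_260e18_an.Lam L r)
    (Pool.Agent.Work.MP_260e18_an.integrable_tile L hL)
    (Pool.Agent.Work.MP_260e18_an.tile_not_ae_zero L) ?_
    (Pool.Agent.Work.MP_260e18_an.bounded_density L hL r) ?_
  · exact ⟨_, (0, 0), Or.inr le_rfl, rfl⟩
  · exact Filter.Eventually.of_forall fun x =>
      Pool.Agent.Work.MP_260e18_an.tiling L hL r hr hfix x

end Pool.Agent.S04088
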