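import Pool.Statements.S04426
import Pool.Agent.Work.MP_3dfed9_an.Main

set_option autoImplicit false
open Filter Topology
open Pool Pool.MP_3dfed9_an

namespace Pool.Agent.S04426

/-- The negation of the preceding statement: Every separable real Banach space with no isomorphic copy of ℓ1 embeds isomorphically into a real Banach space that has a Schauder basis and also contains no isomorphic copy of ℓ1. -/
theorem result :
    ¬ (∀ (X : Type) [NormedAddCommGroup X] [NormedSpace ℝ X] [CompleteSpace X]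
      [TopologicalSpace.SeparableSpace X],
      (¬ ∃ (T : lp (fun _ : ℕ => ℝ) 1 →L[ℝ] X) (c : ℝ), 0 < c ∧ ∀ x, c * ‖x‖ ≤ ‖T x‖) →
      ∃ (Y : Type) (_ : NormedAddCommGroup Y) (_ : NormedSpace ℝ Y) (_ : CompleteSpace Y),
        (∃ e : ℕ → Y, ∀ y : Y, ∃! a : ℕ → ℝ,
            Tendsto (fun N => ∑ n ∈ Finset.range N, a n • e n) atTop (𝓝 y)) ∧
        (¬ ∃ (T : lp (fun _ : ℕ => ℝ) 1 →L[ℝ] Y) (c : ℝ), 0 < c ∧ ∀ x, c * ‖x‖ ≤ ‖T x‖) ∧
        ∃ (J : X →L[ℝ] Y) (c : ℝ), 0 < c ∧ ∀ x, c * ‖x‖ ≤ ‖J x‖) := by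
  exact Pool.Agent.L1F.main_l1

end Pool.Agent.S04426
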