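import Pool.Statements.S04652
import Pool.Agent.Work.MP_505f06_an.Relation

set_option autoImplicit false
open Pool Pool.MP_505f06_an

namespace Pool.Agent.S04652

/-- The index map: a pair of lattice points gives a time-frequency shift. -/
noncomputable def idx (z : ℝ × ℝ) : (ℤ × ℤ) ⊕ (ℤ × ℤ) → (Fin 1 → ℝ) × (Fin 1 → ℝ) :=
  Sum.elim (fun k => (fun _ => -(k.2 : ℝ), fun _ => (k.1 : ℝ)))
    (fun k => (fun _ => z.1 - (k.2 : ℝ), fun _ => (k.1 : ℝ) + z.2))

theorem idx_injective {z : ℝ × ℝ} (hz : ∀ k : ℤ, z.1 ≠ k) : Function.Injective (idx z) := by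
  rintro (⟨k1, k2⟩ | ⟨k1, k2⟩) (⟨l1, l2⟩ | ⟨l1, l2⟩) h
  · have h1 := congrFun (congrArg Prod.fst h) 0
    have h2 := congrFun (congrArg Prod.snd h) 0
    simp only [idx, Sum.elim_inl, neg_inj, Int.cast_inj] at h1 h2
    rw [h1, h2]
  · have h1 := congrFun (congrArg Prod.fst h) 0
    simp only [idx, Sum.elim_inl, Sum.elim_inr] at h1
    exact absurd (show z.1 = ((l2 - k2 : ℤ) : ℝ) by push_cast; linarith) (hz _)
  · have h1 := congrFun (congrArg Prod.fst h) 0
    simp only [idx, Sum.elim_inl, Sum.elim_inr] at h1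
    exact absurd (show z.1 = ((k2 - l2 : ℤ) : ℝ) by push_cast; linarith) (hz _)
  · have h1 := congrFun (congrArg Prod.fst h) 0
    have h2 := congrFun (congrArg Prod.snd h) 0
    simp only [idx, Sum.elim_inr, sub_right_inj, add_left_inj, Int.cast_inj] at h1 h2
    rw [h1, h2]

/-- The negation of the preceding statement: For every n and every nonzero square-integrable g on ℝⁿ: if a finite linear combination of distinct time-frequency shifts e^{2πi⟨ω,t⟩} g(t−x) vanishes almost everywhere, then all its coefficients are zero. -/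
theorem result :
    ¬ (∀ n : ℕ, ∀ g : (Fin n → ℝ) → ℂ,
      MeasureTheory.MemLp g 2 MeasureTheory.volume →
      ¬ (g =ᵐ[MeasureTheory.volume] 0) →
      ∀ (s : Finset ((Fin n → ℝ) × (Fin n → ℝ))) (c : (Fin n → ℝ) × (Fin n → ℝ) → ℂ),
        (fun t : Fin n → ℝ =>
            ∑ p ∈ s, c p *
              (Complex.exp (2 * (Real.pi : ℂ) * Complex.I * ((∑ i, p.2 i * t i : ℝ) : ℂ)) *
                g (t - p.1))) =ᵐ[MeasureTheory.volume] 0 →
        ∀ p ∈ s, c p = 0) := by
  intro H
  obtain ⟨g, z, S, T, a, b, hgc, hgm, hg0, hz, ⟨k, hkT, hk⟩, hrel⟩ := HRTCounter.exists_relation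
  have hinj := idx_injective hz
  have h1 : MeasureTheory.MemLp (fun t : Fin 1 → ℝ => g (t 0)) 2 MeasureTheory.volume :=
    hgm.comp_measurePreserving (MeasureTheory.volume_preserving_funUnique (Fin 1) ℝ)
  have h2 : ¬ ((fun t : Fin 1 → ℝ => g (t 0)) =ᵐ[MeasureTheory.volume] 0) := by
    intro h
    apply hg0
    have hc : Continuous (fun t : Fin 1 → ℝ => g (t 0)) := hgc.comp (continuous_apply 0)
    have h3 : (fun t : Fin 1 → ℝ => g (t 0)) = 0 :=
      (Continuous.ae_eq_iff_eq MeasureTheory.volume hc continuous_zero).1 h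
    funext x
    exact congrFun h3 (fun _ => x)
  have h4 := H 1 _ h1 h2 ((S.disjSum T).map ⟨idx z, hinj⟩)
    (Function.extend (idx z) (Sum.elim a b) 0) ?_ (idx z (Sum.inr k)) ?_
  · rw [hinj.extend_apply] at h4
    exact hk h4
  · refine Filter.Eventually.of_forall fun t => ?_
    simp only [Finset.sum_map, Function.Embedding.coeFn_mk, hinj.extend_apply, Pi.zero_apply]
    rw [Finset.sum_disjSum]
    simp only [Sum.elim_inl, Sum.elim_inr, idx, Finset.univ_unique, Fin.default_eq_zero,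
      Finset.sum_singleton, Pi.sub_apply]
    exact hrel (t 0)
  · rw [Finset.mem_map]
    exact ⟨Sum.inr k, Finset.inr_mem_disjSum.2 hkT, rfl⟩

end Pool.Agent.S04652
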