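import Pool.Statements.S04889

set_option autoImplicit false
open Pool Pool.MP_65dae3_an

namespace Pool.Agent.S04889

/-! The sequence is indexed by pairs `(p, q)` of natural numbers (through `Nat.pair`).  A point
`(p, p)` is a base point; base points are divided into finite classes `Nat.sqrt p` of unbounded
size.  For `p, q` in different classes the position `(p, q)` carries the linear equation
`η (p, q) = η (p, p) + η (q, q)` (if `p < q`) or `η (p, q) = η (p, p) - η (q, q)` (if `q < p`);
for `p ≠ q` in the same class the equation is `η (p, q) = 0`.  All equations are coded in one real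
relation with the weights `5 ^ (-n)`. -/

/-- weights -/
noncomputable def w (n : ℕ) : ℝ := (1 / 5 : ℝ) ^ n

def cl (p : ℕ) : ℕ := Nat.sqrt p

def b (p : ℕ) : ℕ := Nat.pair p p

def A (n : ℕ) : ℕ := b (Nat.unpair n).1

def B (n : ℕ) : ℕ := b (Nat.unpair n).2

def ca (n : ℕ) : ℤ := if (Nat.unpair n).1 = (Nat.unpair n).2 then 0 else 1

def cb (n : ℕ) : ℤ := if cl (Nat.unpair n).1 = cl (Nat.unpair n).2 then 0 else -1

def cc (n : ℕ) : ℤ :=
  if cl (Nat.unpair n).1 = cl (Nat.unpair n).2 then 0
  else if (Nat.unpair n).1 < (Nat.unpair n).2 then -1 else 1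

/-- integer value of a Boolean sequence -/
def v (ε : ℕ → Bool) (n : ℕ) : ℤ := if ε n = true then 1 else 0

/-- the `n`-th linear form -/
def Lf (ε : ℕ → Bool) (n : ℕ) : ℤ := ca n * v ε n + cb n * v ε (A n) + cc n * v ε (B n)

/-- the sequence -/
noncomputable def x (k : ℕ) : ℝ :=
  w k * ca k + (∑' j : A ⁻¹' {k}, w j * cb j) + (∑' j : B ⁻¹' {k}, w j * cc j)

lemma abs_ca (n : ℕ) : |(ca n : ℝ)| ≤ 1 := by
  unfold ca; split_ifs <;> simp

lemma abs_cb (n : ℕ) : |(cb n : ℝ)| ≤ 1 := by
  unfold cb; split_ifs <;> simp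

lemma abs_cc (n : ℕ) : |(cc n : ℝ)| ≤ 1 := by
  unfold cc; split_ifs <;> simp

lemma w_pos (n : ℕ) : 0 < w n := by unfold w; positivity

lemma summable_w : Summable w := by
  unfold w
  exact summable_geometric_of_lt_one (by norm_num) (by norm_num)

lemma summable_w_mul (c : ℕ → ℝ) (C : ℝ) (hc : ∀ n, |c n| ≤ C) : Summable (fun n => w n * c n) := by
  refine Summable.of_norm_bounded (summable_w.mul_right C) ?_
  intro n
  rw [Real.norm_eq_abs, abs_mul, abs_of_pos (w_pos n)]
  exact mul_le_mul_of_nonneg_left (hc n) (w_pos n).le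

/-- Fibrewise summation. -/
lemma hasSum_fiber (c : ℕ → ℝ) (C : ℝ) (hc : ∀ n, |c n| ≤ C) (g : ℕ → ℕ) (η : ℕ → ℝ)
    (hη : ∀ n, |η n| ≤ 1) :
    HasSum (fun k => η k * ∑' j : g ⁻¹' {k}, w j * c j) (∑' n, w n * (c n * η (g n))) := by
  have h1 : Summable (fun n => w n * (c n * η (g n))) := by
    apply summable_w_mul _ C
    intro n
    rw [abs_mul]
    have h0 : 0 ≤ C := le_trans (abs_nonneg _) (hc 0)
    calc |c n| * |η (g n)| ≤ C * 1 := mul_le_mul (hc n) (hη _) (abs_nonneg _) h0
      _ = C := mul_one C
  have h2 := h1.hasSum.tsum_fiberwise g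
  have e : (fun k => η k * ∑' j : g ⁻¹' {k}, w j * c j)
      = (fun k => ∑' j : g ⁻¹' {k}, w j * (c j * η (g j))) := by
    funext k
    rw [← tsum_mul_left]
    apply tsum_congr
    rintro ⟨j, hj⟩
    have : g j = k := hj
    simp only [this]
    ring
  rw [e]
  exact h2

lemma hasSum_eta (η : ℕ → ℝ) (hη : ∀ n, |η n| ≤ 1) :
    HasSum (fun k => η k * x k)
      (∑' n, w n * (ca n * η n + cb n * η (A n) + cc n * η (B n))) := by
  have h1 : Summable (fun n => w n * ((ca n : ℝ) * η n)) := by
    apply summable_w_mul _ 1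
    intro n
    rw [abs_mul]
    calc |(ca n : ℝ)| * |η n| ≤ 1 * 1 := mul_le_mul (abs_ca n) (hη _) (abs_nonneg _) zero_le_one
      _ = 1 := mul_one 1
  have h2 : Summable (fun n => w n * ((cb n : ℝ) * η (A n))) := by
    apply summable_w_mul _ 1
    intro n
    rw [abs_mul]
    calc |(cb n : ℝ)| * |η (A n)| ≤ 1 * 1 :=
        mul_le_mul (abs_cb n) (hη _) (abs_nonneg _) zero_le_one
      _ = 1 := mul_one 1
  have h3 : Summable (fun n => w n * ((cc n : ℝ) * η (B n))) := by
    apply summable_w_mul _ 1
    intro n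
    rw [abs_mul]
    calc |(cc n : ℝ)| * |η (B n)| ≤ 1 * 1 :=
        mul_le_mul (abs_cc n) (hη _) (abs_nonneg _) zero_le_one
      _ = 1 := mul_one 1
  have e1 : (∑' n, w n * (ca n * η n + cb n * η (A n) + cc n * η (B n)))
      = (∑' n, w n * ((ca n : ℝ) * η n)) + (∑' n, w n * ((cb n : ℝ) * η (A n)))
        + (∑' n, w n * ((cc n : ℝ) * η (B n))) := by
    rw [← h1.tsum_add h2, ← (h1.add h2).tsum_add h3]
    apply tsum_congr
    intro n
    ring
  rw [e1]
  have g1 := h1.hasSum
  have g2 := hasSum_fiber (fun n => (cb n : ℝ)) 1 abs_cb A η hη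
  have g3 := hasSum_fiber (fun n => (cc n : ℝ)) 1 abs_cc B η hη
  convert (g1.add g2).add g3 using 2 with k
  unfold x
  ring

lemma summable_x : Summable (fun n => |x n|) := by
  have h := hasSum_eta (fun n => if 0 ≤ x n then 1 else -1) (by intro n; split_ifs <;> simp)
  have h2 := h.summable
  convert h2 using 2 with n
  split_ifs with h0
  · rw [abs_of_nonneg h0, one_mul]
  · rw [abs_of_neg (not_le.mp h0)]; ring

lemma v_abs (ε : ℕ → Bool) (n : ℕ) : |(v ε n : ℝ)| ≤ 1 := by
  unfold v; split_ifs <;> simp

lemma f_eq (ε : ℕ → Bool) :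
    ∑' n, (if ε n = true then x n else 0) = ∑' n, w n * (Lf ε n : ℝ) := by
  have h := hasSum_eta (fun n => (v ε n : ℝ)) (v_abs ε)
  have h2 := h.tsum_eq
  have e1 : ∀ n, (if ε n = true then x n else 0) = (v ε n : ℝ) * x n := by
    intro n
    unfold v
    split_ifs <;> simp
  simp only [e1]
  rw [h2]
  apply tsum_congr
  intro n
  unfold Lf
  push_cast
  ring

/-- digit lemma -/
lemma digit (c : ℕ → ℤ) (hc : ∀ n, |c n| ≤ 3) (h0 : ∑' n, w n * (c n : ℝ) = 0) : ∀ n, c n = 0 := by
  have hcr : ∀ n, |(c n : ℝ)| ≤ 3 := by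
    intro n
    have := hc n
    rw [← Int.cast_abs]
    exact_mod_cast this
  have hs : Summable (fun n => w n * (c n : ℝ)) := summable_w_mul _ 3 hcr
  intro n
  induction n using Nat.strong_induction_on with
  | _ n ih =>
    have h1 := hs.sum_add_tsum_nat_add (n + 1)
    rw [h0, Finset.sum_range_succ] at h1
    have h2 : ∑ i ∈ Finset.range n, w i * (c i : ℝ) = 0 := by
      apply Finset.sum_eq_zero
      intro i hi
      rw [ih i (Finset.mem_range.mp hi)]
      simp
    rw [h2, zero_add] at h1
    have h3 : |∑' i, w (i + (n + 1)) * (c (i + (n + 1)) : ℝ)| ≤ ∑' i, w (i + (n + 1)) * 3 := by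
      have hs1 : Summable (fun i => w (i + (n + 1)) * (3 : ℝ)) :=
        ((summable_nat_add_iff (n + 1)).mpr summable_w).mul_right 3
      have := tsum_of_norm_bounded hs1.hasSum (f := fun i => w (i + (n + 1)) * (c (i + (n + 1)) : ℝ))
        (by
          intro i
          rw [Real.norm_eq_abs, abs_mul, abs_of_pos (w_pos _)]
          exact mul_le_mul_of_nonneg_left (hcr _) (w_pos _).le)
      rwa [Real.norm_eq_abs] at this
    have h4 : ∑' i, w (i + (n + 1)) * 3 = w n * (3 / 4) := by
      have e : ∀ i, w (i + (n + 1)) * 3 = (w n * (3 / 5)) * (1 / 5 : ℝ) ^ i := by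
        intro i
        unfold w
        rw [pow_add, pow_add]
        ring
      simp only [e]
      rw [tsum_mul_left, tsum_geometric_of_lt_one (by norm_num) (by norm_num)]
      ring
    rw [h4] at h3
    have h5 : w n * |(c n : ℝ)| ≤ w n * (3 / 4) := by
      have : w n * (c n : ℝ) = - ∑' i, w (i + (n + 1)) * (c (i + (n + 1)) : ℝ) := by linarith
      calc w n * |(c n : ℝ)| = |w n * (c n : ℝ)| := by rw [abs_mul, abs_of_pos (w_pos n)]
        _ = |∑' i, w (i + (n + 1)) * (c (i + (n + 1)) : ℝ)| := by rw [this, abs_neg]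
        _ ≤ w n * (3 / 4) := h3
    have h6 : |(c n : ℝ)| ≤ 3 / 4 := le_of_mul_le_mul_left h5 (w_pos n)
    have h7 : |(c n : ℝ)| < 1 := by linarith
    rw [← Int.cast_abs] at h7
    have h8 : |c n| < 1 := by exact_mod_cast h7
    exact Int.abs_lt_one_iff.mp h8

lemma v_cases (ε : ℕ → Bool) (n : ℕ) : v ε n = 0 ∨ v ε n = 1 := by
  unfold v; split_ifs <;> simp

lemma ca_cases (n : ℕ) : ca n = 0 ∨ ca n = 1 := by
  unfold ca; split_ifs <;> simp

lemma cb_cases (n : ℕ) : cb n = 0 ∨ cb n = -1 := by
  unfold cb; split_ifs <;> simp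

lemma cc_cases (n : ℕ) : cc n = 0 ∨ cc n = -1 ∨ cc n = 1 := by
  unfold cc; split_ifs <;> simp

lemma f_eq_iff (ε δ : ℕ → Bool) :
    (∑' n, (if ε n = true then x n else 0) = ∑' n, (if δ n = true then x n else 0)) ↔
      ∀ n, Lf ε n = Lf δ n := by
  constructor
  · intro h n
    rw [f_eq, f_eq] at h
    have hsε : Summable (fun n => w n * (Lf ε n : ℝ)) := by
      apply summable_w_mul _ 3
      intro n
      unfold Lf
      rcases v_cases ε n with h1 | h1 <;> rcases v_cases ε (A n) with h2 | h2 <;>
        rcases v_cases ε (B n) with h3 | h3 <;> rcases ca_cases n with h4 | h4 <;>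
        rcases cb_cases n with h5 | h5 <;> rcases cc_cases n with h6 | h6 | h6 <;>
        rw [h1, h2, h3, h4, h5, h6] <;> norm_num
    have hsδ : Summable (fun n => w n * (Lf δ n : ℝ)) := by
      apply summable_w_mul _ 3
      intro n
      unfold Lf
      rcases v_cases δ n with h1 | h1 <;> rcases v_cases δ (A n) with h2 | h2 <;>
        rcases v_cases δ (B n) with h3 | h3 <;> rcases ca_cases n with h4 | h4 <;>
        rcases cb_cases n with h5 | h5 <;> rcases cc_cases n with h6 | h6 | h6 <;>
        rw [h1, h2, h3, h4, h5, h6] <;> norm_num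
    have h1 := digit (fun n => Lf ε n - Lf δ n) (by
      intro n
      have a1 : |v ε n - v δ n| ≤ 1 := by
        rcases v_cases ε n with h1 | h1 <;> rcases v_cases δ n with h2 | h2 <;>
          rw [h1, h2] <;> norm_num
      have a2 : |v ε (A n) - v δ (A n)| ≤ 1 := by
        rcases v_cases ε (A n) with h1 | h1 <;> rcases v_cases δ (A n) with h2 | h2 <;>
          rw [h1, h2] <;> norm_num
      have a3 : |v ε (B n) - v δ (B n)| ≤ 1 := by
        rcases v_cases ε (B n) with h1 | h1 <;> rcases v_cases δ (B n) with h2 | h2 <;>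
          rw [h1, h2] <;> norm_num
      have e : Lf ε n - Lf δ n = ca n * (v ε n - v δ n) + cb n * (v ε (A n) - v δ (A n))
          + cc n * (v ε (B n) - v δ (B n)) := by unfold Lf; ring
      rw [e, abs_le]
      rw [abs_le] at a1 a2 a3
      rcases ca_cases n with h4 | h4 <;>
        rcases cb_cases n with h5 | h5 <;> rcases cc_cases n with h6 | h6 | h6 <;>
        rw [h4, h5, h6] <;> constructor <;> linarith) (by
      have e : ∀ n, w n * ((Lf ε n - Lf δ n : ℤ) : ℝ)
          = w n * (Lf ε n : ℝ) - w n * (Lf δ n : ℝ) := by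
        intro n; push_cast; ring
      simp only [e]
      rw [hsε.tsum_sub hsδ, h, sub_self]) n
    linarith
  · intro h
    rw [f_eq, f_eq]
    simp only [h]

/-- The base values determine everything else in a fibre. -/
lemma base_det {ε δ : ℕ → Bool} (h : ∀ n, Lf ε n = Lf δ n) (hb : ∀ p, v ε (b p) = v δ (b p)) :
    ε = δ := by
  have hv : ∀ n, v ε n = v δ n := by
    intro n
    by_cases hn : (Nat.unpair n).1 = (Nat.unpair n).2
    · have : n = b (Nat.unpair n).1 := by
        unfold b
        conv_lhs => rw [← Nat.pair_unpair n]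
        rw [← hn]
      rw [this]
      exact hb _
    · have h1 := h n
      unfold Lf at h1
      have h2 : ca n = 1 := by unfold ca; simp [hn]
      rw [h2] at h1
      unfold A B at h1
      rw [hb, hb] at h1
      linarith
  funext n
  have := hv n
  unfold v at this
  cases h1 : ε n <;> cases h2 : δ n <;> simp [h1, h2] at this ⊢

/-- Base points of two different classes do not vary together. -/
lemma excl {ε δ : ℕ → Bool} (h : ∀ n, Lf ε n = Lf δ n) {p q : ℕ} (hpq : cl p ≠ cl q) :
    v ε (b p) = v δ (b p) ∨ v ε (b q) = v δ (b q) := by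
  -- by symmetry assume p < q
  have key : ∀ p q : ℕ, cl p ≠ cl q → p < q →
      v ε (b p) = v δ (b p) ∨ v ε (b q) = v δ (b q) := by
    intro p q hpq hlt
    have h1 := h (Nat.pair p q)
    have h2 := h (Nat.pair q p)
    have hne : p ≠ q := ne_of_lt hlt
    unfold Lf ca cb cc A B at h1 h2
    simp only [Nat.unpair_pair] at h1 h2
    rw [if_neg hne, if_neg hpq, if_neg hpq, if_pos hlt] at h1
    rw [if_neg hne.symm, if_neg (Ne.symm hpq), if_neg (Ne.symm hpq),
      if_neg (not_lt.mpr hlt.le)] at h2
    have a1 := v_cases ε (b p)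
    have a2 := v_cases δ (b p)
    have a3 := v_cases ε (b q)
    have a4 := v_cases δ (b q)
    have a5 := v_cases ε (Nat.pair p q)
    have a6 := v_cases δ (Nat.pair p q)
    have a7 := v_cases ε (Nat.pair q p)
    have a8 := v_cases δ (Nat.pair q p)
    omega
  rcases lt_trichotomy p q with hlt | heq | hgt
  · exact key p q hpq hlt
  · exact absurd (by rw [heq]) hpq
  · exact (key q p (Ne.symm hpq) hgt).symm

lemma cl_finite (k : ℕ) : {p : ℕ | cl p = k}.Finite := by
  apply Set.Finite.subset (Set.finite_Iio ((k + 1) * (k + 1)))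
  intro p hp
  simp only [Set.mem_ofPred_eq, cl] at hp
  rw [Set.mem_Iio, ← hp]
  exact Nat.lt_succ_sqrt p

/-- all fibres are finite -/
lemma fiber_finite (t : ℝ) :
    {ε : ℕ → Bool | ∑' n, (if ε n = true then x n else 0) = t}.Finite := by
  by_cases hsub : {ε : ℕ → Bool | ∑' n, (if ε n = true then x n else 0) = t}.Subsingleton
  · exact hsub.finite
  · rw [Set.not_subsingleton_iff] at hsub
    obtain ⟨ε, hε, δ, hδ, hne⟩ := hsub
    simp only [Set.mem_ofPred_eq] at hε hδ
    have hL : ∀ n, Lf ε n = Lf δ n := (f_eq_iff ε δ).mp (hε.trans hδ.symm)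
    have hp : ∃ p, v ε (b p) ≠ v δ (b p) := by
      by_contra hcon
      push Not at hcon
      exact hne (base_det hL hcon)
    obtain ⟨p, hp⟩ := hp
    -- restriction to the class of p is injective on the fibre
    let g : (ℕ → Bool) → ({q : ℕ | cl q = cl p} → ℤ) := fun θ q => v θ (b q.1)
    have hfin : Finite {q : ℕ | cl q = cl p} := (cl_finite (cl p)).to_subtype
    have hmaps : Set.MapsTo g {ε : ℕ → Bool | ∑' n, (if ε n = true then x n else 0) = t}
        (Set.pi Set.univ (fun _ => ({0, 1} : Set ℤ))) := by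
      intro θ _ q _
      rcases v_cases θ (b q.1) with h | h
      · left; exact h
      · right; exact h
    have hrange : (Set.pi Set.univ (fun _ : {q : ℕ | cl q = cl p} => ({0, 1} : Set ℤ))).Finite :=
      Set.Finite.pi' (fun _ => (Set.finite_singleton (1 : ℤ)).insert 0) |>.subset (by
        intro f hf i
        exact hf i (Set.mem_univ i))
    refine Set.Finite.of_injOn hmaps ?_ hrange
    intro θ hθ θ' hθ' hgg
    simp only [Set.mem_ofPred_eq] at hθ hθ'
    have hout : ∀ ρ : ℕ → Bool, (∑' n, (if ρ n = true then x n else 0) = t) →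
        ∀ q, cl q ≠ cl p → v ρ (b q) = v ε (b q) := by
      intro ρ hρ q hq
      have h1 := excl ((f_eq_iff ρ ε).mp (hρ.trans hε.symm)) hq
      have h2 := excl ((f_eq_iff ρ δ).mp (hρ.trans hδ.symm)) hq
      have h3 := excl hL hq
      rcases h1 with h1 | h1
      · exact h1
      · rcases h3 with h3 | h3
        · rcases h2 with h2 | h2
          · rw [h2, h3]
          · exact absurd (h1.symm.trans h2) hp
        · exact absurd h3 hp
    apply base_det ((f_eq_iff θ θ').mp (hθ.trans hθ'.symm))
    intro q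
    by_cases hq : cl q = cl p
    · exact congrFun hgg ⟨q, hq⟩
    · rw [hout θ hθ q hq, hout θ' hθ' q hq]

/-- the special points of the big fibre -/
noncomputable def big (N p : ℕ) (n : ℕ) : Bool :=
  open Classical in
  if (Nat.unpair n).1 = (Nat.unpair n).2 then decide ((Nat.unpair n).1 = p)
  else if cl (Nat.unpair n).1 = cl (Nat.unpair n).2 then false
  else if (Nat.unpair n).1 < (Nat.unpair n).2 then
    decide ((Nat.unpair n).1 = p ∨ (Nat.unpair n).2 = p)
  else decide ((Nat.unpair n).1 = p ∨ (cl (Nat.unpair n).2 = N ∧ (Nat.unpair n).2 ≠ p))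

lemma v_big_base (N p q : ℕ) : v (big N p) (b q) = if q = p then 1 else 0 := by
  unfold v big b
  simp only [Nat.unpair_pair, if_true]
  by_cases h : q = p <;> simp [h]

lemma Lf_big (N p : ℕ) (hp : cl p = N) (n : ℕ) :
    Lf (big N p) n = if cl (Nat.unpair n).1 = cl (Nat.unpair n).2 then 0
      else if (Nat.unpair n).1 < (Nat.unpair n).2 then 0
      else if cl (Nat.unpair n).2 = N then 1 else 0 := by
  unfold Lf A B
  rw [v_big_base, v_big_base]
  unfold ca cb cc v big
  by_cases h1 : (Nat.unpair n).1 = (Nat.unpair n).2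
  · simp [h1]
  · by_cases h2 : cl (Nat.unpair n).1 = cl (Nat.unpair n).2
    · simp [h1, h2]
    · by_cases h3 : (Nat.unpair n).1 < (Nat.unpair n).2
      · by_cases h4 : (Nat.unpair n).1 = p
        · have h5 : (Nat.unpair n).2 ≠ p := fun h => h1 (h4.trans h.symm)
          simp [h1, h2, h3, h4, h5]
          have h6 : p < (Nat.unpair n).2 := by rw [← h4]; exact h3
          have h7 : cl p ≠ cl (Nat.unpair n).2 := by rw [← h4]; exact h2
          have h8 : p ≠ (Nat.unpair n).2 := fun h => h5 h.symm
          simp [h6, h7, h8]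
        · by_cases h5 : (Nat.unpair n).2 = p
          · have h7 : cl (Nat.unpair n).1 ≠ cl p := by rw [← h5]; exact h2
            have h6 : (Nat.unpair n).1 < p := by rw [← h5]; exact h3
            simp [h4, h5, h6, h7]
          · simp [h1, h2, h3, h4, h5]
      · by_cases h4 : (Nat.unpair n).1 = p
        · have h5 : (Nat.unpair n).2 ≠ p := fun h => h1 (h4.trans h.symm)
          have h6 : ¬ (p < (Nat.unpair n).2) := by rw [← h4]; exact h3
          have h7 : cl p ≠ cl (Nat.unpair n).2 := by rw [← h4]; exact h2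
          have h8 : p ≠ (Nat.unpair n).2 := fun h => h5 h.symm
          have h9 : cl (Nat.unpair n).2 ≠ N := by rw [← hp]; exact fun h => h7 h.symm
          simp [h4, h5, h6, h7, h8, h9]
        · by_cases h5 : (Nat.unpair n).2 = p
          · have h7 : cl (Nat.unpair n).1 ≠ cl p := by rw [← h5]; exact h2
            have h6 : ¬ (Nat.unpair n).1 < p := by rw [← h5]; exact h3
            have h8 : cl (Nat.unpair n).1 ≠ N := by rw [← hp]; exact h7
            simp [h4, h5, h6, h7, h8, hp]
          · by_cases h6 : cl (Nat.unpair n).2 = N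
            · have h8 : cl (Nat.unpair n).1 ≠ N := by rw [← h6]; exact h2
              simp [h1, h3, h4, h5, h6, h8]
            · simp [h1, h2, h3, h4, h5, h6]

lemma big_inj (N p q : ℕ) (h : big N p = big N q) : p = q := by
  have h1 := v_big_base N p p
  have h2 := v_big_base N q p
  rw [h, h2] at h1
  by_contra hne
  simp [hne] at h1

/-- There is an absolutely convergent real series such that, counting 0-1 sequences whose subsum equals t, some t gives arbitrarily large finite counts, and no t gives countably infinitely many or continuum many. -/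
theorem result :
    ∃ x : ℕ → ℝ, Summable (fun n => |x n|) ∧
      (∀ N : ℕ, ∃ t : ℝ, ∃ k : ℕ, N ≤ k ∧
        Cardinal.mk {ε : ℕ → Bool // ∑' n, (if ε n = true then x n else 0) = t} = (k : Cardinal)) ∧
      (∀ t : ℝ,
        Cardinal.mk {ε : ℕ → Bool // ∑' n, (if ε n = true then x n else 0) = t} ≠ Cardinal.aleph0 ∧
        Cardinal.mk {ε : ℕ → Bool // ∑' n, (if ε n = true then x n else 0) = t} ≠ Cardinal.continuum) := by
  refine ⟨x, summable_x, ?_, ?_⟩
  · intro N
    set t : ℝ := ∑' n, (if big N (N * N) n = true then x n else 0) with ht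
    have hfin : Finite {ε : ℕ → Bool // ∑' n, (if ε n = true then x n else 0) = t} :=
      (fiber_finite t).to_subtype
    refine ⟨t, Nat.card {ε : ℕ → Bool // ∑' n, (if ε n = true then x n else 0) = t}, ?_, ?_⟩
    · have hcl : ∀ i : Fin N, cl (N * N + i.1) = N := by
        intro i
        unfold cl
        symm
        rw [Nat.eq_sqrt]
        constructor
        · exact Nat.le_add_right _ _
        · have := i.2
          nlinarith
      have hcl0 : cl (N * N) = N := by
        unfold cl
        exact Nat.sqrt_eq N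
      have hmem : ∀ i : Fin N, ∑' n, (if big N (N * N + i.1) n = true then x n else 0) = t := by
        intro i
        rw [ht, f_eq_iff]
        intro n
        rw [Lf_big N _ (hcl i), Lf_big N _ hcl0]
      let F : Fin N → {ε : ℕ → Bool // ∑' n, (if ε n = true then x n else 0) = t} :=
        fun i => ⟨big N (N * N + i.1), hmem i⟩
      have hF : Function.Injective F := by
        intro i j hij
        have h1 : big N (N * N + i.1) = big N (N * N + j.1) := congrArg Subtype.val hij
        have h2 := big_inj N _ _ h1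
        apply Fin.ext
        omega
      have := Nat.card_le_card_of_injective F hF
      simpa using this
    · exact (Nat.cast_card).symm
  · intro t
    have hfin : Finite {ε : ℕ → Bool // ∑' n, (if ε n = true then x n else 0) = t} :=
      (fiber_finite t).to_subtype
    have hlt : Cardinal.mk {ε : ℕ → Bool // ∑' n, (if ε n = true then x n else 0) = t}
        < Cardinal.aleph0 := Cardinal.lt_aleph0_iff_finite.mpr hfin
    exact ⟨ne_of_lt hlt, ne_of_lt (hlt.trans Cardinal.aleph0_lt_continuum)⟩

end Pool.Agent.S04889
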