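import Pool.Statements.S05087
import Pool.Agent.Work.MP_76c0db_an.Final

set_option autoImplicit false
open Pool Pool.MP_76c0db_an

namespace Pool.Agent.S05087

open Pool.Agent.Work.MP76c0db

/-- For every C^2 orientation-preserving circle diffeomorphism with irrational rotation number τ, and every ε>0, some C^2 conjugate H∘F∘H⁻¹ is within ε of the rotation x↦x+τ in C^2 norm. -/
theorem result :
    ∀ F : CircleDeg1Lift, ContDiff ℝ 2 (F : ℝ → ℝ) →
      (∀ x : ℝ, 0 < deriv (F : ℝ → ℝ) x) →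
      Irrational (CircleDeg1Lift.translationNumber F) →
      ∀ ε : ℝ, 0 < ε →
        ∃ H : CircleDeg1Lift, ∃ Hinv : ℝ → ℝ,
          ContDiff ℝ 2 (H : ℝ → ℝ) ∧
          (∀ x : ℝ, 0 < deriv (H : ℝ → ℝ) x) ∧
          Function.LeftInverse Hinv H ∧
          Function.RightInverse Hinv H ∧
          ∀ x : ℝ,
            |H (F (Hinv x)) - x - CircleDeg1Lift.translationNumber F| < ε ∧
            |deriv (fun y : ℝ => H (F (Hinv y))) x - 1| < ε ∧
            |deriv (deriv (fun y : ℝ => H (F (Hinv y)))) x| < ε := by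
  intro F hcd hpos hirr ε hε
  have H0 : Hyp F := ⟨hcd, hpos, hirr⟩
  obtain ⟨K, M, St⟩ := H0.exists_setup
  have hM := St.M_pos
  have hε1 : 0 < ε / (16 * (1 + M) ^ 4) := by positivity
  obtain ⟨N, hN⟩ := St.uniform H0.nonl_CP H0.integral_nonl hε1
  obtain ⟨N2, hN2⟩ := exists_nat_gt ((1 + M) ^ 2 / ε)
  obtain ⟨q, q', p, p', hq, hcr⟩ := exists_CR hirr (max N N2)
  have hqN : N ≤ q := by have := le_max_left N N2; omega
  have hqN2 : N2 ≤ q := by have := le_max_right N N2; omega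
  have hq0 := hcr.q_pos
  have hqR : (0:ℝ) < q := by exact_mod_cast hq0
  have hn : 0 < 2 * q := by omega
  have hηε : (1 + M) ^ 2 / q < ε := by
    have h1 : (1 + M) ^ 2 / ε < q := lt_of_lt_of_le hN2 (by exact_mod_cast hqN2)
    rw [div_lt_iff₀ hε] at h1
    rw [div_lt_iff₀ hqR]
    linarith
  have est := St.estimates hq0 (St.good hcr) hε1.le
    (fun i hi x => hN (2 * (2 * q)) (by omega) i hi x)
  -- the conjugacy
  have hd : ∀ x, HasDerivAt (conj F (2 * q) hn : ℝ → ℝ) (B F (2 * q) x) x :=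
    H0.hasDerivAt_conj hn
  have hBpos : ∀ x, 0 < B F (2 * q) x := H0.B_pos hn
  have hdpos : ∀ x, 0 < deriv (conj F (2 * q) hn : ℝ → ℝ) x := fun x => by
    rw [(hd x).deriv]; exact hBpos x
  have hHc : Continuous (conj F (2 * q) hn : ℝ → ℝ) := (H0.conj_cd hn).continuous
  have hbij : Function.Bijective (conj F (2 * q) hn : ℝ → ℝ) :=
    ⟨(strictMono_of_deriv_pos hdpos).injective,
      (CircleDeg1Lift.continuous_iff_surjective _).1 hHc⟩
  obtain ⟨u, hu⟩ := CircleDeg1Lift.isUnit_iff_bijective.2 hbij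
  have hli : Function.LeftInverse ((u⁻¹ : CircleDeg1Liftˣ) : CircleDeg1Lift)
      (conj F (2 * q) hn) := by
    intro x; rw [← hu]; exact CircleDeg1Lift.units_inv_apply_apply u x
  have hri : Function.RightInverse ((u⁻¹ : CircleDeg1Liftˣ) : CircleDeg1Lift)
      (conj F (2 * q) hn) := by
    intro x; rw [← hu]; exact CircleDeg1Lift.units_apply_inv_apply u x
  set Hinv : ℝ → ℝ := ⇑((u⁻¹ : CircleDeg1Liftˣ) : CircleDeg1Lift) with hHinv
  have hHinvc : Continuous Hinv := by
    rw [hHinv]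
    exact (CircleDeg1Lift.continuous_iff_surjective _).2 hli.surjective
  have hdinv : ∀ y, HasDerivAt Hinv (B F (2 * q) (Hinv y))⁻¹ y := fun y =>
    HasDerivAt.of_local_left_inverse hHinvc.continuousAt (hd (Hinv y)) (hBpos _).ne'
      (Filter.Eventually.of_forall hri)
  -- the conjugate
  have hdG : ∀ y, HasDerivAt (fun y : ℝ => conj F (2 * q) hn (F (Hinv y)))
      (P F (2 * q) (Hinv y) * (B F (2 * q) (Hinv y))⁻¹) y := fun y =>
    (H0.hasDerivAt_conj_comp hn (Hinv y)).comp y (hdinv y)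
  have hderivG : deriv (fun y : ℝ => conj F (2 * q) hn (F (Hinv y))) =
      fun y => P F (2 * q) (Hinv y) * (B F (2 * q) (Hinv y))⁻¹ := by
    ext y; exact (hdG y).deriv
  have hd2G : ∀ y, HasDerivAt (fun y => P F (2 * q) (Hinv y) * (B F (2 * q) (Hinv y))⁻¹)
      ((P' F (2 * q) (Hinv y) * B F (2 * q) (Hinv y) - P F (2 * q) (Hinv y) *
        B' F (2 * q) (Hinv y)) / B F (2 * q) (Hinv y) ^ 3) y := by
    intro y
    have h1 : HasDerivAt (fun y => P F (2 * q) (Hinv y))
        (P' F (2 * q) (Hinv y) * (B F (2 * q) (Hinv y))⁻¹) y :=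
      (H0.hasDerivAt_P (2 * q) (Hinv y)).comp y (hdinv y)
    have h2 : HasDerivAt (fun y => B F (2 * q) (Hinv y))
        (B' F (2 * q) (Hinv y) * (B F (2 * q) (Hinv y))⁻¹) y :=
      (H0.hasDerivAt_B (2 * q) (Hinv y)).comp y (hdinv y)
    have h3 := h1.fun_mul (h2.fun_inv (hBpos _).ne')
    refine h3.congr_deriv ?_
    have := (hBpos (Hinv y)).ne'
    field_simp
    ring
  have hG1 : ∀ y, |P F (2 * q) (Hinv y) * (B F (2 * q) (Hinv y))⁻¹ - 1| ≤ (1 + M) ^ 2 / q := by
    intro y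
    have h1 := (est (Hinv y)).1
    have h2 := hBpos (Hinv y)
    have h3 : P F (2 * q) (Hinv y) * (B F (2 * q) (Hinv y))⁻¹ - 1 =
        (P F (2 * q) (Hinv y) - B F (2 * q) (Hinv y)) / B F (2 * q) (Hinv y) := by
      field_simp
    rw [h3, abs_div, abs_of_pos h2, div_le_iff₀ h2]
    exact h1
  refine ⟨conj F (2 * q) hn, Hinv, H0.conj_cd hn, hdpos, hli, hri, fun x => ⟨?_, ?_, ?_⟩⟩
  · -- the `C^0` estimate
    set G : CircleDeg1Lift := (u : CircleDeg1Lift) * F * ((u⁻¹ : CircleDeg1Liftˣ) : CircleDeg1Lift)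
      with hG
    have hGapp : ∀ y, G y = conj F (2 * q) hn (F (Hinv y)) := by
      intro y
      rw [hG, hu]; rfl
    have hGfun : (G : ℝ → ℝ) = fun y => conj F (2 * q) hn (F (Hinv y)) := funext hGapp
    have hGc : Continuous (G : ℝ → ℝ) := by
      rw [hGfun]; exact hHc.comp (hcd.continuous.comp hHinvc)
    obtain ⟨y0, hy0⟩ := G.exists_eq_add_translationNumber hGc
    have hτ : G.translationNumber = F.translationNumber :=
      CircleDeg1Lift.translationNumber_conj_eq u F
    rw [hτ] at hy0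
    rw [← hGapp]
    set k : ℤ := ⌊x - y0⌋ with hk
    have hk1 := Int.floor_le (x - y0)
    have hk2 := Int.lt_floor_add_one (x - y0)
    rw [← hk] at hk1 hk2
    have hy1 : G (y0 + k) = y0 + k + F.translationNumber := by
      rw [CircleDeg1Lift.map_add_int, hy0]; ring
    have hmv := Convex.norm_image_sub_le_of_norm_hasDerivWithin_le (𝕜 := ℝ) (s := Set.univ)
      (f := fun y => G y - y) (f' := fun y => P F (2 * q) (Hinv y) * (B F (2 * q) (Hinv y))⁻¹ - 1)
      (C := (1 + M) ^ 2 / q) (x := y0 + k) (y := x)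
      (fun z _ => by
        have h1 : HasDerivAt (G : ℝ → ℝ)
            (P F (2 * q) (Hinv z) * (B F (2 * q) (Hinv z))⁻¹) z := by
          rw [hGfun]; exact hdG z
        exact (h1.sub (hasDerivAt_id z)).hasDerivWithinAt)
      (fun z _ => by rw [Real.norm_eq_abs]; exact hG1 z) convex_univ
      (Set.mem_univ _) (Set.mem_univ _)
    simp only [Real.norm_eq_abs] at hmv
    have h4 : G x - x - (G (y0 + k) - (y0 + k)) = G x - x - F.translationNumber := by
      rw [hy1]; ring
    rw [h4] at hmv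
    refine lt_of_le_of_lt hmv (lt_of_le_of_lt ?_ hηε)
    have h5 : |x - (y0 + k)| ≤ 1 := by
      rw [abs_le]; constructor <;> linarith
    have h6 : (0:ℝ) ≤ (1 + M) ^ 2 / q := by positivity
    nlinarith
  · rw [hderivG]
    exact lt_of_le_of_lt (hG1 x) hηε
  · rw [hderivG, (hd2G x).deriv]
    have h2 := hBpos (Hinv x)
    have h3 : 0 < B F (2 * q) (Hinv x) ^ 3 := by positivity
    rw [abs_div, abs_of_pos h3, div_lt_iff₀ h3]
    refine lt_of_le_of_lt (est (Hinv x)).2 ?_
    apply mul_lt_mul_of_pos_right _ h3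
    have h4 : 8 * (ε / (16 * (1 + M) ^ 4)) * (1 + M) ^ 4 = ε / 2 := by
      field_simp; ring
    rw [h4]
    linarith

end Pool.Agent.S05087
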