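import Pool.Statements.S05214
import Pool.Agent.Work.MP_80a07b_an.Main

set_option autoImplicit false
open Pool Pool.MP_80a07b_an

namespace Pool.Agent.S05214

/-- The negation of the preceding statement: There is a reflexive real Banach space X and an infinite, norm-bounded group of invertible operators on X, each equal to identity plus a finite-rank operator, which is discrete in the topology of pointwise convergence. -/
theorem result :
    ¬ (∃ (X : Type) (_ : NormedAddCommGroup X) (_ : NormedSpace ℝ X), CompleteSpace X ∧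
      (∀ φ : (X →L[ℝ] ℝ) →L[ℝ] ℝ, ∃ x : X, ∀ f : X →L[ℝ] ℝ, φ f = f x) ∧
      ∃ G : Subgroup (X →L[ℝ] X)ˣ, (G : Set (X →L[ℝ] X)ˣ).Infinite ∧
        (∃ C : ℝ, ∀ g ∈ G, ‖g.val‖ ≤ C) ∧
        (∀ g ∈ G, ∃ s : Finset X, ∀ x : X, g.val x - x ∈ Submodule.span ℝ (s : Set X)) ∧
        (∀ g ∈ G, ∃ s : Finset X, ∃ ε : ℝ, 0 < ε ∧ ∀ h ∈ G,
          (∀ x ∈ s, ‖h.val x - g.val x‖ < ε) → h = g)) := by
  rintro ⟨X, _, _, _, hrefl, G, hinf, ⟨C, hC⟩, hfin, hdisc⟩
  have hsurj : Function.Surjective (NormedSpace.inclusionInDoubleDual ℝ X) := by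
    intro φ
    obtain ⟨x, hx⟩ := hrefl φ
    exact ⟨x, ContinuousLinearMap.ext fun f => (hx f).symm⟩
  have hcpt : ∀ g ∈ G, IsCompactOperator ⇑((g : X →L[ℝ] X) - 1) := by
    intro g hg
    obtain ⟨s, hs⟩ := hfin g hg
    have : FiniteDimensional ℝ (Submodule.span ℝ (s : Set X)) :=
      FiniteDimensional.span_finset ℝ s
    exact Pool.Agent.Work.MP_80a07b_an.isCompactOperator_of_range_subset _
      (Submodule.span ℝ (s : Set X)) (fun x => hs x)
  obtain ⟨s, ε, hε, hs⟩ := hdisc 1 G.one_mem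
  have hG : Finite G := Pool.Agent.Work.MP_80a07b_an.finite_of_compact_perturbation hsurj G C hC
    hcpt s ε hε (fun h hh hx => hs h hh (fun x hxs => hx x hxs))
  exact hinf (Set.toFinite _)

end Pool.Agent.S05214
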