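import Pool.Statements.S05498

set_option autoImplicit false
open Classical
open Pool Pool.MP_987215_an

namespace Pool.Agent.S05498

/-- the two nodes `(4 ± 3 i) / 5` -/
noncomputable def nd : Fin 2 → ℂ := ![⟨4 / 5, 3 / 5⟩, ⟨4 / 5, -3 / 5⟩]

lemma nd0 : nd 0 = ⟨4 / 5, 3 / 5⟩ := rfl
lemma nd1 : nd 1 = ⟨4 / 5, -3 / 5⟩ := rfl

lemma nd_ne : nd 0 ≠ nd 1 := by
  rw [nd0, nd1]
  intro h
  have := congrArg Complex.im h
  norm_num at this

lemma nd_norm (j : Fin 2) : ‖nd j‖ ≤ 1 := by
  fin_cases j
  · change ‖nd 0‖ ≤ 1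
    rw [nd0, Complex.norm_def, Complex.normSq_mk]
    norm_num
  · change ‖nd 1‖ ≤ 1
    rw [nd1, Complex.norm_def, Complex.normSq_mk]
    norm_num

lemma nd_conj0 : starRingEnd ℂ (nd 0) = nd 1 := by
  rw [nd0, nd1]
  apply Complex.ext
  · simp
  · simp; norm_num

lemma nd_conj1 : starRingEnd ℂ (nd 1) = nd 0 := by
  rw [← nd_conj0]; simp

lemma card_conj (w : ℂ) :
    (Finset.univ.filter (fun j => nd j = w)).card =
      (Finset.univ.filter (fun j => nd j = starRingEnd ℂ w)).card := by
  by_cases h0 : nd 0 = w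
  · have h1 : ¬ nd 1 = w := fun h => nd_ne (h0.trans h.symm)
    have h2 : nd 1 = starRingEnd ℂ w := by rw [← h0, nd_conj0]
    have h3 : ¬ nd 0 = starRingEnd ℂ w := fun h => nd_ne (h.trans h2.symm)
    rw [Finset.card_filter, Finset.card_filter, Fin.sum_univ_two, Fin.sum_univ_two,
      if_pos h0, if_neg h1, if_neg h3, if_pos h2]
  · by_cases h1 : nd 1 = w
    · have h2 : nd 0 = starRingEnd ℂ w := by rw [← h1, nd_conj1]
      have h3 : ¬ nd 1 = starRingEnd ℂ w := fun h => nd_ne (h2.trans h.symm)
      rw [Finset.card_filter, Finset.card_filter, Fin.sum_univ_two, Fin.sum_univ_two,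
        if_neg h0, if_pos h1, if_pos h2, if_neg h3]
    · have h2 : ¬ nd 0 = starRingEnd ℂ w := by
        intro h
        apply h1
        have := congrArg (starRingEnd ℂ) h
        rw [nd_conj0, Complex.conj_conj] at this
        exact this
      have h3 : ¬ nd 1 = starRingEnd ℂ w := by
        intro h
        apply h0
        have := congrArg (starRingEnd ℂ) h
        rw [nd_conj1, Complex.conj_conj] at this
        exact this
      rw [Finset.card_filter, Finset.card_filter, Fin.sum_univ_two, Fin.sum_univ_two]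
      simp [h0, h1, h2, h3]

lemma card_real (w : ℂ) (hw : w.im = 0) :
    (Finset.univ.filter (fun j => nd j = w)).card = 0 := by
  have h0 : ¬ nd 0 = w := by
    rintro rfl
    rw [nd0] at hw
    norm_num at hw
  have h1 : ¬ nd 1 = w := by
    rintro rfl
    rw [nd1] at hw
    norm_num at hw
  rw [Finset.card_filter, Fin.sum_univ_two]
  simp [h0, h1]

lemma card_one (j : Fin 2) : (Finset.univ.filter (fun l => nd l = nd j)).card = 1 := by
  rw [Finset.card_filter, Fin.sum_univ_two]
  fin_cases j
  · change (if nd 0 = nd 0 then 1 else 0) + (if nd 1 = nd 0 then 1 else 0) = 1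
    simp [nd_ne.symm]
  · change (if nd 0 = nd 1 then 1 else 0) + (if nd 1 = nd 1 then 1 else 0) = 1
    simp [nd_ne]

/-- The negation of the preceding statement: For n≥1, k≤n-1 and self-conjugate nodes in the closed unit disc, the least upper bound of the k-th derivative Hermite interpolation error at 1, over entire g with n-th derivative bounded by 1 on the disc, equals the k-th derivative of the nodal polynomial at 1 in modulus, divided by n!. -/
theorem result :
    ¬ (∀ (n : ℕ), 1 ≤ n → ∀ k : ℕ, k ≤ n - 1 → ∀ z : Fin n → ℂ, (∀ j, ‖z j‖ ≤ 1) →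
    (∀ w : ℂ, w.im ≠ 0 →
      (Finset.univ.filter (fun j => z j = w)).card =
        (Finset.univ.filter (fun j => z j = starRingEnd ℂ w)).card) →
    (∀ w : ℂ, w.im = 0 → Even (Finset.univ.filter (fun j => z j = w)).card) →
    IsLUB {e : ℝ | ∃ g : ℂ → ℂ, ∃ p : Polynomial ℂ,
        Differentiable ℂ g ∧
        (∀ w : ℂ, ‖w‖ ≤ 1 → ‖iteratedDeriv n g w‖ ≤ 1) ∧
        p.degree < (n : WithBot ℕ) ∧
        (∀ j : Fin n, ∀ i : ℕ, i < (Finset.univ.filter (fun l => z l = z j)).card →
          iteratedDeriv i (fun x => p.eval x) (z j) = iteratedDeriv i g (z j)) ∧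
        e = ‖iteratedDeriv k g 1 - iteratedDeriv k (fun x => p.eval x) 1‖}
      (‖iteratedDeriv k (fun x => (∏ j : Fin n, (Polynomial.X - Polynomial.C (z j))).eval x) 1‖
        / (n.factorial : ℝ))) := by
  intro H
  have h := H 2 (by norm_num) 1 (by norm_num) nd nd_norm (fun w _ => card_conj w)
    (fun w hw => by rw [card_real w hw]; exact Even.zero)
  have hub := h.1
  -- the test function
  have hg1 : deriv (fun x : ℂ => x ^ 3 / 6) = fun x : ℂ => x ^ 2 / 2 := by
    funext x
    have : HasDerivAt (fun x : ℂ => x ^ 3 / 6) (3 * x ^ 2 / 6) x := by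
      have := (hasDerivAt_pow 3 x).div_const 6
      simpa using this
    rw [this.deriv]
    ring
  have hg2 : deriv (fun x : ℂ => x ^ 2 / 2) = fun x : ℂ => x := by
    funext x
    have : HasDerivAt (fun x : ℂ => x ^ 2 / 2) (2 * x / 2) x := by
      have := (hasDerivAt_pow 2 x).div_const 2
      simpa using this
    rw [this.deriv]
    ring
  have hmem : (6 / 25 : ℝ) ∈ {e : ℝ | ∃ g : ℂ → ℂ, ∃ p : Polynomial ℂ,
        Differentiable ℂ g ∧
        (∀ w : ℂ, ‖w‖ ≤ 1 → ‖iteratedDeriv 2 g w‖ ≤ 1) ∧
        p.degree < ((2 : ℕ) : WithBot ℕ) ∧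
        (∀ j : Fin 2, ∀ i : ℕ, i < (Finset.univ.filter (fun l => nd l = nd j)).card →
          iteratedDeriv i (fun x => p.eval x) (nd j) = iteratedDeriv i g (nd j)) ∧
        e = ‖iteratedDeriv 1 g 1 - iteratedDeriv 1 (fun x => p.eval x) 1‖} := by
    refine ⟨fun x => x ^ 3 / 6, Polynomial.C (13 / 50) * Polynomial.X + Polynomial.C (-(4 / 15)),
      by fun_prop, ?_, ?_, ?_, ?_⟩
    · intro w hw
      rw [iteratedDeriv_succ, iteratedDeriv_one, hg1, hg2]
      exact hw
    · exact lt_of_le_of_lt Polynomial.degree_linear_le (by norm_num)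
    · intro j i hi
      rw [card_one j] at hi
      have hi0 : i = 0 := by omega
      subst hi0
      rw [iteratedDeriv_zero, iteratedDeriv_zero]
      simp only [Polynomial.eval_add, Polynomial.eval_mul, Polynomial.eval_C, Polynomial.eval_X]
      fin_cases j
      · change (13 / 50 : ℂ) * nd 0 + -(4 / 15) = nd 0 ^ 3 / 6
        rw [nd0]
        have e : (⟨4 / 5, 3 / 5⟩ : ℂ) = (4 + 3 * Complex.I) / 5 := by
          apply Complex.ext <;> simp
        rw [e]
        have hI := Complex.I_sq
        linear_combination (-(1 / 750) * (108 + 27 * Complex.I)) * hI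
      · change (13 / 50 : ℂ) * nd 1 + -(4 / 15) = nd 1 ^ 3 / 6
        rw [nd1]
        have e : (⟨4 / 5, -3 / 5⟩ : ℂ) = (4 - 3 * Complex.I) / 5 := by
          apply Complex.ext <;> simp
        rw [e]
        have hI := Complex.I_sq
        linear_combination (-(1 / 750) * (108 - 27 * Complex.I)) * hI
    · rw [iteratedDeriv_one, iteratedDeriv_one, hg1]
      have hp : deriv (fun x : ℂ => (Polynomial.C (13 / 50 : ℂ) * Polynomial.X +
          Polynomial.C (-(4 / 15) : ℂ)).eval x) 1 = 13 / 50 := by
        rw [Polynomial.deriv]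
        simp
      rw [hp]
      have : ((1 : ℂ) ^ 2 / 2 - 13 / 50) = ((6 / 25 : ℝ) : ℂ) := by push_cast; norm_num
      rw [this, Complex.norm_real]
      norm_num
  have hle := hub hmem
  have hrhs : ‖iteratedDeriv 1 (fun x => (∏ j : Fin 2,
      (Polynomial.X - Polynomial.C (nd j))).eval x) 1‖ / ((Nat.factorial 2 : ℕ) : ℝ) = 1 / 5 := by
    rw [iteratedDeriv_one, Polynomial.deriv, Fin.prod_univ_two]
    have e : (Polynomial.eval 1 (Polynomial.derivative ((Polynomial.X - Polynomial.C (nd 0)) *
        (Polynomial.X - Polynomial.C (nd 1))))) = ((2 / 5 : ℝ) : ℂ) := by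
      simp only [Polynomial.derivative_mul, Polynomial.derivative_sub, Polynomial.derivative_X,
        Polynomial.derivative_C, Polynomial.eval_add, Polynomial.eval_mul, Polynomial.eval_sub,
        Polynomial.eval_X, Polynomial.eval_C, Polynomial.eval_one, Polynomial.eval_zero]
      rw [nd0, nd1]
      apply Complex.ext
      · simp; norm_num
      · simp; norm_num
    rw [e, Complex.norm_real]
    norm_num [Nat.factorial]
  rw [hrhs] at hle
  norm_num at hle

end Pool.Agent.S05498
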