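import Pool.Statements.S05513
import Pool.Agent.Work.MP_997748_an.Main

set_option autoImplicit false
open scoped BoundedContinuousFunction
open Pool Pool.MP_997748_an

namespace Pool.Agent.S05513

/-- There exist bounded linear maps T from C([0,ω^ω]) into C(βN×βN) and P back with P∘T the identity, i.e. C(ω^ω) is isomorphic to a complemented subspace of C(βN×βN). -/
theorem result :
    ∃ (T : (↥(Set.Iic (Ordinal.omega0.{0} ^ Ordinal.omega0.{0})) →ᵇ ℝ) →L[ℝ]
            (StoneCech ℕ × StoneCech ℕ →ᵇ ℝ))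
      (P : (StoneCech ℕ × StoneCech ℕ →ᵇ ℝ) →L[ℝ]
            (↥(Set.Iic (Ordinal.omega0.{0} ^ Ordinal.omega0.{0})) →ᵇ ℝ)),
      P.comp T = ContinuousLinearMap.id ℝ _ := by
  exact Pool.Agent.Work.MP_997748_an.main

end Pool.Agent.S05513
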