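-- Proof of frozen statement S05720 (the answer to the question is negative).
-- Idea. Take T = Q x (finite subsets of N), Z(q,E) = exp(iq), and adjoin to the ring generated by Z and a dense
-- sequence of constants, one after the other, square roots of all its elements, the j-th root carrying the
-- sign (-1)^[j in E] (a form of Cole's root extension).  Averaging over the signs shows that Z is not
-- invertible in the uniform closure.  Reading the functions along a sequence k : N -> T which meets each
-- index infinitely often gives a root-closed ring S of bounded sequences (file Roots).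
-- With h_n(z) = (1-z)/(2 - i y_n (1-z)), y_n = 4*2^((n+1)^2), the bumps h_n^(s/(n+1)) are almost
-- real, almost disjoint near z = 1 and asymptotically equal to 1 at suitable points z_n (file Bumps).  X is
-- the closed algebra generated by the disc algebra and all sums  sum_n r(n) h_n^(s/(n+1)), r in S, s > 0.
-- Characters of X not over 1 are evaluations on the closed disc minus 1; those over 1 form a cone over the
-- characters of the closure of S, and any two of them are at distance 2 because of the square roots (files
-- Chars, Fiber, Disc, Main).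
import Pool.Statements.S05720
import Pool.Agent.Work.MP_a7579f_an.Main

set_option autoImplicit false
open Pool Pool.MP_a7579f_an

namespace Pool.Agent.S05720

/-- The negation of the preceding statement: For every closed subalgebra X of H^∞ containing the disk algebra whose maximal ideal space does not have the disk dense, some nontrivial Gleason part of M(X) contains a character not obtained by restricting a character of H^∞. -/
theorem result :
    ¬ (∀ (H X : Subalgebra ℂ (BoundedContinuousFunction (Metric.ball (0:ℂ) 1) ℂ)),
      (∀ f, f ∈ H ↔ ∃ F : ℂ → ℂ, DifferentiableOn ℂ F (Metric.ball 0 1) ∧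
          ∀ z : Metric.ball (0:ℂ) 1, F z = f z) →
      X ≤ H →
      IsClosed (X : Set (BoundedContinuousFunction (Metric.ball (0:ℂ) 1) ℂ)) →
      (∀ F : ℂ → ℂ, ContinuousOn F (Metric.closedBall 0 1) →
          DifferentiableOn ℂ F (Metric.ball 0 1) →
          ∃ f ∈ X, ∀ z : Metric.ball (0:ℂ) 1, f z = F z) →
      ¬ Dense {φ : WeakDual.characterSpace ℂ X |
          ∃ z : Metric.ball (0:ℂ) 1, ∀ f : X, φ f = f.1 z} →
      ∃ χ ψ : WeakDual.characterSpace ℂ X, χ ≠ ψ ∧
        (∃ c : ℝ, c < 2 ∧ ∀ f : X, ‖f‖ ≤ 1 → ‖χ f - ψ f‖ ≤ c) ∧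
        ¬ ∃ ρ : WeakDual.characterSpace ℂ H,
            ∀ f (hX : f ∈ X) (hH : f ∈ H), ρ ⟨f, hH⟩ = χ ⟨f, hX⟩) := by
  intro hall
  obtain ⟨X, hXH, hXc, hXA, hXd, hpart⟩ := Pool.Agent.Work.MP_a7579f_an.exists_counterexample
  obtain ⟨χ, ψ, hne, hc, hρ⟩ := hall Pool.Agent.Work.MP_a7579f_an.Hinf X
    Pool.Agent.Work.MP_a7579f_an.mem_Hinf hXH hXc hXA hXd
  apply hρ
  obtain ⟨z, hz⟩ := hpart χ ψ hne hc
  obtain ⟨ρ, hρ'⟩ := Pool.Agent.Work.MP_a7579f_an.exists_eval_char
    Pool.Agent.Work.MP_a7579f_an.Hinf z
  exact ⟨ρ, fun f hX hH => (hρ' ⟨f, hH⟩).trans (hz ⟨f, hX⟩).symm⟩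

end Pool.Agent.S05720
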