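import Pool.Statements.S06172

set_option autoImplicit false
open Pool Pool.MP_cc91a5_an

namespace Pool.Agent.S06172

/-- the one-sided full shift space on three symbols -/
abbrev Xs := ℕ → Fin 3

/-- left shift -/
def sh (x : Xs) : Xs := fun n => x (n+1)

/-- `out n q x`: number of transitions from `1` to `2` (ignoring the symbol `0`) seen while
reading the first `n` symbols of `x`, the last nonzero symbol read before being `q`. -/
def out : ℕ → Fin 3 → Xs → ℝ
| 0, _, _ => 0
| (n+1), q, x => (if q = 1 ∧ x 0 = 2 then 1 else 0) + out n (if x 0 = 0 then q else x 0) (sh x)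

/-- the last nonzero symbol after reading `n` symbols -/
def st : ℕ → Fin 3 → Xs → Fin 3
| 0, q, _ => q
| (n+1), q, x => st n (if x 0 = 0 then q else x 0) (sh x)

theorem out_add (n m : ℕ) : ∀ (q : Fin 3) (x : Xs),
    out (n + m) q x = out n q x + out m (st n q x) (sh^[n] x) := by
  induction n with
  | zero => intro q x; simp [out, st]
  | succ n ih =>
    intro q x
    have : n + 1 + m = (n + m) + 1 := by ring
    rw [this]
    simp only [out, st, Function.iterate_succ, Function.comp]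
    rw [ih]
    ring

theorem out_diff (m : ℕ) : ∀ (q q' : Fin 3) (x : Xs),
    |out m q x - out m q' x| ≤ 1 := by
  induction m with
  | zero => intro q q' x; simp [out]
  | succ m ih =>
    intro q q' x
    by_cases h0 : x 0 = 0
    · have h2 : ¬ (x 0 = 2) := by rw [h0]; decide
      simp only [out, h0, if_true]
      simpa [h2] using ih q q' (sh x)
    · simp only [out, h0, if_false]
      split_ifs <;> norm_num

theorem out_congr (n : ℕ) : ∀ (q : Fin 3) (x y : Xs), (∀ k, k < n → x k = y k) →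
    out n q x = out n q y := by
  induction n with
  | zero => intro q x y _; simp [out]
  | succ n ih =>
    intro q x y h
    have h0 : x 0 = y 0 := h 0 (Nat.succ_pos n)
    simp only [out, h0]
    rw [ih _ (sh x) (sh y) (fun k hk => h (k+1) (by omega))]

theorem continuous_sh : Continuous sh :=
  continuous_pi fun n => continuous_apply (n+1)

theorem continuous_out (n : ℕ) : Continuous (fun p : Fin 3 × Xs => out n p.1 p.2) := by
  induction n with
  | zero => simp only [out]; exact continuous_const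
  | succ n ih =>
    simp only [out]
    have h1 : Continuous (fun p : Fin 3 × Xs => ((p.1, p.2 0) : Fin 3 × Fin 3)) :=
      continuous_fst.prodMk ((continuous_apply 0).comp continuous_snd)
    have h2 : Continuous (fun r : Fin 3 × Fin 3 => (if r.1 = 1 ∧ r.2 = 2 then (1:ℝ) else 0)) :=
      continuous_of_discreteTopology
    have h3 : Continuous (fun r : Fin 3 × Fin 3 => (if r.2 = 0 then r.1 else r.2)) :=
      continuous_of_discreteTopology
    refine (h2.comp h1).add ?_
    exact ih.comp ((h3.comp h1).prodMk (continuous_sh.comp continuous_snd))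

/-- the point `s 0^k t` -/
def blk (s : Fin 3) (k : ℕ) (t : Xs) : Xs :=
  fun i => if i = 0 then s else if i ≤ k then 0 else t (i - (k+1))

/-- the point `s 0^∞` -/
def z (s : Fin 3) : Xs := fun i => if i = 0 then s else 0

theorem sh_iter_apply (n : ℕ) : ∀ (x : Xs) (i : ℕ), (sh^[n] x) i = x (i + n) := by
  induction n with
  | zero => intro x i; rfl
  | succ n ih =>
    intro x i
    rw [Function.iterate_succ, Function.comp, ih]
    simp only [sh]
    congr 1

theorem sh_iter_blk (s : Fin 3) (k : ℕ) (t : Xs) : sh^[k+1] (blk s k t) = t := by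
  funext i
  rw [sh_iter_apply]
  simp only [blk]
  rw [if_neg (by omega), if_neg (by omega)]
  congr 1
  omega

theorem sh_iter_blk_indep (s s' : Fin 3) (k : ℕ) (t : Xs) (j : ℕ) (hj : 1 ≤ j) :
    sh^[j] (blk s k t) = sh^[j] (blk s' k t) := by
  funext i
  rw [sh_iter_apply, sh_iter_apply]
  have hij : i + j ≠ 0 := by omega
  simp only [blk, hij, if_false]

/-- reading a zero run does nothing -/
theorem out_zeros (k : ℕ) : ∀ (n : ℕ) (q : Fin 3) (x : Xs), (∀ i, i < k → x i = 0) →
    out (k + n) q x = out n q (sh^[k] x) := by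
  induction k with
  | zero => intro n q x _; simp
  | succ k ih =>
    intro n q x h
    have : k + 1 + n = (k + n) + 1 := by ring
    rw [this]
    have h0 : x 0 = 0 := h 0 (Nat.succ_pos k)
    have h2 : ¬ (x 0 = 2) := by rw [h0]; decide
    simp only [out, h0, if_true, Function.iterate_succ, Function.comp]
    rw [ih n q (sh x) (fun i hi => h (i+1) (by omega))]
    simp

theorem out_blk (s : Fin 3) (hs : s ≠ 0) (k : ℕ) (t : Xs) (q : Fin 3) (n : ℕ) :
    out (k + 1 + n) q (blk s k t) = (if q = 1 ∧ s = 2 then 1 else 0) + out n s t := by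
  have e : k + 1 + n = (k + n) + 1 := by ring
  rw [e]
  have hb : blk s k t 0 = s := by simp [blk]
  simp only [out, hb, hs, if_false]
  rw [out_zeros]
  · have : sh^[k] (sh (blk s k t)) = t := by
      have := sh_iter_blk s k t
      rwa [Function.iterate_succ, Function.comp] at this
    rw [this]
  · intro i hi
    simp only [sh, blk]
    rw [if_neg (by omega), if_pos (by omega)]

/-- the block points -/
def pt (s : ℕ → Fin 3) (k : ℕ → ℕ) : ℕ → ℕ → Xs
| 0, i => z (s i)
| (r+1), i => blk (s i) (k i) (pt s k r (i+1))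

/-- lengths -/
def len (k : ℕ → ℕ) : ℕ → ℕ → ℕ
| 0, _ => 0
| (r+1), i => k i + 1 + len k r (i+1)

/-- Birkhoff sums -/
def bs (g : Xs → ℝ) (n : ℕ) (x : Xs) : ℝ := ∑ k ∈ Finset.range n, g (sh^[k] x)

theorem bs_add (g : Xs → ℝ) (n m : ℕ) (x : Xs) :
    bs g (n + m) x = bs g n x + bs g m (sh^[n] x) := by
  simp only [bs]
  rw [Finset.sum_range_add]
  congr 1
  apply Finset.sum_congr rfl
  intro k _
  rw [← Function.iterate_add_apply]
  congr 2
  rw [add_comm]

theorem agree_blk (s s' : Fin 3) (k l : ℕ) (t : Xs) (i : ℕ) (hi : i < k + 1 + (l + 1)) :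
    blk s k (blk s' l t) i = blk s k (z s') i := by
  simp only [blk, z]
  split_ifs <;> first | rfl | omega

theorem modulus (g : Xs → ℝ) (hg : Continuous g) (ε : ℝ) (hε : 0 < ε) :
    ∃ L : ℕ, ∀ x y : Xs, (∀ i, i < L → x i = y i) → |g x - g y| < ε := by
  let _ : MetricSpace Xs := PiNat.metricSpace
  have hu : UniformContinuous g := CompactSpace.uniformContinuous_of_continuous hg
  rw [Metric.uniformContinuous_iff] at hu
  obtain ⟨δ, hδ, h⟩ := hu ε hε
  obtain ⟨L, hL⟩ := exists_pow_lt_of_lt_one hδ (by norm_num : (1/2 : ℝ) < 1)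
  refine ⟨L, fun x y hxy => ?_⟩
  have h1 : y ∈ PiNat.cylinder x L := by
    rw [PiNat.mem_cylinder_iff]
    intro i hi
    exact (hxy i hi).symm
  rw [PiNat.mem_cylinder_iff_dist_le] at h1
  have h2 : dist y x < δ := lt_of_le_of_lt h1 hL
  have h3 := h h2
  rw [Real.dist_eq, abs_sub_comm] at h3
  exact h3

theorem block_approx (g : Xs → ℝ) (hg : Continuous g) (ε : ℝ) (hε : 0 < ε) (k : ℕ) :
    ∃ L : ℕ, ∀ l, L ≤ l → ∀ (s s' : Fin 3) (t : Xs),
      |bs g (k+1) (blk s k (blk s' l t)) - bs g (k+1) (blk s k (z s'))| ≤ ε := by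
  obtain ⟨L, hL⟩ := modulus g hg (ε / (k+1)) (by positivity)
  refine ⟨L, fun l hl s s' t => ?_⟩
  simp only [bs]
  rw [← Finset.sum_sub_distrib]
  refine (Finset.abs_sum_le_sum_abs _ _).trans ?_
  have : ∀ j ∈ Finset.range (k+1),
      |g (sh^[j] (blk s k (blk s' l t))) - g (sh^[j] (blk s k (z s')))| ≤ ε / (k+1) := by
    intro j hj
    apply le_of_lt
    apply hL
    intro i hi
    rw [sh_iter_apply, sh_iter_apply]
    apply agree_blk
    have := Finset.mem_range.mp hj
    omega
  refine (Finset.sum_le_sum this).trans ?_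
  rw [Finset.sum_const, Finset.card_range, nsmul_eq_mul]
  push_cast
  rw [mul_div_cancel₀]
  positivity

theorem q_approx (g : Xs → ℝ) (hg : Continuous g) (ε : ℝ) (hε : 0 < ε) :
    ∃ L : ℕ, ∀ k, L ≤ k →
      |bs g (k+1) (blk 1 k (z 1)) + bs g (k+1) (blk 2 k (z 2))
        - bs g (k+1) (blk 1 k (z 2)) - bs g (k+1) (blk 2 k (z 1))| ≤ ε := by
  obtain ⟨L, hL⟩ := modulus g hg (ε / 2) (by positivity)
  refine ⟨L, fun k hk => ?_⟩
  have key : ∀ s t, bs g (k+1) (blk s k t) =
      (∑ j ∈ Finset.range k, g (sh^[j+1] (blk 1 k t))) + g (blk s k t) := by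
    intro s t
    simp only [bs]
    rw [Finset.sum_range_succ']
    simp only [Function.iterate_zero, id]
    rw [Finset.sum_congr rfl
      (fun j _ => by rw [sh_iter_blk_indep s 1 k t (j+1) (by omega)])]
  rw [key 1 (z 1), key 2 (z 2), key 1 (z 2), key 2 (z 1)]
  have h1 : |g (blk 1 k (z 1)) - g (blk 1 k (z 2))| < ε / 2 := by
    apply hL
    intro i hi
    simp only [blk]
    split_ifs <;> first | rfl | omega
  have h2 : |g (blk 2 k (z 2)) - g (blk 2 k (z 1))| < ε / 2 := by
    apply hL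
    intro i hi
    simp only [blk]
    split_ifs <;> first | rfl | omega
  rw [abs_lt] at h1 h2
  rw [abs_le]
  constructor <;> linarith [h1.1, h1.2, h2.1, h2.2]

/-- Birkhoff sum minus transition count along a block point -/
def V (g : Xs → ℝ) (k : ℕ → ℕ) (q : Fin 3) (s : ℕ → Fin 3) (r i : ℕ) : ℝ :=
  bs g (len k r i) (pt s k r i) - out (len k r i) q (pt s k r i)

theorem V_succ (g : Xs → ℝ) (k : ℕ → ℕ) (q : Fin 3) (s : ℕ → Fin 3) (hs : ∀ i, s i ≠ 0)
    (r i : ℕ) :
    V g k q s (r+1) i = bs g (k i + 1) (pt s k (r+1) i) + V g k (s i) s r (i+1)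
      - (if q = 1 ∧ s i = 2 then 1 else 0) := by
  simp only [V, len]
  rw [bs_add]
  have h1 : sh^[k i + 1] (pt s k (r+1) i) = pt s k r (i+1) := by
    simp only [pt]; rw [sh_iter_blk]
  rw [h1]
  have h2 : out (k i + 1 + len k r (i+1)) q (pt s k (r+1) i) =
      (if q = 1 ∧ s i = 2 then 1 else 0) + out (len k r (i+1)) (s i) (pt s k r (i+1)) := by
    simp only [pt]; rw [out_blk _ (hs i)]
  rw [h2]
  ring

theorem block_pt (g : Xs → ℝ) (k : ℕ → ℕ) (ε : ℝ) (hε : 0 < ε)
    (hk : ∀ i, ∀ (s s' : Fin 3) (t : Xs),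
      |bs g (k i+1) (blk s (k i) (blk s' (k (i+1)) t)) - bs g (k i+1) (blk s (k i) (z s'))| ≤ ε)
    (s : ℕ → Fin 3) (r i : ℕ) :
    |bs g (k i + 1) (pt s k (r+1) i) - bs g (k i+1) (blk (s i) (k i) (z (s (i+1))))| ≤ ε := by
  cases r with
  | zero => simp only [pt, sub_self, abs_zero]; exact hε.le
  | succ r => simp only [pt]; exact hk i _ _ _

/-- alternating sequences -/
def c0 (i : ℕ) : Fin 3 := if i % 2 = 0 then 1 else 2

/-- alternating sequences -/
def c1 (i : ℕ) : Fin 3 := if i % 2 = 0 then 2 else 1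

theorem c_succ (i : ℕ) : (c0 i = 1 ∧ c1 i = 2 ∧ c0 (i+1) = 2 ∧ c1 (i+1) = 1) ∨
    (c0 i = 2 ∧ c1 i = 1 ∧ c0 (i+1) = 1 ∧ c1 (i+1) = 2) := by
  rcases Nat.mod_two_eq_zero_or_one i with h | h
  · left
    have h' : (i + 1) % 2 = 1 := by omega
    simp [c0, c1, h, h']
  · right
    have h' : (i + 1) % 2 = 0 := by omega
    simp [c0, c1, h, h']

theorem A_lower (g : Xs → ℝ) (k : ℕ → ℕ)
    (hk : ∀ i, ∀ (s s' : Fin 3) (t : Xs),
      |bs g (k i+1) (blk s (k i) (blk s' (k (i+1)) t)) - bs g (k i+1) (blk s (k i) (z s'))|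
        ≤ 1/10)
    (hq : ∀ i, |bs g (k i+1) (blk 1 (k i) (z 1)) + bs g (k i+1) (blk 2 (k i) (z 2))
        - bs g (k i+1) (blk 1 (k i) (z 2)) - bs g (k i+1) (blk 2 (k i) (z 1))| ≤ 1/10)
    (r : ℕ) : ∀ i : ℕ,
    (r : ℝ) / 2 ≤ V g k 1 (fun _ => 1) r i + V g k 2 (fun _ => 2) r i
      - V g k (c1 i) c0 r i - V g k (c0 i) c1 r i := by
  induction r with
  | zero =>
    intro i
    simp [V, len, bs, out]
  | succ r ih =>
    intro i
    have hc0 : ∀ i, c0 i ≠ 0 := by
      intro i; simp only [c0]; split_ifs <;> decide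
    have hc1 : ∀ i, c1 i ≠ 0 := by
      intro i; simp only [c1]; split_ifs <;> decide
    rw [V_succ g k 1 (fun _ => 1) (fun _ => by decide), V_succ g k 2 (fun _ => 2) (fun _ => by decide),
      V_succ g k (c1 i) c0 hc0, V_succ g k (c0 i) c1 hc1]
    have b1 := block_pt g k (1/10) (by norm_num) hk (fun _ => 1) r i
    have b2 := block_pt g k (1/10) (by norm_num) hk (fun _ => 2) r i
    have b3 := block_pt g k (1/10) (by norm_num) hk c0 r i
    have b4 := block_pt g k (1/10) (by norm_num) hk c1 r i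
    have hq' := hq i
    have ih' := ih (i+1)
    rcases c_succ i with ⟨e1, e2, e3, e4⟩ | ⟨e1, e2, e3, e4⟩
    · rw [e3, e4] at ih'
      rw [e1, e3] at b3
      rw [e2, e4] at b4
      rw [e1, e2]
      have t1 : ¬ ((1 : Fin 3) = 1 ∧ (1 : Fin 3) = 2) := by decide
      have t2 : ¬ ((2 : Fin 3) = 1 ∧ (2 : Fin 3) = 2) := by decide
      have t3 : ¬ ((2 : Fin 3) = 1 ∧ (1 : Fin 3) = 2) := by decide
      have t4 : ((1 : Fin 3) = 1 ∧ (2 : Fin 3) = 2) := by decide
      rw [if_neg t1, if_neg t2, if_neg t3, if_pos t4]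
      rw [abs_le] at b1 b2 b3 b4 hq'
      push_cast
      linarith [b1.1, b1.2, b2.1, b2.2, b3.1, b3.2, b4.1, b4.2, hq'.1, hq'.2]
    · rw [e3, e4] at ih'
      rw [e1, e3] at b3
      rw [e2, e4] at b4
      rw [e1, e2]
      have t1 : ¬ ((1 : Fin 3) = 1 ∧ (1 : Fin 3) = 2) := by decide
      have t2 : ¬ ((2 : Fin 3) = 1 ∧ (2 : Fin 3) = 2) := by decide
      have t3 : ¬ ((2 : Fin 3) = 1 ∧ (1 : Fin 3) = 2) := by decide
      have t4 : ((1 : Fin 3) = 1 ∧ (2 : Fin 3) = 2) := by decide
      rw [if_neg t1, if_neg t2, if_neg t3, if_pos t4]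
      rw [abs_le] at b1 b2 b3 b4 hq'
      push_cast
      linarith [b1.1, b1.2, b2.1, b2.2, b3.1, b3.2, b4.1, b4.2, hq'.1, hq'.2]

theorem no_additive (g : Xs → ℝ) (hg : Continuous g) (B : ℝ)
    (hB : ∀ n : ℕ, 1 ≤ n → ∀ x : Xs, |out n 0 x - bs g n x| ≤ B) : False := by
  obtain ⟨L0, hL0⟩ := q_approx g hg (1/10) (by norm_num)
  choose L hL using block_approx g hg (1/10) (by norm_num)
  let k : ℕ → ℕ := fun i => Nat.rec L0 (fun _ m => max L0 (L m)) i
  have hk0 : ∀ i, L0 ≤ k i := by
    intro i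
    cases i with
    | zero => exact le_refl _
    | succ i => exact le_max_left _ _
  have hk1 : ∀ i, L (k i) ≤ k (i+1) := fun i => le_max_right _ _
  obtain ⟨r, hr⟩ := exists_nat_gt (8 * (B + 1))
  have hlow := A_lower g k (fun i s s' t => hL (k i) (k (i+1)) (hk1 i) s s' t)
    (fun i => hL0 (k i) (hk0 i)) (r+1) 0
  have hV : ∀ (q : Fin 3) (s : ℕ → Fin 3), |V g k q s (r+1) 0| ≤ B + 1 := by
    intro q s
    have h1 := hB (len k (r+1) 0) (by simp only [len]; omega) (pt s k (r+1) 0)
    have h2 := out_diff (len k (r+1) 0) q 0 (pt s k (r+1) 0)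
    simp only [V]
    rw [abs_le] at *
    constructor <;> linarith [h1.1, h1.2, h2.1, h2.2]
  have v1 := hV 1 (fun _ => 1)
  have v2 := hV 2 (fun _ => 2)
  have v3 := hV (c1 0) c0
  have v4 := hV (c0 0) c1
  rw [abs_le] at v1 v2 v3 v4
  push_cast at hlow
  linarith [v1.1, v1.2, v2.1, v2.2, v3.1, v3.2, v4.1, v4.2]

/-- The negation of the preceding statement: For every continuous self-map T of a compact metric space and every almost additive sequence of continuous functions with bounded variations in the Bowen metric, some continuous g has Birkhoff sums uniformly within bounded distance of f_n. -/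
theorem result :
    ¬ (∀ (X : Type) [MetricSpace X] [CompactSpace X] (T : X → X), Continuous T →
      ∀ f : ℕ → X → ℝ, (∀ n, Continuous (f n)) →
        (∃ C : ℝ, ∀ n m : ℕ, 1 ≤ n → 1 ≤ m → ∀ x : X,
            |f (n + m) x - f n x - f m (T^[n] x)| ≤ C) →
        (∃ ε : ℝ, 0 < ε ∧ ∃ K : ℝ, ∀ n : ℕ, 1 ≤ n → ∀ x y : X,
            (∀ k : ℕ, k < n → dist (T^[k] x) (T^[k] y) < ε) →
              |f n x - f n y| ≤ K) →
        ∃ g : X → ℝ, Continuous g ∧ ∃ B : ℝ, ∀ n : ℕ, 1 ≤ n → ∀ x : X,
            |f n x - ∑ k ∈ Finset.range n, g (T^[k] x)| ≤ B) := by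
  intro h
  let _ : MetricSpace Xs := PiNat.metricSpace
  obtain ⟨g, hg, B, hB⟩ := h Xs sh continuous_sh (fun n x => out n 0 x)
    (fun n => (continuous_out n).comp (continuous_const.prodMk continuous_id))
    ⟨1, by
      intro n m _ _ x
      rw [out_add]
      have := out_diff m (st n 0 x) 0 (sh^[n] x)
      rw [show out n 0 x + out m (st n 0 x) (sh^[n] x) - out n 0 x - out m 0 (sh^[n] x)
        = out m (st n 0 x) (sh^[n] x) - out m 0 (sh^[n] x) by ring]
      exact this⟩
    ⟨1, one_pos, 0, by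
      intro n _ x y hxy
      rw [out_congr n 0 x y, sub_self, abs_zero]
      intro k hk
      have h1 := hxy k hk
      by_contra hne
      have h2 : (sh^[k] y) ∉ PiNat.cylinder (sh^[k] x) 1 := by
        rw [PiNat.mem_cylinder_iff]
        intro h3
        have := h3 0 (by norm_num)
        rw [sh_iter_apply, sh_iter_apply, zero_add] at this
        exact hne this.symm
      have h4 : sh^[k] x ≠ sh^[k] y := by
        intro h5
        apply h2
        rw [h5]
        exact PiNat.self_mem_cylinder _ _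
      rw [PiNat.dist_eq_of_ne h4] at h1
      have h6 : PiNat.firstDiff (sh^[k] x) (sh^[k] y) = 0 := by
        by_contra h7
        apply h2
        rw [PiNat.mem_cylinder_iff]
        intro i hi
        exact (PiNat.apply_eq_of_lt_firstDiff (lt_of_lt_of_le hi (Nat.one_le_iff_ne_zero.mpr h7))).symm
      rw [h6, pow_zero] at h1
      exact lt_irrefl _ h1⟩
  exact no_additive g hg B hB

end Pool.Agent.S06172
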