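import Pool.Statements.S07019
import Pool.Agent.Work.MP_07b414_co.NoConf
import Pool.Agent.Work.MP_07b414_co.Limit
import Pool.Agent.Work.MP_07b414_co.Geo7

set_option autoImplicit false
open Pool Pool.MP_07b414_co

namespace Pool.Agent.S07019

/-- For every M there is K such that any k ≥ K great circles in 3-space, no three through a common point, cut the sphere into regions where some region's area is at least M times some other region's area. -/
theorem result :
    ∀ M : ℝ, ∃ K : ℕ, ∀ k : ℕ, K ≤ k →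
      ∀ v : Fin k → EuclideanSpace ℝ (Fin 3),
        (∀ i j l : Fin k, i ≠ j → j ≠ l → i ≠ l →
          LinearIndependent ℝ ![v i, v j, v l]) →
        ∃ s t : Fin k → ℤˣ,
          0 < MeasureTheory.volume
                {x : EuclideanSpace ℝ (Fin 3) |
                  ‖x‖ ≤ 1 ∧ ∀ i, 0 < ((s i : ℤ) : ℝ) * inner ℝ (v i) x} ∧
          0 < MeasureTheory.volume
                {x : EuclideanSpace ℝ (Fin 3) |
                  ‖x‖ ≤ 1 ∧ ∀ i, 0 < ((t i : ℤ) : ℝ) * inner ℝ (v i) x} ∧
          ENNReal.ofReal M * MeasureTheory.volume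
                {x : EuclideanSpace ℝ (Fin 3) |
                  ‖x‖ ≤ 1 ∧ ∀ i, 0 < ((t i : ℤ) : ℝ) * inner ℝ (v i) x}
            ≤ MeasureTheory.volume
                {x : EuclideanSpace ℝ (Fin 3) |
                  ‖x‖ ≤ 1 ∧ ∀ i, 0 < ((s i : ℤ) : ℝ) * inner ℝ (v i) x} := by
  intro M
  by_contra hcon
  push Not at hcon
  obtain ⟨K, hK, hA⟩ := FT.exists_approx M (by
    intro N
    obtain ⟨k, hk, v, hv, hst⟩ := hcon N
    exact ⟨k, hk, v, hv, fun s t hs ht => hst s t hs ht⟩)
  obtain ⟨P, hP⟩ := FT.limit_conf hK hA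
  exact FT.no_conf (by linarith) hP

end Pool.Agent.S07019
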