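import Pool.Statements.S07186
import Pool.Agent.Work.MP_0df73a_co.KTT.FinalSkel
import Pool.Agent.Work.MP_0df73a_co.KTT.PhiM
import Pool.Agent.Work.MP_0df73a_co.KTT.Num

set_option autoImplicit false
open Pool Pool.MP_0df73a_co

namespace Pool.Agent.S07186

/-- The negation of the preceding statement: For all partitions λ, μ there is a rational polynomial P with P(k) equal to the number of semistandard tableaux of shape kλ and content kμ for every k ≥ 1, and all coefficients of P are nonnegative. -/
theorem result :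
    ¬ (∀ la mu : YoungDiagram, ∃ P : Polynomial ℚ,
      (∀ k : ℕ, 1 ≤ k → ∀ D : YoungDiagram,
        (∀ i j : ℕ, (i, j) ∈ D ↔ j < k * la.rowLen i) →
        ((Nat.card {T : SemistandardYoungTableau D //
            ∀ v : ℕ, Nat.card {c : ℕ × ℕ // c ∈ D ∧ T c.1 c.2 = v} = k * mu.rowLen v} : ℕ) : ℚ)
          = P.eval (k : ℚ)) ∧
      ∀ n : ℕ, 0 ≤ P.coeff n) := by
  exact Pool.Agent.KTT.final_of 130 (Pool.Agent.KTT.Phi_right_zero 130) Pool.Agent.KTT.e1_neg

end Pool.Agent.S07186
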