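import Pool.Statements.S07874

set_option autoImplicit false
open Pool Pool.MP_2d87f2_co

namespace Pool.Agent.S07874

open scoped Pointwise

/-- the free group on two letters -/
abbrev F : Type := FreeGroup Bool

/-- the one-letter element -/
def gen (s : Bool × Bool) : F := FreeGroup.mk [s]

/-- formal inverse letter -/
def linv (s : Bool × Bool) : Bool × Bool := (s.1, !s.2)

lemma gen_linv (s : Bool × Bool) : gen (linv s) = (gen s)⁻¹ := by
  simp [gen, linv, FreeGroup.inv_mk, FreeGroup.invRev]

lemma toWord_gen_mul (s : Bool × Bool) (g : F) :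
    (gen s * g).toWord = FreeGroup.reduce (s :: g.toWord) := by
  rw [FreeGroup.toWord_mul]
  simp [gen]

lemma gen_injective : Function.Injective gen := by
  intro s t h
  have := congrArg FreeGroup.toWord h
  simpa [gen] using this

lemma gen_ne_one (s : Bool × Bool) : gen s ≠ 1 := by
  intro h
  have := congrArg FreeGroup.toWord h
  simp [gen] at this

/-- first letter of the reduced word -/
def W (g : F) : Option (Bool × Bool) := g.toWord.head?

lemma W_gen_mul (s : Bool × Bool) (g : F) (h : W g ≠ some (linv s)) :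
    W (gen s * g) = some s := by
  unfold W at *
  rw [toWord_gen_mul]
  have hr : FreeGroup.reduce g.toWord = g.toWord := FreeGroup.reduce_toWord g
  rw [FreeGroup.reduce.cons, hr]
  rcases hL : g.toWord with _ | ⟨hd, tl⟩
  · simp
  · rw [hL] at h
    simp only [List.head?_cons, ne_eq, Option.some.injEq] at h
    have : ¬ (s.1 = hd.1 ∧ s.2 = !hd.2) := by
      rintro ⟨h1, h2⟩
      apply h
      ext
      · simp [linv, h1]
      · simp [linv, h2]
    simp [this]

/-- the ball of radius one -/
def B : Finset F := insert 1 (Finset.univ.image gen)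

lemma one_mem_B : (1 : F) ∈ B := by simp [B]

lemma gen_mem_B (s : Bool × Bool) : gen s ∈ B := by simp [B]

lemma inv_mem_B {x : F} (h : x ∈ B) : x⁻¹ ∈ B := by
  simp only [B, Finset.mem_insert, Finset.mem_image, Finset.mem_univ, true_and] at h ⊢
  rcases h with rfl | ⟨s, rfl⟩
  · simp
  · right; exact ⟨linv s, gen_linv s⟩

lemma card_B : B.card ≤ 5 := by
  unfold B
  refine (Finset.card_insert_le _ _).trans ?_
  have : (Finset.univ.image gen).card ≤ 4 := by
    refine Finset.card_image_le.trans ?_
    simp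
  omega

/-- number of copies -/
abbrev N : ℕ := 400

abbrev V : Type := F × Fin N

/-- The blown-up Cayley graph of the free group. -/
def G : SimpleGraph V where
  Adj u v := u ≠ v ∧ v.1 * u.1⁻¹ ∈ B
  symm := ⟨by
    rintro u v ⟨h1, h2⟩
    refine ⟨h1.symm, ?_⟩
    have := inv_mem_B h2
    simpa using this⟩
  loopless := ⟨fun u h => h.1 rfl⟩


lemma adj_iff (u v : V) : G.Adj u v ↔ (u ≠ v ∧ v.1 * u.1⁻¹ ∈ B) := Iff.rfl

lemma adj_gen (s : Bool × Bool) (g : F) (i j : Fin N) : G.Adj (g, i) (gen s * g, j) := by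
  rw [adj_iff]
  refine ⟨?_, ?_⟩
  · intro h
    have h1 : g = gen s * g := congrArg Prod.fst h
    exact gen_ne_one s (by simpa using h1.symm)
  · simpa using gen_mem_B s

lemma reach_one (L : List (Bool × Bool)) : ∀ i : Fin N,
    G.Reachable ((FreeGroup.mk L : F), i) ((1 : F), (0 : Fin N)) := by
  induction L with
  | nil =>
    intro i
    by_cases hi : i = 0
    · subst hi
      exact SimpleGraph.Reachable.refl _
    · apply SimpleGraph.Adj.reachable
      rw [adj_iff]
      refine ⟨?_, ?_⟩
      · intro h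
        exact hi (congrArg Prod.snd h)
      · have : (FreeGroup.mk [] : F) = 1 := rfl
        simp only [this, inv_one, mul_one]
        exact one_mem_B
  | cons s L ih =>
    intro i
    have h1 : (FreeGroup.mk (s :: L) : F) = gen s * FreeGroup.mk L := by
      simp [gen]
    rw [h1]
    exact (adj_gen s (FreeGroup.mk L) 0 i).symm.reachable.trans (ih 0)

lemma connected : G.Connected := by
  have h : ∀ v : V, G.Reachable v ((1 : F), (0 : Fin N)) := by
    rintro ⟨g, i⟩
    have := reach_one g.toWord i
    rwa [FreeGroup.mk_toWord] at this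
  have : Nonempty V := ⟨((1 : F), (0 : Fin N))⟩
  exact ⟨fun u v => (h u).trans (h v).symm⟩

lemma neighbor_finite (v : V) : (G.neighborSet v).Finite := by
  refine Set.Finite.subset ((B ×ˢ (Finset.univ : Finset (Fin N))).image
    (fun p => ((p.1 * v.1, p.2) : V))).finite_toSet ?_
  intro w hw
  rw [SimpleGraph.mem_neighborSet, adj_iff] at hw
  simp only [Finset.coe_image, Set.mem_image, Finset.mem_coe, Finset.mem_product,
    Finset.mem_univ, and_true]
  exact ⟨(w.1 * v.1⁻¹, w.2), hw.2, by simp⟩

/-- the automorphisms used for transitivity -/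
def auto (c : F) (σ : Equiv.Perm (Fin N)) : G ≃g G where
  toEquiv := (Equiv.mulRight c).prodCongr σ
  map_rel_iff' := by
    intro u v
    rw [adj_iff, adj_iff]
    refine and_congr ?_ ?_
    · exact (Equiv.injective _).ne_iff
    · simp

lemma transitive (u v : V) : ∃ φ : G ≃g G, φ u = v := by
  refine ⟨auto (u.1⁻¹ * v.1) (Equiv.swap u.2 v.2), ?_⟩
  change (u.1 * (u.1⁻¹ * v.1), Equiv.swap u.2 v.2 u.2) = v
  simp

/-- parity homomorphism -/
def par : F →* Multiplicative (ZMod 2) := FreeGroup.lift (fun _ => Multiplicative.ofAdd 1)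

lemma par_gen (s : Bool × Bool) : par (gen s) = Multiplicative.ofAdd 1 := by
  rcases s with ⟨x, b⟩
  cases b
  · have : gen (x, false) = (FreeGroup.of x)⁻¹ := by simp [gen, FreeGroup.of, FreeGroup.inv_mk, FreeGroup.invRev]
    rw [this, map_inv]
    simp only [par, FreeGroup.lift_apply_of]
    decide
  · have : gen (x, true) = (FreeGroup.of x) := by simp [gen, FreeGroup.of]
    rw [this]
    simp only [par, FreeGroup.lift_apply_of]

/-- the net -/
def S : Set V := {v | v.2 = 0 ∧ par v.1 = 1}

lemma S_sep (u : V) (hu : u ∈ S) (v : V) (hv : v ∈ S) (huv : u ≠ v) : 2 ≤ G.dist u v := by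
  have h0 : G.dist u v ≠ 0 := by
    intro h
    rw [connected.dist_eq_zero_iff] at h
    exact huv h
  have h1 : G.dist u v ≠ 1 := by
    intro h
    rw [SimpleGraph.dist_eq_one_iff_adj, adj_iff] at h
    have h2 := h.2
    simp only [B, Finset.mem_insert, Finset.mem_image, Finset.mem_univ, true_and] at h2
    rcases h2 with h2 | ⟨s, hs⟩
    · apply huv
      ext1
      · have := mul_inv_eq_one.mp h2
        exact this.symm
      · rw [hu.1, hv.1]
    · have h3 : par (v.1 * u.1⁻¹) = 1 := by
        rw [map_mul, map_inv, hu.2, hv.2]; simp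
      rw [← hs, par_gen] at h3
      exact absurd h3 (by decide)
  omega

lemma S_max (w : V) (hw : w ∉ S) : ∃ u ∈ S, G.dist w u < 2 := by
  by_cases hp : par w.1 = 1
  · refine ⟨(w.1, 0), ⟨rfl, hp⟩, ?_⟩
    have : G.Adj w (w.1, 0) := by
      rw [adj_iff]
      refine ⟨?_, ?_⟩
      · intro h
        apply hw
        refine ⟨congrArg Prod.snd h, hp⟩
      · simpa using one_mem_B
    rw [SimpleGraph.dist_eq_one_iff_adj.mpr this]
    norm_num
  · refine ⟨(gen (true, true) * w.1, 0), ⟨rfl, ?_⟩, ?_⟩
    · rw [map_mul, par_gen]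
      generalize par w.1 = x at *
      revert x
      decide
    · have := adj_gen (true, true) w.1 w.2 0
      rw [SimpleGraph.dist_eq_one_iff_adj.mpr this]
      norm_num

lemma walk_mem {u v : V} (p : G.Walk u v) : v.1 * u.1⁻¹ ∈ B ^ p.length := by
  induction p with
  | nil => simp
  | cons h p ih =>
    rename_i a b c
    rw [SimpleGraph.Walk.length_cons, pow_succ]
    have h2 := (adj_iff _ _).mp h
    have := Finset.mul_mem_mul ih h2.2
    simpa using this

lemma dist_mem {u v : V} {n : ℕ} (h : G.dist u v ≤ n) : v.1 * u.1⁻¹ ∈ B ^ n := by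
  obtain ⟨p, hp⟩ := connected.exists_walk_length_eq_dist u v
  have h1 := walk_mem p
  rw [hp] at h1
  exact Finset.pow_subset_pow_right one_mem_B h h1

/-- the root of the net -/
def o : V := ((1 : F), (0 : Fin N))

set_option maxRecDepth 10000 in
lemma net_bound :
    (Set.ncard {p : V × V | p.1 ∈ ({o} : Finset V) ∧ p.2 ∈ S ∧ p.2 ∉ ({o} : Finset V) ∧
                  G.dist p.1 p.2 ≤ 2 * 2}) ≤ 625 := by
  have hsub : {p : V × V | p.1 ∈ ({o} : Finset V) ∧ p.2 ∈ S ∧ p.2 ∉ ({o} : Finset V) ∧
                  G.dist p.1 p.2 ≤ 2 * 2} ⊆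
      (((B ^ 4).image (fun h : F => ((o, (h, (0 : Fin N))) : V × V)) : Finset (V × V)) : Set (V × V)) := by
    rintro ⟨u, v⟩ huv
    rw [Set.mem_ofPred_eq] at huv
    have h1 := huv.1
    have h2 := huv.2.1
    have h4 := huv.2.2.2
    rw [Finset.mem_singleton] at h1
    dsimp only at h1 h2 h4
    subst h1
    have h5 : G.dist o v ≤ 4 := h4
    have h6 := dist_mem h5
    have e : v.1 * o.1⁻¹ = v.1 := by
      have : o.1 = 1 := rfl
      rw [this, inv_one, mul_one]
    rw [e] at h6
    simp only [Finset.coe_image, Set.mem_image, Finset.mem_coe]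
    refine ⟨v.1, h6, ?_⟩
    · ext1
      · rfl
      · ext1
        · rfl
        · exact h2.1.symm
  refine (Set.ncard_le_ncard hsub (Finset.finite_toSet _)).trans ?_
  rw [Set.ncard_coe_finset]
  refine Finset.card_image_le.trans ?_
  refine Finset.card_pow_le.trans ?_
  calc B.card ^ 4 ≤ 5 ^ 4 := Nat.pow_le_pow_left card_B 4
    _ = 625 := by norm_num

lemma card_good (g : F) :
    3 ≤ (Finset.univ.filter (fun s : Bool × Bool => W g ≠ some (linv s))).card := by
  have h : ∀ w : Option (Bool × Bool),
      3 ≤ (Finset.univ.filter (fun s : Bool × Bool => w ≠ some (linv s))).card := by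
    rintro (_ | ⟨x, b⟩)
    · simp
    · cases x <;> cases b <;> decide
  exact h (W g)

lemma edge_bound (A : Finset V) :
    800 * A.card ≤ Set.ncard {p : V × V | p.1 ∈ A ∧ p.2 ∉ A ∧ G.Adj p.1 p.2} := by
  classical
  -- index set of all child pairs starting in A
  let P : Finset (V × (Bool × Bool) × Fin N) :=
    (A ×ˢ ((Finset.univ : Finset (Bool × Bool)) ×ˢ (Finset.univ : Finset (Fin N)))).filter
      (fun t => W t.1.1 ≠ some (linv t.2.1))
  let c : V × (Bool × Bool) × Fin N → V := fun t => (gen t.2.1 * t.1.1, t.2.2)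
  have hP : 3 * N * A.card ≤ P.card := by
    have : P.card = ∑ v ∈ A, ((Finset.univ.filter (fun s : Bool × Bool => W v.1 ≠ some (linv s)))
        ×ˢ (Finset.univ : Finset (Fin N))).card := by
      rw [← Finset.card_sigma]
      apply Finset.card_bij' (fun t _ => (⟨t.1, t.2⟩ : (_ : V) × ((Bool × Bool) × Fin N)))
        (fun t _ => (t.1, t.2))
      · intro t ht
        simp only [P, Finset.mem_filter, Finset.mem_product, Finset.mem_univ, and_true] at ht
        simp [ht.1, ht.2]
      · intro t ht
        simp only [Finset.mem_sigma, Finset.mem_product, Finset.mem_filter, Finset.mem_univ,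
          and_true, true_and] at ht
        simp [P, ht.1, ht.2]
      · intro t ht; rfl
      · intro t ht; rfl
    rw [this]
    calc 3 * N * A.card = ∑ v ∈ A, 3 * N := by rw [Finset.sum_const, smul_eq_mul, mul_comm]
      _ ≤ _ := by
        apply Finset.sum_le_sum
        intro v hv
        rw [Finset.card_product, Finset.card_univ, Fintype.card_fin]
        exact Nat.mul_le_mul_right _ (card_good v.1)
  let Pin := P.filter (fun t => c t ∈ A)
  let Pout := P.filter (fun t => ¬ (c t ∈ A))
  have hsplit : Pin.card + Pout.card = P.card := Finset.card_filter_add_card_filter_not _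
  have hin : Pin.card ≤ N * A.card := by
    have : Pin.card ≤ (A ×ˢ (Finset.univ : Finset (Fin N))).card := by
      apply Finset.card_le_card_of_injOn (fun t => (c t, t.1.2))
      · intro t ht
        simp only [Pin, Finset.coe_filter, Set.mem_ofPred_eq] at ht
        simp [ht.2]
      · rintro ⟨⟨g, i⟩, s, j⟩ ht ⟨⟨g', i'⟩, s', j'⟩ ht' h
        simp only [Pin, P, Finset.coe_filter, Set.mem_ofPred_eq, Finset.mem_filter] at ht ht'
        simp only [c, Prod.mk.injEq] at h
        obtain ⟨⟨h1, h2⟩, h3⟩ := h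
        have e1 := W_gen_mul s g ht.1.2
        have e2 := W_gen_mul s' g' ht'.1.2
        rw [h1, e2] at e1
        have hs : s' = s := Option.some.inj e1
        subst hs
        have hg : g = g' := mul_left_cancel h1
        subst hg
        subst h2
        subst h3
        rfl
    rw [Finset.card_product, Finset.card_univ, Fintype.card_fin] at this
    rw [mul_comm]; exact this
  have hout : Pout.card ≤ Set.ncard {p : V × V | p.1 ∈ A ∧ p.2 ∉ A ∧ G.Adj p.1 p.2} := by
    have hfin : {p : V × V | p.1 ∈ A ∧ p.2 ∉ A ∧ G.Adj p.1 p.2}.Finite := by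
      have : {p : V × V | p.1 ∈ A ∧ p.2 ∉ A ∧ G.Adj p.1 p.2} ⊆
          ⋃ v ∈ A, (fun w => (v, w)) '' (G.neighborSet v) := by
        rintro ⟨u, v⟩ ⟨h1, h2, h3⟩
        simp only [Set.mem_iUnion]
        exact ⟨u, h1, v, h3, rfl⟩
      refine Set.Finite.subset ?_ this
      apply Set.Finite.biUnion A.finite_toSet
      intro v hv
      exact (neighbor_finite v).image _
    have himg : ((Pout.image (fun t => (t.1, c t)) : Finset (V × V)) : Set (V × V)) ⊆
        {p : V × V | p.1 ∈ A ∧ p.2 ∉ A ∧ G.Adj p.1 p.2} := by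
      intro p hp
      simp only [Finset.coe_image, Set.mem_image, Finset.mem_coe] at hp
      obtain ⟨t, ht, rfl⟩ := hp
      simp only [Pout, P, Finset.mem_filter, Finset.mem_product] at ht
      exact ⟨ht.1.1.1, ht.2, adj_gen _ _ _ _⟩
    have hcard : (Pout.image (fun t => (t.1, c t))).card = Pout.card := by
      apply Finset.card_image_of_injective
      rintro ⟨⟨g, i⟩, s, j⟩ ⟨⟨g', i'⟩, s', j'⟩ h
      simp only [c, Prod.mk.injEq] at h
      obtain ⟨⟨h1, h2⟩, h3, h4⟩ := h
      subst h1
      subst h2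
      subst h4
      have := gen_injective (mul_right_cancel h3)
      subst this
      rfl
    rw [← hcard, ← Set.ncard_coe_finset]
    exact Set.ncard_le_ncard himg hfin
  have e1 : 3 * N * A.card = 1200 * A.card := rfl
  have e2 : N * A.card = 400 * A.card := rfl
  omega

/-- The negation of the preceding statement: For every infinite connected locally finite vertex-transitive graph G, every k ≥ 1 and every maximal k-separated vertex set S, the Cheeger constant of the graph on S joining points at distance ≤ 2k is at least the Cheeger constant of G. -/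
theorem result :
    ¬ (∀ (V : Type) (G : SimpleGraph V), Infinite V → G.Connected →
      (∀ v : V, (G.neighborSet v).Finite) →
      (∀ u v : V, ∃ φ : G ≃g G, φ u = v) →
      ∀ k : ℕ, 1 ≤ k →
      ∀ S : Set V,
        (∀ u ∈ S, ∀ v ∈ S, u ≠ v → k ≤ G.dist u v) →
        (∀ w : V, w ∉ S → ∃ u ∈ S, G.dist w u < k) →
        sInf {r : ℝ | ∃ A : Finset V, A.Nonempty ∧
            r = (Set.ncard {p : V × V | p.1 ∈ A ∧ p.2 ∉ A ∧ G.Adj p.1 p.2} : ℝ)
              / (A.card : ℝ)}
          ≤
        sInf {r : ℝ | ∃ A : Finset V, A.Nonempty ∧ (↑A : Set V) ⊆ S ∧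
            r = (Set.ncard {p : V × V | p.1 ∈ A ∧ p.2 ∈ S ∧ p.2 ∉ A ∧
                  G.dist p.1 p.2 ≤ 2 * k} : ℝ)
              / (A.card : ℝ)}) := by
  intro H
  have hinf : Infinite V := inferInstance
  have h := H V G hinf connected neighbor_finite transitive 2 (by norm_num) S S_sep S_max
  have h1 : (800 : ℝ) ≤ sInf {r : ℝ | ∃ A : Finset V, A.Nonempty ∧
            r = (Set.ncard {p : V × V | p.1 ∈ A ∧ p.2 ∉ A ∧ G.Adj p.1 p.2} : ℝ)
              / (A.card : ℝ)} := by
    apply le_csInf
    · exact ⟨_, {o}, Finset.singleton_nonempty o, rfl⟩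
    · rintro r ⟨A, hA, rfl⟩
      have hc : (0 : ℝ) < A.card := by exact_mod_cast hA.card_pos
      rw [le_div_iff₀ hc]
      exact_mod_cast edge_bound A
  have h2 : sInf {r : ℝ | ∃ A : Finset V, A.Nonempty ∧ (↑A : Set V) ⊆ S ∧
            r = (Set.ncard {p : V × V | p.1 ∈ A ∧ p.2 ∈ S ∧ p.2 ∉ A ∧
                  G.dist p.1 p.2 ≤ 2 * 2} : ℝ)
              / (A.card : ℝ)} ≤ 625 := by
    have hb : BddBelow {r : ℝ | ∃ A : Finset V, A.Nonempty ∧ (↑A : Set V) ⊆ S ∧
            r = (Set.ncard {p : V × V | p.1 ∈ A ∧ p.2 ∈ S ∧ p.2 ∉ A ∧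
                  G.dist p.1 p.2 ≤ 2 * 2} : ℝ)
              / (A.card : ℝ)} := by
      refine ⟨0, ?_⟩
      rintro r ⟨A, hA, hAS, rfl⟩
      positivity
    have hm : ((Set.ncard {p : V × V | p.1 ∈ ({o} : Finset V) ∧ p.2 ∈ S ∧
            p.2 ∉ ({o} : Finset V) ∧ G.dist p.1 p.2 ≤ 2 * 2} : ℝ)
              / ((({o} : Finset V).card : ℕ) : ℝ)) ∈
        {r : ℝ | ∃ A : Finset V, A.Nonempty ∧ (↑A : Set V) ⊆ S ∧
            r = (Set.ncard {p : V × V | p.1 ∈ A ∧ p.2 ∈ S ∧ p.2 ∉ A ∧
                  G.dist p.1 p.2 ≤ 2 * 2} : ℝ)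
              / (A.card : ℝ)} := by
      refine ⟨{o}, Finset.singleton_nonempty o, ?_, rfl⟩
      intro v hv
      simp only [Finset.coe_singleton, Set.mem_singleton_iff] at hv
      subst hv
      exact ⟨rfl, by simp [o]⟩
    refine (csInf_le hb hm).trans ?_
    rw [Finset.card_singleton]
    simp only [Nat.cast_one, div_one]
    exact_mod_cast net_bound
  linarith

end Pool.Agent.S07874
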