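import Pool.Statements.S07951
import Pool.Agent.Work.MP_314beb_co.SMain
import Pool.Agent.Work.MP_314beb_co.SGF
import Pool.Agent.Work.MP_314beb_co.SDrv91

set_option autoImplicit false
open Pool Pool.MP_314beb_co

namespace Pool.Agent.S07951

/-- Every finite simple graph with max degree at most 3 has a proper edge coloring with 6 colors in which no path or cycle with four edges uses just two colors alternately. -/
theorem result :
    ∀ (V : Type) [Fintype V] (G : SimpleGraph V),
      (∀ v : V, ∀ s : Finset V, (∀ w ∈ s, G.Adj v w) → s.card ≤ 3) →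
      ∃ c : V → V → Fin 6,
        (∀ u v : V, c u v = c v u) ∧
        (∀ u v w : V, G.Adj u v → G.Adj u w → v ≠ w → c u v ≠ c u w) ∧
        ∀ v0 v1 v2 v3 v4 : V,
          G.Adj v0 v1 → G.Adj v1 v2 → G.Adj v2 v3 → G.Adj v3 v4 →
          v0 ≠ v2 → v0 ≠ v3 → v1 ≠ v3 → v1 ≠ v4 → v2 ≠ v4 →
          ¬ (c v0 v1 = c v2 v3 ∧ c v1 v2 = c v3 v4) :=
  frozen_of_data (MP314beb.SS.dataStar_of
    (fun A F gf _ => MP314beb.SS.exists_drv A F gf)
    (fun A F => MP314beb.SS.exists_gf A F))

end Pool.Agent.S07951
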