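import Pool.Statements.S08447
import Pool.Agent.Work.MP_44e7ab_co.Q1.Assembly

set_option autoImplicit false
open Pool Pool.MP_44e7ab_co

namespace Pool.Agent.S08447

/-- For every f there is k such that every finite graph in which each induced subgraph H has pathwidth at most f(clique number of H) has a tree decomposition whose bags each have independence number at most k. -/
theorem result :
    ∀ f : ℕ → ℕ, ∃ k : ℕ, ∀ (V : Type) [Fintype V] (G : SimpleGraph V),
      (∀ S : Finset V, ∃ w : ℕ,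
        (∃ C : Finset V, C ⊆ S ∧ G.IsNClique w C) ∧
        (∀ C : Finset V, C ⊆ S → G.IsClique (C : Set V) → C.card ≤ w) ∧
        (∃ (n : ℕ) (X : Fin n → Finset V),
          (∀ i, X i ⊆ S) ∧
          (∀ v ∈ S, ∃ i, v ∈ X i) ∧
          (∀ u v, u ∈ S → v ∈ S → G.Adj u v → ∃ i, u ∈ X i ∧ v ∈ X i) ∧
          (∀ v, ∀ i j l : Fin n, i ≤ j → j ≤ l → v ∈ X i → v ∈ X l → v ∈ X j) ∧
          (∀ i, (X i).card ≤ f w + 1))) →
      ∃ (ι : Type) (_ : Fintype ι) (T : SimpleGraph ι) (X : ι → Finset V),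
        T.IsTree ∧
        (∀ v, ∃ t, v ∈ X t) ∧
        (∀ u v, G.Adj u v → ∃ t, u ∈ X t ∧ v ∈ X t) ∧
        (∀ v, ∀ s t, v ∈ X s → v ∈ X t → ∃ p : T.Walk s t, ∀ x ∈ p.support, v ∈ X x) ∧
        (∀ t, ∀ I : Finset V, I ⊆ X t → G.IsIndepSet (I : Set V) → I.card ≤ k) := by
  intro f
  obtain ⟨K, s0, hK, h⟩ :=
    Pool.Agent.Work.MP_44e7ab_co.exists_sepHyp ((Finset.range 8).sup f + 1)
  refine ⟨K + s0, ?_⟩
  intro V _ G hG
  have hPWB : Pool.Agent.Work.MP_44e7ab_co.PWB G ((Finset.range 8).sup f + 1) := by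
    intro S hS
    obtain ⟨w, ⟨C, hCS, hC⟩, -, n, X, h1, h2, h3, h4, h5⟩ := hG S
    have hw : w ≤ 7 := by
      rw [← hC.card_eq]
      exact hS C hCS hC.isClique
    have hfw : f w ≤ (Finset.range 8).sup f :=
      Finset.le_sup (f := f) (Finset.mem_range.mpr (by omega))
    exact ⟨n, X, h1, h2, h3, h4, fun i => (h5 i).trans (by omega)⟩
  obtain ⟨ι, hι, T, X, h1, -, h3, h4, h5, h6, -⟩ :=
    Pool.Agent.Work.MP_44e7ab_co.hasTD_univ hK (h V G hPWB)
  exact ⟨ι, hι, T, X, h1, fun v => h3 v (Finset.mem_univ v),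
    fun u v huv => h4 u (Finset.mem_univ u) v (Finset.mem_univ v) huv,
    fun v s t hs ht => h5 v s t hs ht, fun t I hI hind => h6 t I hI hind⟩

end Pool.Agent.S08447
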