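import Pool.Statements.S08582
import Pool.Agent.Work.MP_49f151_co.Final

set_option autoImplicit false
open Pool Pool.MP_49f151_co

namespace Pool.Agent.S08582

/-- The negation of the preceding statement: For every closed topological disk C and every tiling of the plane by isometric copies of C with disjoint interiors, each tile's neighborhood (union of tiles meeting it) is simply connected. -/
theorem result :
    ¬ (∀ (C : Set (EuclideanSpace ℝ (Fin 2))) (𝒯 : Set (Set (EuclideanSpace ℝ (Fin 2)))),
      Nonempty (C ≃ₜ Metric.closedBall (0 : EuclideanSpace ℝ (Fin 2)) 1) →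
      (∀ T ∈ 𝒯, ∃ f : EuclideanSpace ℝ (Fin 2) ≃ᵢ EuclideanSpace ℝ (Fin 2), T = f '' C) →
      ⋃₀ 𝒯 = Set.univ →
      𝒯.Pairwise (fun A B => Disjoint (interior A) (interior B)) →
      ∀ T ∈ 𝒯, SimplyConnectedSpace (⋃₀ {T' ∈ 𝒯 | (T' ∩ T).Nonempty})) := by
  exact Pool.Agent.Work.MP_49f151_co.main

end Pool.Agent.S08582
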