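import Pool.Statements.S08780
import Pool.Agent.Work.MP_53cd62_co.SumSquares
import Pool.Agent.Work.MP_53cd62_co.Count
import Pool.Agent.Work.MP_53cd62_co.Irred

set_option autoImplicit false
open Pool Pool.MP_53cd62_co

namespace Pool.Agent.S08780

open Polynomial Pool.Agent.Work.MP_53cd62_co

/-- The planar counterexample: for all `C, c > 0` there are a finite field `F` of odd
characteristic and a set `E` in `F ^ 2` with `C * |F| ≤ |E|` and fewer than `c * |F|` distances. -/
theorem planar (C c : ℝ) (hc : 0 < c) :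
    ∃ (F : Type) (_ : Field F) (_ : Fintype F) (_ : DecidableEq F), ringChar F ≠ 2 ∧
      ∃ E : Finset (Fin 2 → F), C * (Fintype.card F : ℝ) ≤ (E.card : ℝ) ∧
        (((E ×ˢ E).image (fun p => ∑ k, (p.1 k - p.2 k) ^ 2)).card : ℝ) <
          c * (Fintype.card F : ℝ) := by
  classical
  -- a prime `p ≡ 3 mod 4` with `C ≤ p`
  obtain ⟨p, hpC, hpp, hp4⟩ := Nat.forall_exists_prime_gt_and_eq_mod (q := 4) (a := (3 : ZMod 4))
    (by decide) (max 3 ⌈C⌉₊)
  have hp4' : p % 4 = 3 := by
    have : ((p : ℕ) : ZMod 4) = ((3 : ℕ) : ZMod 4) := by exact_mod_cast hp4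
    have := (ZMod.natCast_eq_natCast_iff' p 3 4).mp this
    simpa using this
  have hp3 : 3 ≤ p := by
    have := lt_of_le_of_lt (le_max_left 3 ⌈C⌉₊) hpC
    omega
  have hCp : C ≤ p := by
    have h1 : ⌈C⌉₊ ≤ p := (le_max_right 3 ⌈C⌉₊).trans hpC.le
    exact (Nat.le_ceil C).trans (by exact_mod_cast h1)
  have : Fact p.Prime := ⟨hpp⟩
  obtain ⟨s, hs, hprod⟩ := exists_small_product (p := p) hp3 c hc
  -- parameters
  set k : ℕ := ∑ P ∈ s, P.natDegree with hk
  set m : ℕ := 2 * k + 1 with hm
  have hm0 : m ≠ 0 := by omega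
  let F := GaloisField p m
  have hcard : Nat.card F = p ^ m := GaloisField.card p m hm0
  have hfin : Finite F := by
    apply Nat.finite_of_card_ne_zero
    rw [hcard]
    exact pow_ne_zero _ hpp.ne_zero
  let instF : Fintype F := Fintype.ofFinite F
  have hcardF : Fintype.card F = p ^ m := by rw [← Nat.card_eq_fintype_card, hcard]
  have hfr : Module.finrank (ZMod p) F = m := GaloisField.finrank p hm0
  let pb : PowerBasis (ZMod p) F := Field.powerBasisOfFiniteOfSeparable (ZMod p) F
  have hdim : pb.dim = m := by rw [← pb.finrank, hfr]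
  have hmin : (minpoly (ZMod p) pb.gen).natDegree = m := by rw [pb.natDegree_minpoly, hdim]
  -- evaluation is injective on polynomials of degree `< m`
  have hinj : ∀ f g : (ZMod p)[X], f.degree < m → g.degree < m →
      aeval pb.gen f = aeval pb.gen g → f = g := by
    intro f g hf hg hfg
    have h0 : aeval pb.gen (f - g) = 0 := by rw [map_sub, hfg, sub_self]
    have h1 : minpoly (ZMod p) pb.gen ∣ f - g := minpoly.dvd _ _ h0
    have h2 : f - g = 0 := by
      apply eq_zero_of_dvd_of_degree_lt h1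
      rw [degree_eq_natDegree (minpoly.ne_zero pb.isIntegral_gen), hmin]
      exact lt_of_le_of_lt (degree_sub_le f g) (max_lt hf hg)
    exact sub_eq_zero.mp h2
  have instk : Fintype (degreeLT (ZMod p) (k + 1)) := Fintype.ofFinite _
  -- the set
  let φ : degreeLT (ZMod p) (k + 1) × degreeLT (ZMod p) (k + 1) → (Fin 2 → F) :=
    fun fg => ![aeval pb.gen (fg.1 : (ZMod p)[X]), aeval pb.gen (fg.2 : (ZMod p)[X])]
  have hkm : ∀ f : degreeLT (ZMod p) (k + 1), (f : (ZMod p)[X]).degree < (m : ℕ) := by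
    intro f
    have := mem_degreeLT.mp f.2
    refine this.trans_le ?_
    have : k + 1 ≤ m := by omega
    exact_mod_cast this
  have hφ : Function.Injective φ := by
    intro x y hxy
    have h0 : φ x 0 = φ y 0 := by rw [hxy]
    have h1 : φ x 1 = φ y 1 := by rw [hxy]
    have h0' := hinj _ _ (hkm x.1) (hkm y.1) (by simpa [φ] using h0)
    have h1' := hinj _ _ (hkm x.2) (hkm y.2) (by simpa [φ] using h1)
    exact Prod.ext (Subtype.ext h0') (Subtype.ext h1')
  refine ⟨F, inferInstance, instF, Classical.decEq F, ?_, Finset.univ.image φ, ?_, ?_⟩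
  · have : CharP F p := inferInstance
    rw [ringChar.eq F p]
    omega
  · have hck : Fintype.card (degreeLT (ZMod p) (k + 1)) = p ^ (k + 1) := by
      rw [← Nat.card_eq_fintype_card, card_degreeLT]
    rw [Finset.card_image_of_injective _ hφ, Finset.card_univ, Fintype.card_prod, hck, hcardF]
    have e1 : p ^ (k + 1) * p ^ (k + 1) = p * p ^ m := by
      rw [hm]; ring
    rw [e1]
    push_cast
    exact mul_le_mul_of_nonneg_right hCp (by positivity)
  · -- the distance set is contained in the image of the sifted set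
    have instS : Fintype (Sift p s m) := Fintype.ofFinite _
    have hsub : ((Finset.univ.image φ ×ˢ Finset.univ.image φ).image
        (fun p => ∑ k, (p.1 k - p.2 k) ^ 2)) ⊆
        (Finset.univ : Finset (Sift p s m)).image
          (fun h => aeval pb.gen ((h.1 : degreeLT (ZMod p) m) : (ZMod p)[X])) := by
      intro t ht
      obtain ⟨⟨u, v⟩, huv, rfl⟩ := Finset.mem_image.mp ht
      obtain ⟨hu, hv⟩ := Finset.mem_product.mp huv
      obtain ⟨x, -, rfl⟩ := Finset.mem_image.mp hu
      obtain ⟨y, -, rfl⟩ := Finset.mem_image.mp hv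
      let f : (ZMod p)[X] := (x.1 : (ZMod p)[X]) - (y.1 : (ZMod p)[X])
      let g : (ZMod p)[X] := (x.2 : (ZMod p)[X]) - (y.2 : (ZMod p)[X])
      have hf : f ∈ degreeLT (ZMod p) (k + 1) := (degreeLT (ZMod p) (k + 1)).sub_mem x.1.2 y.1.2
      have hg : g ∈ degreeLT (ZMod p) (k + 1) := (degreeLT (ZMod p) (k + 1)).sub_mem x.2.2 y.2.2
      have hdeg : ∀ f : (ZMod p)[X], f ∈ degreeLT (ZMod p) (k + 1) → (f ^ 2).degree < (m : ℕ) := by
        intro f hf
        have h2 : f.natDegree ≤ k := by
          rw [mem_degreeLT] at hf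
          by_cases h0 : f = 0
          · rw [h0, natDegree_zero]; exact Nat.zero_le _
          · rw [degree_eq_natDegree h0] at hf
            have : f.natDegree < k + 1 := by exact_mod_cast hf
            omega
        have h3 : (f ^ 2).natDegree ≤ 2 * k := natDegree_pow_le.trans (by omega)
        have h4 : (f ^ 2).degree ≤ ((2 * k : ℕ) : WithBot ℕ) := natDegree_le_iff_degree_le.mp h3
        refine lt_of_le_of_lt h4 ?_
        have : 2 * k < m := by omega
        exact_mod_cast this
      have hfg : f ^ 2 + g ^ 2 ∈ degreeLT (ZMod p) m := by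
        rw [mem_degreeLT]
        exact lt_of_le_of_lt (degree_add_le _ _) (max_lt (hdeg f hf) (hdeg g hg))
      refine Finset.mem_image.mpr ⟨⟨⟨f ^ 2 + g ^ 2, hfg⟩, ?_⟩, Finset.mem_univ _, ?_⟩
      · intro P hP hdvd
        exact sq_dvd_of_dvd hp4' (hs P hP).2.1 (hs P hP).2.2 hdvd
      · simp [φ, f, g, Fin.sum_univ_two, map_add, map_pow, map_sub]
    have hle : (((Finset.univ.image φ ×ˢ Finset.univ.image φ).image
        (fun p => ∑ k, (p.1 k - p.2 k) ^ 2)).card : ℝ) ≤ (Nat.card (Sift p s m) : ℝ) := by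
      have h1 := (Finset.card_le_card hsub).trans Finset.card_image_le
      rw [Finset.card_univ, ← Nat.card_eq_fintype_card] at h1
      exact_mod_cast h1
    refine lt_of_le_of_lt hle ?_
    have hsift := card_sift_le (p := p) s (fun P hP => (hs P hP).1) (fun P hP => (hs P hP).2.1) m
      (by omega)
    have hm2 : m - 2 * ∑ P ∈ s, P.natDegree = 1 := by omega
    rw [hm2] at hsift
    have hsift' : (Nat.card (Sift p s m) : ℝ) ≤
        (p : ℝ) ^ 1 * ∏ P ∈ s, (((p : ℝ) ^ P.natDegree) ^ 2 - (p : ℝ) ^ P.natDegree + 1) := by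
      have h1 : (Nat.card (Sift p s m) : ℝ) ≤ ((p ^ 1 * ∏ P ∈ s,
          (p ^ (2 * P.natDegree) - p ^ P.natDegree + 1) : ℕ) : ℝ) := by exact_mod_cast hsift
      refine h1.trans (le_of_eq ?_)
      push_cast
      congr 1
      apply Finset.prod_congr rfl
      intro P _
      have hle : p ^ P.natDegree ≤ p ^ (2 * P.natDegree) :=
        Nat.pow_le_pow_right hpp.pos (by omega)
      rw [Nat.cast_sub hle]
      push_cast
      rw [mul_comm 2 P.natDegree, pow_mul]
    refine lt_of_le_of_lt hsift' ?_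
    have hfac : ∏ P ∈ s, (((p : ℝ) ^ P.natDegree) ^ 2 - (p : ℝ) ^ P.natDegree + 1) =
        (∏ P ∈ s, (((p : ℝ) ^ P.natDegree) ^ 2 - (p : ℝ) ^ P.natDegree + 1) /
          ((p : ℝ) ^ P.natDegree) ^ 2) * (p : ℝ) ^ (2 * k) := by
      rw [Finset.prod_div_distrib]
      have : ∏ P ∈ s, ((p : ℝ) ^ P.natDegree) ^ 2 = (p : ℝ) ^ (2 * k) := by
        rw [hk, Finset.mul_sum, ← Finset.prod_pow_eq_pow_sum]
        apply Finset.prod_congr rfl
        intro P _
        rw [mul_comm 2 P.natDegree, pow_mul]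
      rw [this, div_mul_cancel₀]
      have : (0 : ℝ) < p := by exact_mod_cast hpp.pos
      positivity
    rw [hfac, hcardF]
    have hp0 : (0 : ℝ) < p := by exact_mod_cast hpp.pos
    push_cast
    have e2 : (p : ℝ) ^ 1 * ((∏ P ∈ s, (((p : ℝ) ^ P.natDegree) ^ 2 - (p : ℝ) ^ P.natDegree + 1) /
          ((p : ℝ) ^ P.natDegree) ^ 2) * (p : ℝ) ^ (2 * k)) =
        (∏ P ∈ s, (((p : ℝ) ^ P.natDegree) ^ 2 - (p : ℝ) ^ P.natDegree + 1) /
          ((p : ℝ) ^ P.natDegree) ^ 2) * (p : ℝ) ^ m := by
      rw [hm]; ring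
    rw [e2]
    exact mul_lt_mul_of_pos_right hprod (by positivity)

/-- The negation of the preceding statement: For each even d ≥ 2 there are constants C, c > 0 such that for every finite field F of odd characteristic with q elements, every E ⊆ F^d with ∣E∣ ≥ C q^{d/2} has at least c·q distinct values of ∑(x_k − y_k)² over x, y in E. -/
theorem result :
    ¬ (∀ d : ℕ, Even d → 2 ≤ d →
      ∃ C c : ℝ, 0 < C ∧ 0 < c ∧
        ∀ (F : Type) [Field F] [Fintype F] [DecidableEq F], ringChar F ≠ 2 →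
          ∀ E : Finset (Fin d → F),
            C * ((Fintype.card F : ℝ) ^ (d / 2)) ≤ (E.card : ℝ) →
              c * (Fintype.card F : ℝ) ≤
                (((E ×ˢ E).image (fun p => ∑ k, (p.1 k - p.2 k) ^ 2)).card : ℝ)) := by
  intro hall
  obtain ⟨C, c, _, hc, h⟩ := hall 2 even_two le_rfl
  obtain ⟨F, i1, i2, i3, hchar, E, hE1, hE2⟩ := planar C c hc
  have := h F hchar E (by simpa using hE1)
  linarith

end Pool.Agent.S08780
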