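import Pool.Statements.S08983
import Pool.Agent.Work.MP_5c1620_co.Dark
import Pool.Agent.Work.MP_5c1620_co.Bridge
import Pool.Agent.Work.MP_5c1620_co.Conn2

set_option autoImplicit false
open Pool Pool.MP_5c1620_co

namespace Pool.Agent.S08983

/-- For any finitely many disjoint closed disks of positive radius in the plane and any point outside them, there is a path of finitely many mirror reflections off the disk boundaries that never enters a disk interior and ends in a ray going off to infinity. -/
theorem result :
    ∀ (n : ℕ) (c : Fin n → EuclideanSpace ℝ (Fin 2)) (r : Fin n → ℝ),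
      (∀ i, 0 < r i) →
      (∀ i j, i ≠ j → r i + r j < dist (c i) (c j)) →
      ∀ x : EuclideanSpace ℝ (Fin 2), (∀ i, r i < dist x (c i)) →
        ∃ (m : ℕ) (p : ℕ → EuclideanSpace ℝ (Fin 2)),
          p 0 = x ∧
          (∀ k, k ≤ m → p k ≠ p (k + 1)) ∧
          (∀ k, k < m → ∀ i, ∀ t : ℝ, 0 ≤ t → t ≤ 1 →
              r i ≤ dist (p k + t • (p (k + 1) - p k)) (c i)) ∧
          (∀ i, ∀ t : ℝ, 0 ≤ t →
              r i ≤ dist (p m + t • (p (m + 1) - p m)) (c i)) ∧
          (∀ k, 1 ≤ k → k ≤ m → ∃ i, dist (p k) (c i) = r i ∧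
              ∃ s : ℝ, 0 < s ∧
                p (k + 1) - p k =
                  s • ((p k - p (k - 1)) -
                    (2 * inner ℝ (p k - p (k - 1)) (p k - c i) /
                        inner ℝ (p k - c i) (p k - c i)) • (p k - c i))) := by
  exact Pool.Agent.Work.MP_5c1620_co.frozen_of_main fun _ C =>
    Pool.Agent.Work.MP_5c1620_co.no_dark C (by have := C.Rpos none; linarith)
      (Pool.Agent.Work.MP_5c1620_co.esc_ae_of_dich
        (fun C => Pool.Agent.Work.MP_5c1620_co.loc_const
          (fun C => Pool.Agent.Work.MP_5c1620_co.CROSS_holds C) C) C)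

end Pool.Agent.S08983
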