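import Pool.Statements.S09078
import Pool.Agent.Work.MP_5f9c07_co.Prism

set_option autoImplicit false
open scoped Classical
open Pool Pool.MP_5f9c07_co

namespace Pool.Agent.S09078

open Pool.Agent.Work.MP_5f9c07_co Set Submodule Module

/-- the rank-three matroid of the ten directions of the prism -/
noncomputable def M : Matroid (Fin 10) := linMat F5 v univ

lemma M_indep (I : Set (Fin 10)) : M.Indep I ↔ LinearIndepOn F5 v I := by
  rw [M, linMat_indep]; simp

lemma single_indep (e : Fin 10) : LinearIndepOn F5 v {e} :=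
  LinearIndepOn.singleton (v_ne e)

lemma pair_indep' (e f : Fin 10) : LinearIndepOn F5 v {e, f} := by
  by_cases h : e = f
  · subst h
    rw [Set.pair_eq_singleton]
    exact single_indep e
  · rw [LinearIndepOn.pair_iff v h]
    exact pair_indep e f h

lemma chi_zero_exp (q : ℤ) (N : Matroid (Fin 10)) :
    chi q N 0 = if N.E = ∅ then 1 else 0 := by
  have h1 : chi q N 0 = ∑ X ∈ N.E.toFinset.powerset, (-1 : ℤ) ^ X.card := by
    unfold chi
    apply Finset.sum_congr
    · ext X
      simp [Finset.subset_iff, Set.subset_def]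
    · intro X _
      simp
  rw [h1, Finset.sum_powerset_neg_one_pow_card]
  simp

lemma minors (C D : Set (Fin 10)) (hdisj : Disjoint C D)
    (hne : (C ∪ D).Nonempty)
    (hs : ∀ e ∈ ((M.contract C).delete D).E, ∀ f ∈ ((M.contract C).delete D).E,
      ((M.contract C).delete D).Indep {e, f}) :
    ∃ j ≤ 1, 0 < chi (Fintype.card F5 : ℤ) ((M.contract C).delete D) j := by
  have hN : (M.contract C).delete D =
      linMat F5 (mkQ (span F5 (v '' C)) ∘ v) ((univ \ C) \ D) :=
    minor F5 v univ C D (subset_univ _)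
  rw [hN] at hs ⊢
  set E' : Set (Fin 10) := (univ \ C) \ D with hE'
  by_cases hemp : E' = ∅
  · refine ⟨0, by omega, ?_⟩
    rw [chi_zero_exp]
    simp [hemp]
  refine ⟨1, le_refl _, ?_⟩
  -- elements of E' are not in the span of C
  have hnotin : ∀ e ∈ E', v e ∉ span F5 (v '' C) := by
    intro e he hmem
    have h1 := hs e he e he
    rw [linMat_indep, Set.pair_eq_singleton] at h1
    have h2 := h1.2.ne_zero (Set.mem_singleton e)
    apply h2
    simpa using hmem
  have key : ∃ a : V3, (∀ c ∈ C, dot a (v c) = 0) ∧ ∀ e ∈ E', dot a (v e) ≠ 0 := by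
    by_cases hC : C = ∅
    · subst hC
      obtain ⟨d, hd⟩ := hne
      have hd' : d ∈ D := by simpa using hd
      refine ⟨t d, by simp, ?_⟩
      intro e he h0
      rw [tangent] at h0
      subst h0
      exact he.2 hd'
    · obtain ⟨c, hc⟩ := Set.nonempty_iff_ne_empty.mpr hC
      by_cases hall : ∀ c' ∈ C, c' = c
      · refine ⟨t c, ?_, ?_⟩
        · intro c' hc'
          rw [tangent]
          exact hall c' hc'
        · intro e he h0
          rw [tangent] at h0
          subst h0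
          exact he.1.2 hc
      · push Not at hall
        obtain ⟨c', hc', hcc⟩ := hall
        have hcr := cr_ne c c' hcc.symm
        have hsub : ({v c, v c'} : Set V3) ⊆ v '' C := by
          rintro x (rfl | rfl)
          · exact ⟨c, hc, rfl⟩
          · exact ⟨c', hc', rfl⟩
        refine ⟨cr (v c) (v c'), ?_, ?_⟩
        · intro c'' hc''
          by_contra hdet
          obtain ⟨e, he⟩ := Set.nonempty_iff_ne_empty.mpr hemp
          have h1 : v e ∈ span F5 {v c, v c', v c''} := mem_span3 _ _ _ _ hdet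
          apply hnotin e he
          refine span_mono ?_ h1
          rintro x (rfl | rfl | rfl)
          · exact ⟨c, hc, rfl⟩
          · exact ⟨c', hc', rfl⟩
          · exact ⟨c'', hc'', rfl⟩
        · intro e he h0
          exact hnotin e he (span_mono hsub (mem_span2 _ _ _ hcr h0))
  obtain ⟨a, ha1, ha2⟩ := key
  have hle : span F5 (v '' C) ≤ LinearMap.ker (dotL a) := by
    rw [span_le]
    rintro _ ⟨c, hc, rfl⟩
    exact LinearMap.mem_ker.mpr (ha1 c hc)
  exact chi_pos F5 _ _ ((span F5 (v '' C)).liftQ (dotL a) hle) (fun e he => by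
    simpa [dotL_apply] using ha2 e he)

lemma witness_ne : ∀ p ∈ ([(6,9),(3,9),(3,6),(7,8)] : List (Fin 10 × Fin 10)), p.1 ≠ p.2 := by
  decide

lemma not_modular (H : Set (Fin 10)) (hH : M.IsFlat H) (hr : M.eRk H + 1 = M.eRk M.E)
    (hmod : ∀ X : Set (Fin 10), M.IsFlat X →
        M.eRk H + M.eRk X = M.eRk (H ∪ X) + M.eRk (H ∩ X)) : False := by
  have hrk : ∀ X : Set (Fin 10), M.eRk X = (finrank F5 (span F5 (v '' X)) : ℕ∞) := fun X =>
    linMat_eRk F5 v univ (subset_univ X)
  have hV : finrank F5 V3 = 3 := by simp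
  have htop : ∀ a b c : Fin 10, det3 (v a) (v b) (v c) ≠ 0 → ∀ X : Set (Fin 10),
      a ∈ X → b ∈ X → c ∈ X → finrank F5 (span F5 (v '' X)) = 3 := by
    intro a b c hdet X ha hb hc
    have : span F5 (v '' X) = ⊤ := by
      rw [eq_top_iff]
      intro x _
      refine span_mono ?_ (mem_span3 _ _ _ x hdet)
      rintro y (rfl | rfl | rfl)
      · exact ⟨a, ha, rfl⟩
      · exact ⟨b, hb, rfl⟩
      · exact ⟨c, hc, rfl⟩
    rw [this, finrank_top, hV]
  have hE : finrank F5 (span F5 (v '' M.E)) = 3 :=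
    htop 0 1 2 (by decide) M.E (mem_univ _) (mem_univ _) (mem_univ _)
  rw [hrk, hrk, hE] at hr
  have hH2 : finrank F5 (span F5 (v '' H)) = 2 := by
    have : finrank F5 (span F5 (v '' H)) + 1 = 3 := by exact_mod_cast hr
    omega
  -- two distinct elements of H
  obtain ⟨c, hc, c', hc', hcc⟩ : ∃ c ∈ H, ∃ c' ∈ H, c ≠ c' := by
    by_contra hcon
    push Not at hcon
    have hsub : H.Subsingleton := fun x hx y hy => hcon x hx y hy
    rcases hsub.eq_empty_or_singleton with h | ⟨x, h⟩
    · rw [h, Set.image_empty, span_empty, finrank_bot] at hH2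
      omega
    · rw [h, Set.image_singleton, finrank_span_singleton (v_ne x)] at hH2
      omega
  have hHsub : ∀ e ∈ H, det3 (v c) (v c') (v e) = 0 := by
    intro e he
    by_contra hdet
    have := htop c c' e hdet H hc hc' he
    omega
  obtain ⟨p, hp, hdisj⟩ := disjoint_lines c c' hcc
  have hpne : p.1 ≠ p.2 := witness_ne p hp
  -- the disjoint line
  have hXflat : M.IsFlat (M.closure {p.1, p.2}) := M.isFlat_closure _
  have hXsub : ∀ e ∈ M.closure {p.1, p.2}, det3 (v p.1) (v p.2) (v e) = 0 := by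
    intro e he
    have h1 : v e ∈ span F5 (v '' {p.1, p.2}) :=
      (linMat_mem_closure F5 v univ (subset_univ _) (mem_univ e)).mp he
    have hle : span F5 (v '' {p.1, p.2}) ≤ LinearMap.ker (dotL (cr (v p.1) (v p.2))) := by
      rw [span_le]
      rintro _ ⟨x, hx, rfl⟩
      rw [SetLike.mem_coe, LinearMap.mem_ker, dotL_apply]
      rcases hx with rfl | hx
      · simp [dot, cr]; ring
      · rw [Set.mem_singleton_iff] at hx
        subst hx
        simp [dot, cr]; ring
    exact LinearMap.mem_ker.mp (hle h1)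
  have hmod' := hmod _ hXflat
  have hinter : H ∩ M.closure {p.1, p.2} = ∅ := by
    ext e
    simp only [Set.mem_inter_iff, Set.mem_empty_iff_false, iff_false]
    rintro ⟨h1, h2⟩
    exact hdisj e ⟨hHsub e h1, hXsub e h2⟩
  have hX2 : M.eRk (M.closure {p.1, p.2}) = 2 := by
    rw [Matroid.eRk_closure_eq, ((M_indep _).mpr (pair_indep' p.1 p.2)).eRk_eq_encard,
      Set.encard_pair hpne]
  rw [hinter, Matroid.eRk_empty, hX2, hrk H, hH2, add_zero] at hmod'
  have hle : M.eRk (H ∪ M.closure {p.1, p.2}) ≤ 3 := by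
    rw [hrk]
    have : finrank F5 (span F5 (v '' (H ∪ M.closure {p.1, p.2}))) ≤ 3 := by
      exact le_trans (Submodule.finrank_le _) (le_of_eq hV)
    exact_mod_cast this
  rw [← hmod'] at hle
  have : (2 + 2 : ℕ) ≤ 3 := by exact_mod_cast hle
  omega

lemma quot_part (n : ℕ) (hn : n = 6) :
    ∃ K Q : Matroid (Sym2 (Fin n)),
      K.E = {e | ¬ e.IsDiag} ∧
      (∀ I ⊆ K.E, (K.Indep I ↔ (SimpleGraph.fromEdgeSet I).IsAcyclic)) ∧
      Q.E = K.E ∧ (∀ X, Q.IsFlat X → K.IsFlat X) ∧
      ∃ S ⊆ Q.E, (∀ e ∈ S, ∀ f ∈ S, Q.Indep {e, f}) ∧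
        (∀ e ∈ Q.E, Q.Indep {e} → ∃ f ∈ S, e = f ∨ ¬ Q.Indep {e, f}) ∧
        ∃ g : Fin 10 → Sym2 (Fin n),
          Set.InjOn g M.E ∧ g '' M.E = S ∧
          ∀ I ⊆ M.E, (M.Indep I ↔ Q.Indep (g '' I)) := by
  subst hn
  have ginj : Function.Injective g := by decide
  have hgE : ∀ i, g i ∈ E0 6 := by
    intro i
    change ¬ (g i).IsDiag
    revert i
    decide
  have himg : ∀ I : Set (Fin 10), LinearIndepOn F5 (wv U) (g '' I) ↔ LinearIndepOn F5 v I := by
    intro I
    have h1 := linearIndependent_equiv (R := F5) (Equiv.Set.image g I ginj)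
      (f := fun x : g '' I => wv U x)
    have h2 : ((fun x : g '' I => wv U x) ∘ (Equiv.Set.image g I ginj)) = fun x : I => v x := by
      funext x
      simp [v_eq]
    rw [h2] at h1
    exact h1.symm
  refine ⟨cycK F5 6, linMat F5 (wv U) (E0 6), rfl, ?_, rfl, flat_of_flat F5 U, range g, ?_, ?_, ?_,
    g, ginj.injOn, ?_, ?_⟩
  · intro I hI
    rw [cycK, linMat_indep]
    rw [← acyclic_iff F5 I hI]
    exact ⟨fun h => h.2, fun h => ⟨hI, h⟩⟩
  · rintro _ ⟨i, rfl⟩
    exact hgE i
  · rintro _ ⟨i, rfl⟩ _ ⟨j, rfl⟩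
    rw [linMat_indep]
    refine ⟨?_, ?_⟩
    · rintro x (rfl | rfl)
      · exact hgE i
      · exact hgE j
    · have := (himg {i, j}).mpr (pair_indep' i j)
      rwa [Set.image_pair] at this
  · intro e he _
    have hpar : ∀ a b : Fin 6, a ≠ b → ∃ i : Fin 10,
        wv U s(a, b) = wv U (g i) ∨ wv U s(a, b) = - wv U (g i) := by decide +kernel
    induction e using Sym2.ind with
    | _ a b =>
      have hab : a ≠ b := by
        have : ¬ (s(a, b) : Sym2 (Fin 6)).IsDiag := he
        simpa using this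
      obtain ⟨i, hi⟩ := hpar a b hab
      refine ⟨g i, ⟨i, rfl⟩, ?_⟩
      by_cases heq : s(a, b) = g i
      · exact Or.inl heq
      · right
        rw [linMat_indep]
        rintro ⟨-, hind⟩
        rw [LinearIndepOn.pair_iff _ heq] at hind
        rcases hi with hi | hi
        · have := hind 1 (-1) (by rw [hi]; simp)
          exact one_ne_zero this.1
        · have := hind 1 1 (by rw [hi]; simp)
          exact one_ne_zero this.1
  · change g '' univ = range g
    exact Set.image_univ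
  · intro I _
    rw [M_indep, linMat_indep, himg]
    refine ⟨fun h => ⟨?_, h⟩, fun h => h.2⟩
    rintro _ ⟨i, -, rfl⟩
    exact hgE i

/-- The negation of the preceding statement: For every finite field of order q and k ≥ 1, every simple GF(q)-representable tangential k-block isomorphic to the simplification of a quotient of the cycle matroid of K_{q^k+1} has a modular hyperplane. -/
theorem result :
    ¬ (∀ (F : Type) [Field F] [Fintype F] (k : ℕ), 1 ≤ k →
  ∀ (α : Type) [Fintype α] (M : Matroid α),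
    (∃ (n : ℕ) (v : α → Fin n → F),
      ∀ I ⊆ M.E, (M.Indep I ↔ LinearIndependent F (fun x : I => v x))) →
    (∀ e ∈ M.E, ∀ f ∈ M.E, M.Indep {e, f}) →
    (∀ j ≤ k,
      (∑ X ∈ Finset.univ.filter (fun X : Finset α => (↑X : Set α) ⊆ M.E),
        (-1 : ℤ) ^ X.card * ((Fintype.card F : ℤ) ^ j) ^
          ((M.eRk M.E).toNat - (M.eRk (↑X : Set α)).toNat)) ≤ 0) →
    (∀ N : Matroid α,
      (∃ C D : Set α, C ⊆ M.E ∧ D ⊆ M.E ∧ Disjoint C D ∧ (C ∪ D).Nonempty ∧
        N = (M.contract C).delete D) →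
      (∀ e ∈ N.E, ∀ f ∈ N.E, N.Indep {e, f}) →
      ∃ j ≤ k, 0 <
        (∑ X ∈ Finset.univ.filter (fun X : Finset α => (↑X : Set α) ⊆ N.E),
          (-1 : ℤ) ^ X.card * ((Fintype.card F : ℤ) ^ j) ^
            ((N.eRk N.E).toNat - (N.eRk (↑X : Set α)).toNat))) →
    (∃ K Q : Matroid (Sym2 (Fin (Fintype.card F ^ k + 1))),
      K.E = {e | ¬ e.IsDiag} ∧
      (∀ I ⊆ K.E, (K.Indep I ↔ (SimpleGraph.fromEdgeSet I).IsAcyclic)) ∧
      Q.E = K.E ∧ (∀ X, Q.IsFlat X → K.IsFlat X) ∧
      ∃ S ⊆ Q.E, (∀ e ∈ S, ∀ f ∈ S, Q.Indep {e, f}) ∧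
        (∀ e ∈ Q.E, Q.Indep {e} → ∃ f ∈ S, e = f ∨ ¬ Q.Indep {e, f}) ∧
        ∃ g : α → Sym2 (Fin (Fintype.card F ^ k + 1)),
          Set.InjOn g M.E ∧ g '' M.E = S ∧
          ∀ I ⊆ M.E, (M.Indep I ↔ Q.Indep (g '' I))) →
    ∃ H : Set α, M.IsFlat H ∧ M.eRk H + 1 = M.eRk M.E ∧
      ∀ X : Set α, M.IsFlat X →
        M.eRk H + M.eRk X = M.eRk (H ∪ X) + M.eRk (H ∩ X)) := by
  intro hyp
  obtain ⟨H, h1, h2, h3⟩ := hyp F5 1 (le_refl 1) (Fin 10) M
    ⟨3, v, fun I _ => M_indep I⟩
    (fun e _ f _ => (M_indep _).mpr (pair_indep' e f))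
    (by
      intro j hj
      have hj' : j = 0 ∨ j = 1 := by omega
      rcases hj' with rfl | rfl
      · have h := chi_zero_exp (Fintype.card F5 : ℤ) M
        have hne : M.E ≠ ∅ := by
          have : (0 : Fin 10) ∈ M.E := mem_univ _
          exact Set.nonempty_iff_ne_empty.mp ⟨_, this⟩
        rw [if_neg hne] at h
        exact le_of_eq h
      · have h := chi_zero F5 v univ (by
          intro f
          obtain ⟨a, ha⟩ := dual_eq f
          obtain ⟨e, he⟩ := blocking (a 0) (a 1) (a 2)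
          refine ⟨e, mem_univ _, ?_⟩
          rw [ha]
          simpa [dot] using he)
        exact le_of_eq h)
    (by
      rintro N ⟨C, D, -, -, hdisj, hne, rfl⟩ hs
      exact minors C D hdisj hne hs)
    (quot_part _ (by simp [ZMod.card]))
  exact not_modular H h1 h2 h3

end Pool.Agent.S09078
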