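import Pool.Statements.S09450
import Pool.Agent.Work.MP_71927a_co.Final

set_option autoImplicit false
open Pool Pool.MP_71927a_co

namespace Pool.Agent.S09450

/-- The negation of the preceding statement: There is an absolute constant C such that every finite triangle-free graph with independence number α has at most 2^(Cα) independent sets of size α, whatever its number of vertices. -/
theorem result :
    ¬ (∃ C : ℝ, ∀ (n : ℕ) (G : SimpleGraph (Fin n)), G.CliqueFree 3 →
      (({s : Finset (Fin n) | G.IsNIndepSet G.indepNum s}.ncard : ℕ) : ℝ)
        ≤ (2 : ℝ) ^ (C * (G.indepNum : ℝ))) := by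
  exact Pool.Agent.Work.MP_71927a_co.not_bounded

end Pool.Agent.S09450
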