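import Pool.Statements.S09566
import Pool.Agent.Work.MP_766cb7_co.Operator

set_option autoImplicit false
open Pool Pool.MP_766cb7_co

namespace Pool.Agent.S09566

/-- The negation of the preceding statement: Let f on subsets of S be increasing, monotone, idempotent and have the exchange property, and satisfy (C) and (H) with independent and spanning defined via f. Then some matroid (B-matroid) on S has closure equal to f. -/
theorem result :
    ¬ (∀ (α : Type) (S : Set α) (f : Set α → Set α),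
      (∀ X, X ⊆ S → f X ⊆ S) →
      (∀ X, X ⊆ S → X ⊆ f X) →
      (∀ X Y, X ⊆ Y → Y ⊆ S → f X ⊆ f Y) →
      (∀ X, X ⊆ S → f (f X) = f X) →
      (∀ X, X ⊆ S → ∀ p ∈ S, ∀ q, q ∈ f (insert p X) → q ∉ f X → p ∈ f (insert q X)) →
      (∀ Y, Y ⊆ S → ∀ p ∈ f Y, ∃ U : Set α,
          Minimal (fun W : Set α => W ⊆ Y ∧ p ∈ f W) U ∧
          ∀ x ∈ U, x ∉ f (U \ {x})) →
      (∀ Y, Y ⊆ S → ∀ p ∈ S, p ∉ f Y → ∃ V : Set α,
          Maximal (fun W : Set α => Y ⊆ W ∧ W ⊆ S ∧ p ∉ f W) V ∧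
          f (insert p V) = S) →
      ∃ M : Matroid α, M.E = S ∧ ∀ X, X ⊆ S → M.closure X = f X) := by
  intro H
  obtain ⟨f, hext, hmono, hidem, hex, hC, hH, I, X, hIX, hI, hgap⟩ :=
    Pool.Agent.Work.MP_766cb7_co.exists_operator (id : ℕ × Fin 3 → ℕ × Fin 3)
      Function.injective_id
  have h1 : ∀ X : Set (ℕ × Fin 3), X ⊆ Set.univ → ∀ p ∈ (Set.univ : Set (ℕ × Fin 3)), ∀ q,
      q ∈ f (insert p X) → q ∉ f X → p ∈ f (insert q X) := by
    intro X _ p _ q hq hq'
    by_cases hp : p ∈ X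
    · rw [Set.insert_eq_of_mem hp] at hq
      exact absurd hq hq'
    · have hd : insert p X \ {p} = X := by
        ext x
        simp only [Set.mem_sdiff, Set.mem_insert_iff, Set.mem_singleton_iff]
        constructor
        · rintro ⟨h | h, h'⟩
          · exact absurd h h'
          · exact h
        · intro h
          exact ⟨Or.inr h, fun h' => hp (h' ▸ h)⟩
      obtain ⟨a, ha, ha'⟩ := hex {p} (insert p X) q hq (by rwa [hd])
      rw [Set.mem_singleton_iff] at ha
      subst ha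
      rwa [hd] at ha'
  have h2 : ∀ Y : Set (ℕ × Fin 3), Y ⊆ Set.univ → ∀ p ∈ (Set.univ : Set (ℕ × Fin 3)), p ∉ f Y →
      ∃ V : Set (ℕ × Fin 3), Maximal (fun W : Set (ℕ × Fin 3) => Y ⊆ W ∧ W ⊆ Set.univ ∧ p ∉ f W) V ∧
          f (insert p V) = Set.univ := by
    intro Y _ p _ hp
    obtain ⟨V, hV, hV'⟩ := hH Y p hp
    refine ⟨V, ?_, hV'⟩
    simpa using hV
  obtain ⟨M, hME, hM⟩ := H (ℕ × Fin 3) Set.univ f (fun _ _ => Set.subset_univ _)
    (fun X _ => hext X) (fun X Y hXY _ => hmono X Y hXY) (fun X _ => hidem X) h1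
    (fun Y _ p hp => hC Y p hp) h2
  have hcl : ∀ X, M.closure X = f X := fun X => hM X (Set.subset_univ _)
  have hIindep : M.Indep I := by
    rw [Matroid.indep_iff_forall_notMem_closure_sdiff (by rw [hME]; exact Set.subset_univ _)]
    intro x hx
    rw [hcl, hI _ Set.sdiff_subset]
    exact fun h => h.2 rfl
  obtain ⟨J, hJ, hIJ⟩ := hIindep.subset_isBasis_of_subset hIX
    (by rw [hME]; exact Set.subset_univ _)
  have hJX : J ⊆ X := hJ.subset
  rcases hgap J hIJ hJX with ⟨x, hx, hx'⟩ | ⟨hfix, x, hxX, hxJ⟩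
  · rw [← hcl] at hx'
    exact (Matroid.indep_iff_forall_notMem_closure_sdiff
      (by rw [hME]; exact Set.subset_univ _)).1 hJ.indep hx hx'
  · apply hxJ
    rw [← hfix, ← hcl, hJ.closure_eq_closure, hcl]
    exact hext X hxX

end Pool.Agent.S09566
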