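import Pool.Statements.S09604
import Mathlib

set_option autoImplicit false
open Pool Pool.MP_7836df_co

namespace Pool.Agent.S09604

/-!
Counterexample for `k = t = 2`, `s = 4`.

The nine parts are the points of the affine plane `AG(2,3)`; the point `(a,b)` has index `3a+b`.
The colour of an edge between two different parts is the parallel class of the line through the
two points, and the colour of an edge inside the part `p` is `inner p`.  The parts have sizes
proportional to `13, 3, 1, 15, 5, 1, 1, 1, 3`.
Each monochromatic cycle lives inside one of the twelve lines.  For each choice of four lines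
there is a set `I` of parts whose neighbourhood in these lines is lighter than `I`.
-/

/-- first coordinate, second coordinate, sum, difference. -/
def val (c : Fin 4) (p : Fin 9) : ℕ :=
  match c with
  | 0 => p.val / 3
  | 1 => p.val % 3
  | 2 => (p.val / 3 + p.val % 3) % 3
  | 3 => (p.val / 3 + 2 * (p.val % 3)) % 3

/-- colour of the edges inside part `p`. -/
def inner (p : Fin 9) : Fin 4 :=
  match p with
  | 0 => 2 | 1 => 2 | 2 => 1 | 3 => 3 | 4 => 3 | 5 => 2 | 6 => 2 | 7 => 1 | 8 => 2

/-- colour of an edge between the parts `p` and `q`. -/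
def colr (p q : Fin 9) : Fin 4 :=
  if p = q then inner p
  else if val 0 p = val 0 q then 0
  else if val 1 p = val 1 q then 1
  else if val 2 p = val 2 q then 2
  else 3

/-- index (in `0..11`) of the line of class `c` through `p`. -/
def comp (c : Fin 4) (p : Fin 9) : ℕ := 3 * c.val + val c p

/-- relative sizes of the parts. -/
def wt (p : Fin 9) : ℕ :=
  match p with
  | 0 => 13 | 1 => 3 | 2 => 1 | 3 => 15 | 4 => 5 | 5 => 1 | 6 => 1 | 7 => 1 | 8 => 3

/-- the part to which block `b` belongs. -/
def part (b : Fin 43) : Fin 9 :=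
  if b.val < 13 then 0 else if b.val < 16 then 1 else if b.val < 17 then 2
  else if b.val < 32 then 3 else if b.val < 37 then 4 else if b.val < 38 then 5
  else if b.val < 39 then 6 else if b.val < 40 then 7 else 8

lemma colr_comm : ∀ p q : Fin 9, colr p q = colr q p := by decide +kernel

lemma comp_eq : ∀ p q : Fin 9, comp (colr p q) p = comp (colr p q) q := by decide +kernel

lemma comp_lt : ∀ (c : Fin 4) (p : Fin 9), comp c p < 12 := by decide +kernel

/-- the seven certificate sets, as bit masks. -/
def cert (i : Fin 7) : ℕ :=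
  match i with
  | 0 => 511 | 1 => 8 | 2 => 1 | 3 => 16 | 4 => 2 | 5 => 256 | 6 => 17

/-- the neighbourhoods of the certificate sets in the twelve lines, as bit masks. -/
def nbTable : List (List ℕ) :=
  [[7, 0, 6, 0, 5, 0, 6], [56, 48, 0, 40, 0, 0, 40], [448, 0, 0, 0, 0, 192, 0],
   [73, 65, 72, 0, 0, 0, 72], [146, 0, 0, 130, 144, 0, 130], [292, 0, 0, 0, 0, 36, 0],
   [161, 0, 161, 0, 0, 0, 161], [266, 258, 0, 0, 266, 266, 0], [84, 0, 0, 68, 0, 0, 68],
   [273, 0, 272, 273, 0, 17, 273], [140, 140, 0, 0, 0, 0, 0], [98, 0, 0, 0, 96, 0, 0]]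

def nb (D : ℕ) (i : Fin 7) : ℕ := (nbTable.getD D []).getD i.val 0

/-- the total weight of a bit mask. -/
def wmask (m : ℕ) : ℕ := ∑ q : Fin 9, if m.testBit q.val then wt q else 0

def wmask' (m : ℕ) : ℕ :=
  (if m.testBit 0 then 13 else 0) + (if m.testBit 1 then 3 else 0) +
  (if m.testBit 2 then 1 else 0) + (if m.testBit 3 then 15 else 0) +
  (if m.testBit 4 then 5 else 0) + (if m.testBit 5 then 1 else 0) +
  (if m.testBit 6 then 1 else 0) + (if m.testBit 7 then 1 else 0) +
  (if m.testBit 8 then 3 else 0)

lemma wmask_eq (m : ℕ) : wmask m = wmask' m := by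
  simp [wmask, wmask', Fin.sum_univ_succ, wt]
  ring

lemma nb_spec : ∀ (i : Fin 7) (p q : Fin 9), (cert i).testBit p.val = true →
    (nb (comp (colr p q) p) i).testBit q.val = true := by
  decide +kernel

lemma wmask_lt_of_ne : ∀ m < 512, m ≠ 511 → wmask' m < 43 := by decide +kernel

lemma nb_lt : ∀ a < 12, nb a 0 < 512 := by decide +kernel

def check4 (a b c d : ℕ) : Bool :=
  (Nat.beq (nb a 0 ||| nb b 0 ||| nb c 0 ||| nb d 0) 511).not ||
  [1, 2, 3, 4, 5, 6].any fun i : Fin 7 =>
    Nat.blt (wmask' (nb a i ||| nb b i ||| nb c i ||| nb d i)) (wmask' (cert i))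

lemma check_all : ∀ a < 12, ∀ b < 12, ∀ c < 12, ∀ d < 12, check4 a b c d = true := by
  decide +kernel

lemma check_spec (a b c d : ℕ) (ha : a < 12) (hb : b < 12) (hc : c < 12) (hd : d < 12) :
    ∃ i : Fin 7, wmask (nb a i ||| nb b i ||| nb c i ||| nb d i) < wmask (cert i) := by
  have h := check_all a ha b hb c hc d hd
  simp only [wmask_eq]
  unfold check4 at h
  rw [Bool.or_eq_true] at h
  rcases h with h | h
  · refine ⟨0, ?_⟩
    have h1 : nb a 0 ||| nb b 0 ||| nb c 0 ||| nb d 0 < 2 ^ 9 := by
      refine Nat.or_lt_two_pow (Nat.or_lt_two_pow (Nat.or_lt_two_pow ?_ ?_) ?_) ?_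
      · exact nb_lt a ha
      · exact nb_lt b hb
      · exact nb_lt c hc
      · exact nb_lt d hd
    have h2 : nb a 0 ||| nb b 0 ||| nb c 0 ||| nb d 0 ≠ 511 := by
      intro h3
      rw [h3] at h
      exact absurd h (by decide)
    have h4 := wmask_lt_of_ne _ h1 h2
    have h5 : wmask' (cert 0) = 43 := by decide +kernel
    omega
  · rw [List.any_eq_true] at h
    obtain ⟨i, _, hi⟩ := h
    exact ⟨i, by simpa [Nat.blt_eq] using hi⟩

open Finset

/-- A closed walk that visits distinct vertices meets `I` at most as often as the set `N` of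
possible successors of `I`, up to an error of one vertex for degenerate cycles. -/
lemma cycle_count {n : ℕ} (A B : Fin n → Prop) [DecidablePred A] [DecidablePred B]
    (ℓ : ℕ) (v : ℕ → Fin n) (hinj : Set.InjOn v (Set.Iio ℓ)) (hper : v ℓ = v 0)
    (h : 2 ≤ ℓ → ∀ i < ℓ, A (v i) → B (v (i + 1))) :
    (((range ℓ).image v).filter A).card ≤ (((range ℓ).image v).filter B).card + 1 := by
  by_cases hl : 2 ≤ ℓ
  · have key : (((range ℓ).image v).filter A).card ≤ (((range ℓ).image v).filter B).card := by
      have hinj' : Set.InjOn v (range ℓ : Set ℕ) := by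
        intro a ha b hb hab
        exact hinj (by simpa using ha) (by simpa using hb) hab
      rw [filter_image, filter_image]
      rw [card_image_of_injOn (hinj'.mono (by intro x hx; simp at hx ⊢; exact hx.1)),
        card_image_of_injOn (hinj'.mono (by intro x hx; simp at hx ⊢; exact hx.1))]
      refine card_le_card_of_injOn (fun i => if i + 1 = ℓ then 0 else i + 1) ?_ ?_
      · intro i hi
        simp only [coe_filter, mem_range, Set.mem_ofPred_eq] at hi ⊢
        have h1 := h hl i hi.1 hi.2
        by_cases h2 : i + 1 = ℓ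
        · rw [h2, hper] at h1
          simp only [h2, if_true]
          exact ⟨by omega, h1⟩
        · simp only [h2, if_false]
          exact ⟨by omega, h1⟩
      · intro i hi j hj hij
        simp only [coe_filter, mem_range, Set.mem_ofPred_eq] at hi hj
        dsimp only at hij
        split_ifs at hij <;> omega
    omega
  · have h1 : (((range ℓ).image v).filter A).card ≤ 1 := by
      calc _ ≤ ((range ℓ).image v).card := card_filter_le _ _
        _ ≤ (range ℓ).card := card_image_le
        _ ≤ 1 := by rw [card_range]; omega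
    omega

/-- part of a vertex of `Fin (43 * N)`. -/
def P (N : ℕ) (a : Fin (43 * N)) : Fin 9 := part (finProdFinEquiv.symm a).1

/-- bit mask membership of a vertex. -/
def inMask (N m : ℕ) (a : Fin (43 * N)) : Prop := m.testBit (P N a).val = true

instance (N m : ℕ) : DecidablePred (inMask N m) := fun a => by unfold inMask; infer_instance

lemma part_card : ∀ q : Fin 9, (univ.filter (fun b : Fin 43 => part b = q)).card = wt q := by
  decide +kernel

lemma card_blocks (m : ℕ) :
    (univ.filter (fun b : Fin 43 => m.testBit (part b).val = true)).card = wmask m := by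
  have h : (univ.filter (fun b : Fin 43 => m.testBit (part b).val = true)) =
      (univ.filter (fun q : Fin 9 => m.testBit q.val = true)).biUnion
        (fun q => univ.filter (fun b : Fin 43 => part b = q)) := by
    ext b
    simp
  rw [h, card_biUnion]
  · unfold wmask
    rw [sum_filter]
    refine sum_congr rfl fun q _ => ?_
    split_ifs
    · exact part_card q
    · rfl
  · intro p _ q _ hpq
    rw [Function.onFun, disjoint_left]
    intro b hb hb'
    simp at hb hb'
    exact hpq (hb.symm.trans hb')

lemma card_inMask (N m : ℕ) :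
    (univ.filter (inMask N m)).card = wmask m * N := by
  have h : (univ.filter (inMask N m)) =
      ((univ.filter (fun b : Fin 43 => m.testBit (part b).val = true)) ×ˢ
        (univ : Finset (Fin N))).map finProdFinEquiv.toEmbedding := by
    ext a
    simp only [mem_filter, mem_univ, true_and, mem_map_equiv, mem_product, and_true]
    rfl
  rw [h, card_map, card_product, card_blocks, card_univ, Fintype.card_fin]

/-- the colouring. -/
def chi (N : ℕ) (e : Finset (Fin (43 * N))) : Fin 4 :=
  if h : e.Nonempty then colr (P N (e.min' h)) (P N (e.max' h)) else 0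

lemma chi_pair (N : ℕ) (a b : Fin (43 * N)) : chi N {a, b} = colr (P N a) (P N b) := by
  have hne : ({a, b} : Finset (Fin (43 * N))).Nonempty := ⟨a, by simp⟩
  unfold chi
  rw [dif_pos hne]
  rcases le_total a b with hab | hab
  · have h1 : ({a, b} : Finset (Fin (43 * N))).min' hne = a := by
      apply le_antisymm
      · exact min'_le _ _ (by simp)
      · refine le_min' _ _ _ fun y hy => ?_
        simp at hy
        rcases hy with rfl | rfl
        · exact le_rfl
        · exact hab
    have h2 : ({a, b} : Finset (Fin (43 * N))).max' hne = b := by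
      apply le_antisymm
      · refine max'_le _ _ _ fun y hy => ?_
        simp at hy
        rcases hy with rfl | rfl
        · exact hab
        · exact le_rfl
      · exact le_max' _ _ (by simp)
    rw [h1, h2]
  · have h1 : ({a, b} : Finset (Fin (43 * N))).min' hne = b := by
      apply le_antisymm
      · exact min'_le _ _ (by simp)
      · refine le_min' _ _ _ fun y hy => ?_
        simp at hy
        rcases hy with rfl | rfl
        · exact hab
        · exact le_rfl
    have h2 : ({a, b} : Finset (Fin (43 * N))).max' hne = a := by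
      apply le_antisymm
      · refine max'_le _ _ _ fun y hy => ?_
        simp at hy
        rcases hy with rfl | rfl
        · exact le_rfl
        · exact hab
      · exact le_max' _ _ (by simp)
    rw [h1, h2, colr_comm]

/-- Each monochromatic cycle lives in one of the twelve lines. -/
lemma cycle_line (N : ℕ) (ℓ : ℕ) (v : ℕ → Fin (43 * N)) (e : ℕ → Finset (Fin (43 * N)))
    (col : Fin 4) (hinj : Set.InjOn v (Set.Iio ℓ)) (hper : ∀ i, v (i + ℓ) = v i)
    (he : ∀ i : ℕ, i < ℓ → (e i).card = 2 ∧ chi N (e i) = col ∧
      ∀ p : ℕ, p < 2 → v (i + p) ∈ e i) (hl : 2 ≤ ℓ) :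
    ∀ i < ℓ, colr (P N (v i)) (P N (v (i + 1))) = col ∧
      comp col (P N (v i)) = comp col (P N (v 0)) := by
  have hcol : ∀ i < ℓ, colr (P N (v i)) (P N (v (i + 1))) = col := by
    intro i hi
    obtain ⟨h1, h2, h3⟩ := he i hi
    have ha := h3 0 (by omega)
    have hb := h3 1 (by omega)
    rw [add_zero] at ha
    have hne : v i ≠ v (i + 1) := by
      intro heq
      by_cases hlast : i + 1 = ℓ
      · have h0 : v ℓ = v 0 := by simpa using hper 0
        rw [hlast, h0] at heq
        have := hinj (Set.mem_Iio.2 hi) (Set.mem_Iio.2 (by omega)) heq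
        omega
      · have := hinj (Set.mem_Iio.2 hi) (Set.mem_Iio.2 (by omega)) heq
        omega
    have hsub : ({v i, v (i + 1)} : Finset (Fin (43 * N))) = e i := by
      apply eq_of_subset_of_card_le
      · intro x hx
        simp at hx
        rcases hx with rfl | rfl
        · exact ha
        · exact hb
      · rw [h1, card_pair hne]
    rw [← h2, ← hsub, chi_pair]
  intro i
  induction i with
  | zero => intro hi; exact ⟨hcol 0 hi, rfl⟩
  | succ i ih =>
    intro hi
    refine ⟨hcol _ hi, ?_⟩
    have h1 := ih (by omega)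
    have h2 := comp_eq (P N (v i)) (P N (v (i + 1)))
    rw [h1.1] at h2
    rw [← h2]
    exact h1.2

theorem main4 (c N : ℕ) (hN : c + 5 ≤ N) (m : ℕ) (hm : m ≤ 4)
    (C : Fin m → Finset (Fin (43 * N)))
    (hC : ∀ j : Fin m, ∃ (ℓ : ℕ) (v : ℕ → Fin (43 * N))
      (e : ℕ → Finset (Fin (43 * N))) (col : Fin 4),
              Set.InjOn v (Set.Iio ℓ) ∧ Set.InjOn e (Set.Iio ℓ) ∧
              (∀ i : ℕ, v (i + ℓ) = v i) ∧
              (∀ i : ℕ, i < ℓ →
                (e i).card = 2 ∧ chi N (e i) = col ∧
                  ∀ p : ℕ, p < 2 → v (i + p) ∈ e i) ∧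
              C j = (Finset.range ℓ).image v)
    (hdisj : ∀ i j : Fin m, i ≠ j → Disjoint (C i) (C j)) :
    c < (Finset.univ \ Finset.univ.biUnion C).card := by
  -- the line of each cycle
  have hline : ∀ j : Fin m, ∃ D < 12, ∀ i : Fin 7,
      ((C j).filter (inMask N (cert i))).card ≤ ((C j).filter (inMask N (nb D i))).card + 1 := by
    intro j
    obtain ⟨ℓ, v, e, col, hinj, -, hper, he, hCj⟩ := hC j
    refine ⟨comp col (P N (v 0)), comp_lt _ _, fun i => ?_⟩
    rw [hCj]
    refine cycle_count _ _ ℓ v hinj (by simpa using hper 0) ?_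
    intro hl k hk hA
    have h1 := cycle_line N ℓ v e col hinj hper he hl k hk
    have h2 := nb_spec i (P N (v k)) (P N (v (k + 1))) hA
    rw [h1.1, h1.2] at h2
    exact h2
  choose D hD hDC using hline
  -- pad to four lines
  let D' : ℕ → ℕ := fun i => if h : i < m then D ⟨i, h⟩ else 0
  have hD' : ∀ i, D' i < 12 := by
    intro i
    simp only [D']
    split_ifs
    · exact hD _
    · norm_num
  obtain ⟨i, hi⟩ := check_spec (D' 0) (D' 1) (D' 2) (D' 3) (hD' 0) (hD' 1) (hD' 2) (hD' 3)
  set M := nb (D' 0) i ||| nb (D' 1) i ||| nb (D' 2) i ||| nb (D' 3) i with hM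
  have hsub : ∀ j : Fin m, ∀ a, inMask N (nb (D j) i) a → inMask N M a := by
    intro j a ha
    unfold inMask at ha ⊢
    rw [hM]
    simp only [Nat.testBit_or, Bool.or_eq_true]
    have hj : D' j.val = D j := by simp [D']
    have hj4 : j.val < 4 := lt_of_lt_of_le j.isLt hm
    rw [← hj] at ha
    have h4 : j.val = 0 ∨ j.val = 1 ∨ j.val = 2 ∨ j.val = 3 := by omega
    rcases h4 with h | h | h | h <;> rw [h] at ha <;> simp [ha]
  -- counting
  have hcount : ∀ j : Fin m,
      ((C j).filter (inMask N (cert i))).card ≤ ((C j).filter (inMask N M)).card + 1 := by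
    intro j
    refine (hDC j i).trans ?_
    gcongr
    rename_i a _
    exact hsub j a
  have hU : ∀ (Q : Fin (43 * N) → Prop) [DecidablePred Q],
      ((univ.biUnion C).filter Q).card = ∑ j : Fin m, ((C j).filter Q).card := by
    intro Q _
    rw [filter_biUnion, card_biUnion]
    intro a _ b _ hab
    exact disjoint_filter_filter (hdisj a b hab)
  have h1 : ((univ.biUnion C).filter (inMask N (cert i))).card ≤ wmask M * N + 4 := by
    rw [hU]
    calc ∑ j : Fin m, ((C j).filter (inMask N (cert i))).card
        ≤ ∑ j : Fin m, (((C j).filter (inMask N M)).card + 1) := sum_le_sum fun j _ => hcount j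
      _ = (∑ j : Fin m, ((C j).filter (inMask N M)).card) + m := by
          rw [sum_add_distrib]; simp
      _ = ((univ.biUnion C).filter (inMask N M)).card + m := by rw [hU]
      _ ≤ (univ.filter (inMask N M)).card + 4 := by
          gcongr
          exact subset_univ _
      _ = wmask M * N + 4 := by rw [card_inMask]
  have h2 : (univ.filter (inMask N (cert i))).card ≤
      ((univ.biUnion C).filter (inMask N (cert i))).card +
        (Finset.univ \ Finset.univ.biUnion C).card := by
    calc (univ.filter (inMask N (cert i))).card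
        ≤ ((univ.biUnion C).filter (inMask N (cert i)) ∪ (univ \ univ.biUnion C)).card := by
          apply card_le_card
          intro a ha
          simp only [mem_union, mem_filter, mem_sdiff, mem_univ, true_and] at ha ⊢
          tauto
      _ ≤ _ := card_union_le _ _
  rw [card_inMask] at h2
  have h3 : (wmask M + 1) * N ≤ wmask (cert i) * N := Nat.mul_le_mul_right _ hi
  rw [add_mul, one_mul] at h3
  omega

/-- The negation of the preceding statement: For k≥t≥2 there is c such that every s(k−t+1)-colouring of the k-sets of an n-set admits at most s monochromatic t-tight Berge-cycles with pairwise disjoint cores covering all but at most c vertices. -/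
theorem result :
    ¬ (∀ s k t : ℕ, 2 ≤ t → t ≤ k → ∃ c : ℕ, ∀ n : ℕ,
      ∀ χ : Finset (Fin n) → Fin (s * (k - t + 1)),
        ∃ m : ℕ, m ≤ s ∧ ∃ C : Fin m → Finset (Fin n),
          (∀ j : Fin m, ∃ (ℓ : ℕ) (v : ℕ → Fin n) (e : ℕ → Finset (Fin n))
              (col : Fin (s * (k - t + 1))),
              Set.InjOn v (Set.Iio ℓ) ∧ Set.InjOn e (Set.Iio ℓ) ∧
              (∀ i : ℕ, v (i + ℓ) = v i) ∧
              (∀ i : ℕ, i < ℓ →
                (e i).card = k ∧ χ (e i) = col ∧ ∀ p : ℕ, p < t → v (i + p) ∈ e i) ∧
              C j = (Finset.range ℓ).image v) ∧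
          (∀ i j : Fin m, i ≠ j → Disjoint (C i) (C j)) ∧
          (Finset.univ \ Finset.univ.biUnion C).card ≤ c) := by
  intro H
  obtain ⟨c, hc⟩ := H 4 2 2 le_rfl le_rfl
  obtain ⟨m, hm, C, hC, hdisj, hcard⟩ := hc (43 * (c + 5)) (chi (c + 5))
  have := main4 c (c + 5) le_rfl m hm C hC hdisj
  omega

end Pool.Agent.S09604
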