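import Pool.Statements.S10122
-- import your own Pool.Agent.* helpers here

set_option autoImplicit false
open Pool Pool.MP_908e85_co

namespace Pool.Agent.S10122

/-- Bases of the rank four matroid `M(K₄) ⊕ U_{1,1}` on seven elements: `0,...,5` are the edges
`12, 13, 23, 34, 24, 14` of `K₄` and `6` is a coloop. A base is a spanning tree of `K₄` with `6`. -/
def goodSet (T : Finset (Fin 7)) : Prop :=
  T.card = 4 ∧ 6 ∈ T ∧ ¬ ({0, 1, 2} ⊆ T) ∧ ¬ ({0, 4, 5} ⊆ T) ∧ ¬ ({1, 3, 5} ⊆ T) ∧
    ¬ ({2, 3, 4} ⊆ T)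

instance (T : Finset (Fin 7)) : Decidable (goodSet T) := by
  unfold goodSet; infer_instance

/-- The base predicate on sets. -/
def isB (S : Set (Fin 7)) : Prop := ∃ T : Finset (Fin 7), (T : Set (Fin 7)) = S ∧ goodSet T

theorem isB_coe (T : Finset (Fin 7)) : isB (T : Set (Fin 7)) ↔ goodSet T := by
  constructor
  · rintro ⟨T', h, hT'⟩
    have : T' = T := by exact_mod_cast h
    exact this ▸ hT'
  · intro h
    exact ⟨T, rfl, h⟩

/-- All good sets, listed. -/
theorem exch_fin : ∀ X : Finset (Fin 7), goodSet X → ∀ Y : Finset (Fin 7), goodSet Y →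
    ∀ a ∈ X \ Y, ∃ b ∈ Y \ X, goodSet (insert b (X \ {a})) := by
  decide +kernel

/-- The matroid `M(K₄) ⊕ U_{1,1}`. -/
noncomputable def N : Matroid (Fin 7) :=
  Matroid.ofIsBaseOfFinite (E := Set.univ) Set.finite_univ isB
    ⟨(({0, 1, 3, 6} : Finset (Fin 7)) : Set (Fin 7)), (isB_coe _).2 (by decide)⟩
    (by
      rintro S S' ⟨X, rfl, hX⟩ ⟨Y, rfl, hY⟩ a ha
      have ha' : a ∈ X \ Y := by
        simpa using ha
      obtain ⟨b, hb, hgood⟩ := exch_fin X hX Y hY a ha'
      refine ⟨b, by simpa using hb, ?_⟩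
      refine ⟨insert b (X \ {a}), ?_, hgood⟩
      push_cast
      rfl)
    (fun B _ => Set.subset_univ B)

theorem N_isBase (T : Finset (Fin 7)) : N.IsBase (T : Set (Fin 7)) ↔ goodSet T := by
  rw [← isB_coe]
  rfl

theorem N_E : N.E = Set.univ := rfl

/-- Labels of the sixteen elements; element `4 * i + j` is the `j`-th element of the `i`-th row. -/
def lab : Fin 16 → Fin 7 := ![0, 3, 3, 3, 1, 4, 4, 4, 2, 5, 5, 5, 6, 6, 6, 6]

theorem lab_surj : Function.Surjective lab := by decide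

/-- The matroid on sixteen elements. -/
noncomputable def M : Matroid (Fin 16) := N.comap lab

theorem M_isBase (T : Finset (Fin 16)) :
    M.IsBase (T : Set (Fin 16)) ↔ goodSet (T.image lab) ∧ (T.image lab).card = T.card := by
  unfold M
  rw [Matroid.comap_isBase_iff, N_E, Set.preimage_univ, Set.image_univ,
    Set.range_eq_univ.2 lab_surj, ← N_E, Matroid.isBasis_ground_iff, ← Finset.coe_image, N_isBase,
    Finset.card_image_iff]
  simp

/-- The rows. -/
def F : Fin 4 → Finset (Fin 16) :=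
  ![{0, 1, 2, 3}, {4, 5, 6, 7}, {8, 9, 10, 11}, {12, 13, 14, 15}]

/-- The bases. -/
def B : Fin 4 → Finset (Fin 16) :=
  ![{1, 5, 9, 12}, {2, 6, 10, 13}, {0, 8, 3, 14}, {4, 11, 7, 15}]

/-- Parity of a transversal base: it contains an even number of the edges `12, 13, 23`. -/
theorem parity : ∀ a ∈ F 0, ∀ b ∈ F 1, ∀ c ∈ F 2, ∀ d ∈ F 3,
    goodSet (({a, b, c, d} : Finset (Fin 16)).image lab) →
    ((if a = 0 then 1 else 0) + (if b = 4 then 1 else 0) + (if c = 8 then 1 else 0) : ℕ) % 2 = 0 := by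
  decide +kernel

theorem count_one (i : Fin 4) (x : Fin 16) (hx : x ∈ F i) (σ : Fin 4 → Fin 16)
    (hσ : Function.Injective σ) (hF : ∀ j, σ j ∈ F i) :
    ∑ j, (if σ j = x then 1 else 0 : ℕ) = 1 := by
  have hcard : (F i).card = 4 := by
    have : ∀ i, (F i).card = 4 := by decide
    exact this i
  have himg : Finset.univ.image σ = F i := by
    apply Finset.eq_of_subset_of_card_le
    · intro y hy
      obtain ⟨j, -, rfl⟩ := Finset.mem_image.1 hy
      exact hF j
    · rw [hcard, Finset.card_image_of_injective _ hσ]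
      simp
  have hx' : x ∈ Finset.univ.image σ := himg ▸ hx
  obtain ⟨j0, -, rfl⟩ := Finset.mem_image.1 hx'
  simp [hσ.eq_iff]

theorem result :
    ¬ (∀ (α : Type) (M : Matroid α) (k : ℕ), Even k →
      ∀ (F B : Fin k → Finset α),
        (∀ i, M.IsBase (↑(B i) : Set α)) →
        (∀ i, (B i).card = k) →
        (∀ i, (F i).card = k) →
        (∑ i, (F i).val = ∑ i, (B i).val) →
        ∃ σ : Fin k → Fin k → α,
          (∀ i, Function.Injective (σ i) ∧ ∀ j, σ i j ∈ F i) ∧
          (∀ j, Function.Injective (fun i => σ i j) ∧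
            M.IsBase (Set.range (fun i => σ i j)))) := by
  intro h
  obtain ⟨σ, h1, h2⟩ := h (Fin 16) M 4 (by decide) F B
    (by
      intro i
      rw [M_isBase]
      revert i
      decide)
    (by decide) (by decide) (by decide)
  have hcol : ∀ j, ((if σ 0 j = 0 then 1 else 0) + (if σ 1 j = 4 then 1 else 0) +
      (if σ 2 j = 8 then 1 else 0) : ℕ) % 2 = 0 := by
    intro j
    have hb := (h2 j).2
    have hr : (Set.range (fun i => σ i j)) =
        (({σ 0 j, σ 1 j, σ 2 j, σ 3 j} : Finset (Fin 16)) : Set (Fin 16)) := by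
      ext x
      simp [Fin.exists_fin_succ, eq_comm]
    rw [hr, M_isBase] at hb
    exact parity _ ((h1 0).2 j) _ ((h1 1).2 j) _ ((h1 2).2 j) _ ((h1 3).2 j) hb.1
  have hs0 := count_one 0 0 (by decide) (σ 0) (h1 0).1 (h1 0).2
  have hs1 := count_one 1 4 (by decide) (σ 1) (h1 1).1 (h1 1).2
  have hs2 := count_one 2 8 (by decide) (σ 2) (h1 2).1 (h1 2).2
  have hc0 := hcol 0
  have hc1 := hcol 1
  have hc2 := hcol 2
  have hc3 := hcol 3
  simp only [Fin.sum_univ_four] at hs0 hs1 hs2
  omega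

end Pool.Agent.S10122
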