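import Pool.Statements.S10295
import Pool.Agent.Work.MP_97f5de_co.Count

set_option autoImplicit false
open Pool Pool.MP_97f5de_co

namespace Pool.Agent.S10295

open Pool.Agent.Work.MP_97f5de_co

/-- There is an edge-ordered forest F with an edge such that every edge-ordering of some bipartite graph contains F, yet for every C there are arbitrarily large n with an F-free edge-ordered n-vertex graph having more than C·n·log n edges. -/
theorem result :
    ∃ k : ℕ, ∃ F : SimpleGraph (Fin k), ∃ f : Sym2 (Fin k) → ℕ,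
      F.IsAcyclic ∧ Set.InjOn f F.edgeSet ∧ F.edgeSet.Nonempty ∧
      (∃ m : ℕ, ∃ H : SimpleGraph (Fin m), H.Colorable 2 ∧
        ∀ h : Sym2 (Fin m) → ℕ, Set.InjOn h H.edgeSet →
          ∃ φ : Fin k → Fin m, Function.Injective φ ∧
            (∀ u v : Fin k, F.Adj u v → H.Adj (φ u) (φ v)) ∧
            ∀ e₁ ∈ F.edgeSet, ∀ e₂ ∈ F.edgeSet,
              f e₁ < f e₂ → h (Sym2.map φ e₁) < h (Sym2.map φ e₂)) ∧
      ∀ C : ℝ, ∀ N : ℕ, ∃ n : ℕ, N ≤ n ∧
        ∃ G : SimpleGraph (Fin n), ∃ g : Sym2 (Fin n) → ℕ,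
          Set.InjOn g G.edgeSet ∧
          (¬ ∃ φ : Fin k → Fin n, Function.Injective φ ∧
              (∀ u v : Fin k, F.Adj u v → G.Adj (φ u) (φ v)) ∧
              ∀ e₁ ∈ F.edgeSet, ∀ e₂ ∈ F.edgeSet,
                f e₁ < f e₂ → g (Sym2.map φ e₁) < g (Sym2.map φ e₂)) ∧
          C * (n : ℝ) * Real.log (n : ℝ) < (G.edgeSet.ncard : ℝ) := by
  refine ⟨7, P7, rk, P7_acyclic, rk_injOn, ⟨_, edge_mem 0⟩, contained, ?_⟩
  intro C N0
  obtain ⟨k, N, W, hN, hE⟩ := many_edges C N0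
  obtain ⟨G, g, h1, h2, h3⟩ := transport (G0 k N W) g0 g0_injOn free0
  refine ⟨_, hN, G, g, h1, h2, ?_⟩
  rw [h3]
  exact hE

end Pool.Agent.S10295
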