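import Pool.Statements.S10350
import Pool.Agent.Work.MP_9a9e71_co.LinearRanks

set_option autoImplicit false
open Pool Pool.MP_9a9e71_co

namespace Pool.Agent.S10350

open Pool.Agent.Work.MP_9a9e71_co

/-- The negation of the preceding statement: There is a function f with f(n)/n → 0 such that every non-null finite simple graph on n vertices with vertex-primitive automorphism group has at most f(n) distinct image sizes among its endomorphisms. -/
theorem result :
    ¬ (∃ f : ℕ → ℕ,
      Filter.Tendsto (fun n : ℕ => (f n : ℝ) / (n : ℝ)) Filter.atTop (nhds 0) ∧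
      ∀ (n : ℕ) (G : SimpleGraph (Fin n)), G ≠ ⊥ →
        (∀ x y : Fin n, ∃ φ : G ≃g G, φ x = y) →
        (∀ B : Set (Fin n),
          (∀ φ : G ≃g G, (⇑φ) '' B = B ∨ Disjoint ((⇑φ) '' B) B) →
            B.Subsingleton ∨ B = Set.univ) →
        (Set.range (fun φ : G →g G => (Set.range (⇑φ)).ncard)).ncard ≤ f n) := by
  rintro ⟨f, hf, H⟩
  -- the graph on `Fin (9 ^ (N + 4))`
  have main : ∀ N : ℕ, 9 ^ (N + 4) ≤ 324 * f (9 ^ (N + 4)) := by
    intro N
    have hc : Fintype.card (V (N + 4)) = 9 ^ (N + 4) := card_V (N + 4)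
    set G : SimpleGraph (Fin (9 ^ (N + 4))) := (Gam (N + 4)).overFin hc with hG
    let e : Gam (N + 4) ≃g G := (Gam (N + 4)).overFinIso hc
    have hbot : G ≠ ⊥ := by
      intro h
      apply Gam_ne_bot (N + 3)
      ext x y
      simp only [SimpleGraph.bot_adj, iff_false]
      intro hxy
      have h1 : G.Adj (e x) (e y) := e.map_rel_iff.mpr hxy
      have h2 : ∀ a b, ¬ G.Adj a b := by
        rw [h]
        intro a b hab
        exact hab
      exact h2 _ _ h1
    have htrans : ∀ x y : Fin (9 ^ (N + 4)), ∃ φ : G ≃g G, φ x = y := by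
      intro x y
      obtain ⟨φ, hφ⟩ := transitive_Gam (N + 4) (e.symm x) (e.symm y)
      refine ⟨(e.symm.trans φ).trans e, ?_⟩
      show e (φ (e.symm x)) = y
      rw [hφ]
      simp
    have hprim : ∀ B : Set (Fin (9 ^ (N + 4))),
        (∀ φ : G ≃g G, (⇑φ) '' B = B ∨ Disjoint ((⇑φ) '' B) B) →
          B.Subsingleton ∨ B = Set.univ := by
      intro B hB
      have h1 := block_Gam (N + 4) (e ⁻¹' B) (by
        intro φ
        have h2 := hB ((e.symm.trans φ).trans e)
        have h3 : (⇑((e.symm.trans φ).trans e)) '' B = e '' (φ '' (e ⁻¹' B)) := by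
          ext z
          constructor
          · rintro ⟨b, hb, rfl⟩
            exact ⟨φ (e.symm b), ⟨e.symm b, by simpa using hb, rfl⟩, rfl⟩
          · rintro ⟨_, ⟨a, ha, rfl⟩, rfl⟩
            refine ⟨e a, ha, ?_⟩
            show e (φ (e.symm (e a))) = e (φ a)
            simp
        rw [h3] at h2
        rcases h2 with h2 | h2
        · left
          have h4 := congrArg (fun s => e ⁻¹' s) h2
          simpa only [Set.preimage_image_eq _ e.injective] using h4
        · right
          rw [Set.disjoint_left] at h2 ⊢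
          intro a ha hb
          exact h2 ⟨a, ha, rfl⟩ hb)
      rcases h1 with h1 | h1
      · left
        intro a ha b hb
        have := h1 (show e.symm a ∈ e ⁻¹' B by simpa using ha)
          (show e.symm b ∈ e ⁻¹' B by simpa using hb)
        exact e.symm.injective this
      · right
        rw [Set.eq_univ_iff_forall]
        intro a
        have : e.symm a ∈ e ⁻¹' B := by rw [h1]; trivial
        simpa using this
    have h4 := H _ G hbot htrans hprim
    have h5 := many_ranks N
    have hfin : (Set.range (fun φ : G →g G => (Set.range (⇑φ)).ncard)).Finite := by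
      apply (Set.finite_Iic (Nat.card (Fin (9 ^ (N + 4))))).subset
      rintro _ ⟨φ, rfl⟩
      exact Set.ncard_le_card _
    have h6 : Set.range (fun φ : Gam (N + 4) →g Gam (N + 4) => (Set.range (⇑φ)).ncard) ⊆
        Set.range (fun φ : G →g G => (Set.range (⇑φ)).ncard) := by
      rintro _ ⟨φ, rfl⟩
      refine ⟨(e.toHom.comp φ).comp e.symm.toHom, ?_⟩
      have h7 : Set.range (⇑((e.toHom.comp φ).comp e.symm.toHom)) = e '' Set.range (⇑φ) := by
        ext z
        constructor
        · rintro ⟨a, rfl⟩
          exact ⟨φ (e.symm a), ⟨_, rfl⟩, rfl⟩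
        · rintro ⟨_, ⟨a, rfl⟩, rfl⟩
          refine ⟨e a, ?_⟩
          show e (φ (e.symm (e a))) = e (φ a)
          simp
      show (Set.range (⇑((e.toHom.comp φ).comp e.symm.toHom))).ncard = _
      rw [h7, Set.ncard_image_of_injective _ e.injective]
    have h8 := Set.ncard_le_ncard h6 hfin
    omega
  -- contradiction with `f n / n → 0`
  have h9 : Filter.Tendsto (fun N : ℕ => (9 : ℕ) ^ (N + 4)) Filter.atTop Filter.atTop :=
    (tendsto_pow_atTop_atTop_of_one_lt (by norm_num : (1 : ℕ) < 9)).comp
      (Filter.tendsto_add_atTop_nat 4)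
  have h10 := hf.comp h9
  have h11 : ∀ᶠ N : ℕ in Filter.atTop,
      ((f (9 ^ (N + 4)) : ℝ) / ((9 ^ (N + 4) : ℕ) : ℝ)) < 1 / 324 := by
    have := h10.eventually (gt_mem_nhds (show (0 : ℝ) < 1 / 324 by norm_num))
    exact this
  obtain ⟨N, hN⟩ := h11.exists
  have h12 := main N
  have hpos : (0 : ℝ) < ((9 ^ (N + 4) : ℕ) : ℝ) := by positivity
  rw [div_lt_div_iff₀ hpos (by norm_num)] at hN
  have h13 : ((9 ^ (N + 4) : ℕ) : ℝ) ≤ 324 * (f (9 ^ (N + 4)) : ℝ) := by exact_mod_cast h12
  linarith

end Pool.Agent.S10350
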