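import Pool.Statements.S11994
-- import your own Pool.Agent.* helpers here

set_option autoImplicit false
open Pool Pool.MP_e1964c_co

namespace Pool.Agent.S11994

/-!
The counterexample: ten positions `0,…,9` (start `0`), nine terminals `10,…,18`
(`9 + k` is the exit `T_k` of position `k`), four players.

owners of the positions `0,…,9`: 0,1,2,0,3,0,1,2,3,3

arcs: 0→1,2; 1→3,8,T1; 2→3,4,5,6,T2; 3→6,9,T3; 4→7,T4; 5→6,T5; 6→7,T6; 7→8,T7; 8→9,T8; 9→5,T9
(an acyclic front part `0,…,4` and the directed cycle `5→6→7→8→9→5`)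

preferences (best to worst, the infinite play last):
P0: 4 6 5 2 8 1 7 3 9;  P1: 2 4 9 3 7 5 1 6 8;  P2: 1 9 3 8 7 5 4 2 6;  P3: 3 2 1 6 7 4 8 9 5
-/

/-- options of each vertex -/
def opts (v : ℕ) : List ℕ :=
  [[1, 2], [3, 8, 10], [3, 4, 5, 6, 11], [6, 9, 12], [7, 13], [6, 14], [7, 15], [8, 16],
    [9, 17], [5, 18]].getD v []

/-- owners -/
def own (v : ℕ) : Fin 4 :=
  [(0 : Fin 4), 1, 2, 0, 3, 0, 1, 2, 3, 3].getD v 0

/-- value of vertex `t` for player `i` (terminals `10,…,18` get `1,…,9`, positions get `0`) -/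
def value (i t : ℕ) : ℕ :=
  ([[0, 0, 0, 0, 0, 0, 0, 0, 0, 0, 4, 6, 2, 9, 7, 8, 3, 5, 1],
    [0, 0, 0, 0, 0, 0, 0, 0, 0, 0, 3, 9, 6, 8, 4, 2, 5, 1, 7],
    [0, 0, 0, 0, 0, 0, 0, 0, 0, 0, 9, 2, 7, 3, 4, 1, 5, 6, 8],
    [0, 0, 0, 0, 0, 0, 0, 0, 0, 0, 7, 8, 9, 4, 1, 6, 5, 3, 2]].getD i []).getD t 0

/-- one step of the play under the choices `a0,…,a9` -/
def stp (a0 a1 a2 a3 a4 a5 a6 a7 a8 a9 v : ℕ) : ℕ :=
  [a0, a1, a2, a3, a4, a5, a6, a7, a8, a9].getD v v

/-- the vertex reached from `0` after `k` steps -/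
def run (f : ℕ → ℕ) : ℕ → ℕ
  | 0 => 0
  | k + 1 => f (run f k)

/-- value for player `i` of the play (0 if the play is infinite) -/
def pay (i : ℕ) (f : ℕ → ℕ) : ℕ := value i (run f 10)

/-- some player has a profitable deviation -/
def dev (a0 a1 a2 a3 a4 a5 a6 a7 a8 a9 : ℕ) : Bool :=
  (([9, 17].any fun b8 => [5, 18].any fun b9 => [7, 13].any fun b4 =>
      Nat.blt (pay 3 (stp a0 a1 a2 a3 a4 a5 a6 a7 a8 a9))
        (pay 3 (stp a0 a1 a2 a3 b4 a5 a6 a7 b8 b9))) ||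
   ([7, 15].any fun b6 => [3, 8, 10].any fun b1 =>
      Nat.blt (pay 1 (stp a0 a1 a2 a3 a4 a5 a6 a7 a8 a9))
        (pay 1 (stp a0 b1 a2 a3 a4 a5 b6 a7 a8 a9))) ||
   ([8, 16].any fun b7 => [3, 4, 5, 6, 11].any fun b2 =>
      Nat.blt (pay 2 (stp a0 a1 a2 a3 a4 a5 a6 a7 a8 a9))
        (pay 2 (stp a0 a1 b2 a3 a4 a5 a6 b7 a8 a9))) ||
   ([1, 2].any fun b0 => [6, 9, 12].any fun b3 => [6, 14].any fun b5 =>
      Nat.blt (pay 0 (stp a0 a1 a2 a3 a4 a5 a6 a7 a8 a9))
        (pay 0 (stp b0 a1 a2 b3 a4 b5 a6 a7 a8 a9))))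

/-- the check over all 5760 profiles -/
def chk : Bool :=
  [1, 2].all fun a0 => [3, 8, 10].all fun a1 => [3, 4, 5, 6, 11].all fun a2 =>
  [6, 9, 12].all fun a3 => [7, 13].all fun a4 => [6, 14].all fun a5 => [7, 15].all fun a6 =>
  [8, 16].all fun a7 => [9, 17].all fun a8 => [5, 18].all fun a9 =>
    dev a0 a1 a2 a3 a4 a5 a6 a7 a8 a9

set_option maxRecDepth 100000 in
theorem chk_true : chk = true := by decide +kernel

theorem dev_true (a0 a1 a2 a3 a4 a5 a6 a7 a8 a9 : ℕ) (h0 : a0 ∈ opts 0) (h1 : a1 ∈ opts 1)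
    (h2 : a2 ∈ opts 2) (h3 : a3 ∈ opts 3) (h4 : a4 ∈ opts 4) (h5 : a5 ∈ opts 5)
    (h6 : a6 ∈ opts 6) (h7 : a7 ∈ opts 7) (h8 : a8 ∈ opts 8) (h9 : a9 ∈ opts 9) :
    dev a0 a1 a2 a3 a4 a5 a6 a7 a8 a9 = true := by
  have h := chk_true
  unfold chk at h
  simp only [List.all_eq_true] at h
  exact h a0 h0 a1 h1 a2 h2 a3 h3 a4 h4 a5 h5 a6 h6 a7 h7 a8 h8 a9 h9

/-- admissible choice functions -/
def Adm (f : ℕ → ℕ) : Prop := (∀ v, v < 10 → f v ∈ opts v) ∧ ∀ v, 10 ≤ v → f v = v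

theorem exists_dev (f : ℕ → ℕ) (hf : Adm f) :
    ∃ (i : Fin 4) (g : ℕ → ℕ), Adm g ∧ (∀ v, v < 10 → own v ≠ i → g v = f v) ∧
      pay i.val f < pay i.val g := by
  have hfe : f = stp (f 0) (f 1) (f 2) (f 3) (f 4) (f 5) (f 6) (f 7) (f 8) (f 9) := by
    funext v
    by_cases hv : v < 10
    · interval_cases v <;> rfl
    · rw [hf.2 v (by omega)]
      unfold stp
      rw [List.getD_eq_default]
      simp; omega
  have hd := dev_true (f 0) (f 1) (f 2) (f 3) (f 4) (f 5) (f 6) (f 7) (f 8) (f 9)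
    (hf.1 0 (by norm_num)) (hf.1 1 (by norm_num)) (hf.1 2 (by norm_num)) (hf.1 3 (by norm_num))
    (hf.1 4 (by norm_num)) (hf.1 5 (by norm_num)) (hf.1 6 (by norm_num)) (hf.1 7 (by norm_num))
    (hf.1 8 (by norm_num)) (hf.1 9 (by norm_num))
  have hadm : ∀ b0 b1 b2 b3 b4 b5 b6 b7 b8 b9 : ℕ, b0 ∈ opts 0 → b1 ∈ opts 1 → b2 ∈ opts 2 →
      b3 ∈ opts 3 → b4 ∈ opts 4 → b5 ∈ opts 5 → b6 ∈ opts 6 → b7 ∈ opts 7 → b8 ∈ opts 8 →
      b9 ∈ opts 9 → Adm (stp b0 b1 b2 b3 b4 b5 b6 b7 b8 b9) := by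
    intro b0 b1 b2 b3 b4 b5 b6 b7 b8 b9 h0 h1 h2 h3 h4 h5 h6 h7 h8 h9
    refine ⟨?_, ?_⟩
    · intro v hv
      interval_cases v <;> assumption
    · intro v hv
      unfold stp
      rw [List.getD_eq_default]
      simpa using hv
  unfold dev at hd
  rw [← hfe] at hd
  simp only [Bool.or_eq_true, List.any_eq_true] at hd
  rcases hd with ((⟨b8, hb8, b9, hb9, b4, hb4, hlt⟩ | ⟨b6, hb6, b1, hb1, hlt⟩) |
    ⟨b7, hb7, b2, hb2, hlt⟩) | ⟨b0, hb0, b3, hb3, b5, hb5, hlt⟩
  · refine ⟨3, _, hadm (f 0) (f 1) (f 2) (f 3) b4 (f 5) (f 6) (f 7) b8 b9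
      (hf.1 0 (by norm_num)) (hf.1 1 (by norm_num)) (hf.1 2 (by norm_num))
      (hf.1 3 (by norm_num)) hb4 (hf.1 5 (by norm_num)) (hf.1 6 (by norm_num))
      (hf.1 7 (by norm_num)) hb8 hb9, ?_, by simpa [Nat.blt_eq] using hlt⟩
    intro v hv hne
    interval_cases v <;> first | rfl | exact absurd rfl hne
  · refine ⟨1, _, hadm (f 0) b1 (f 2) (f 3) (f 4) (f 5) b6 (f 7) (f 8) (f 9)
      (hf.1 0 (by norm_num)) hb1 (hf.1 2 (by norm_num))
      (hf.1 3 (by norm_num)) (hf.1 4 (by norm_num)) (hf.1 5 (by norm_num)) hb6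
      (hf.1 7 (by norm_num)) (hf.1 8 (by norm_num)) (hf.1 9 (by norm_num)), ?_,
      by simpa [Nat.blt_eq] using hlt⟩
    intro v hv hne
    interval_cases v <;> first | rfl | exact absurd rfl hne
  · refine ⟨2, _, hadm (f 0) (f 1) b2 (f 3) (f 4) (f 5) (f 6) b7 (f 8) (f 9)
      (hf.1 0 (by norm_num)) (hf.1 1 (by norm_num)) hb2
      (hf.1 3 (by norm_num)) (hf.1 4 (by norm_num)) (hf.1 5 (by norm_num))
      (hf.1 6 (by norm_num)) hb7 (hf.1 8 (by norm_num)) (hf.1 9 (by norm_num)), ?_,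
      by simpa [Nat.blt_eq] using hlt⟩
    intro v hv hne
    interval_cases v <;> first | rfl | exact absurd rfl hne
  · refine ⟨0, _, hadm b0 (f 1) (f 2) b3 (f 4) b5 (f 6) (f 7) (f 8) (f 9)
      hb0 (hf.1 1 (by norm_num)) (hf.1 2 (by norm_num))
      hb3 (hf.1 4 (by norm_num)) hb5
      (hf.1 6 (by norm_num)) (hf.1 7 (by norm_num)) (hf.1 8 (by norm_num))
      (hf.1 9 (by norm_num)), ?_, by simpa [Nat.blt_eq] using hlt⟩
    intro v hv hne
    interval_cases v <;> first | rfl | exact absurd rfl hne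

theorem opts_lt : ∀ v : ℕ, v < 10 → ∀ w ∈ opts v, w < 19 := by
  intro v hv
  interval_cases v <;> decide

theorem opts_ge (v : ℕ) (hv : 10 ≤ v) : opts v = [] := by
  unfold opts
  rw [List.getD_eq_default]
  simpa using hv

theorem opts_ne : ∀ v : ℕ, v < 10 → ∃ w : Fin 19, w.val ∈ opts v := by
  intro v hv
  interval_cases v <;> decide

theorem value_pos : ∀ i : Fin 4, ∀ t : Fin 19, 10 ≤ t.val → 0 < value i.val t.val := by decide

theorem value_zero : ∀ i : Fin 4, ∀ t : Fin 10, value i.val t.val = 0 := by decide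

theorem run_lt (f : ℕ → ℕ) (hf : Adm f) (k : ℕ) : run f k < 19 := by
  induction k with
  | zero => simp [run]
  | succ k ih =>
    show f (run f k) < 19
    by_cases h : run f k < 10
    · exact opts_lt _ h _ (hf.1 _ h)
    · rw [hf.2 _ (by omega)]; exact ih

theorem run_absorb (f : ℕ → ℕ) (hf : Adm f) (k : ℕ) (h : 10 ≤ run f k) (j : ℕ) :
    run f (k + j) = run f k := by
  induction j with
  | zero => rfl
  | succ j ih =>
    show f (run f (k + j)) = run f k
    rw [ih, hf.2 _ h]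

theorem run_period (f : ℕ → ℕ) (a p : ℕ) (h : run f (a + p) = run f a) (j : ℕ) :
    run f (a + p + j) = run f (a + j) := by
  induction j with
  | zero => simpa using h
  | succ j ih =>
    show f (run f (a + p + j)) = f (run f (a + j))
    rw [ih]

theorem run_cycle (f : ℕ → ℕ) (hf : Adm f) (h10 : run f 10 < 10) (k : ℕ) : run f k < 10 := by
  have hle : ∀ j, j ≤ 10 → run f j < 10 := by
    intro j hj
    by_contra hc
    have := run_absorb f hf j (by omega) (10 - j)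
    rw [Nat.add_sub_cancel' hj] at this
    omega
  obtain ⟨a, b, hab, heq⟩ := Fintype.exists_ne_map_eq_of_card_lt
    (fun j : Fin 11 => (⟨run f j.val, hle j.val (by omega)⟩ : Fin 10)) (by simp)
  have heq' : run f a.val = run f b.val := by simpa using heq
  have hne : a.val ≠ b.val := fun h => hab (Fin.ext h)
  -- a < b without loss of generality
  obtain ⟨i, j, hij, hj, he⟩ : ∃ i j : ℕ, i < j ∧ j ≤ 10 ∧ run f j = run f i := by
    rcases Nat.lt_or_gt_of_ne hne with h | h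
    · exact ⟨a.val, b.val, h, by omega, heq'.symm⟩
    · exact ⟨b.val, a.val, h, by omega, heq'⟩
  induction k using Nat.strong_induction_on with
  | _ k ih =>
    by_cases hk : k ≤ 10
    · exact hle k hk
    · have hp := run_period f i (j - i) (by rw [Nat.add_sub_cancel' hij.le]; exact he) (k - j)
      have e1 : i + (j - i) + (k - j) = k := by omega
      rw [e1] at hp
      rw [hp]
      exact ih _ (by omega)

theorem iter_val (F : Fin 19 → Fin 19) (f : ℕ → ℕ) (h : ∀ w, (F w).val = f w.val) (k : ℕ) :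
    (F^[k] 0).val = run f k := by
  induction k with
  | zero => rfl
  | succ k ih => rw [Function.iterate_succ_apply', h, ih]; rfl

theorem pay_spec (F : Fin 19 → Fin 19) (f : ℕ → ℕ) (h : ∀ w, (F w).val = f w.val) (hf : Adm f)
    (i : Fin 4) :
    ((∃ k : ℕ, (∀ w : Fin 19, ¬ w.val ∈ opts (F^[k] 0).val) ∧
        (pay i.val f : ℝ) = (value i.val (F^[k] 0).val : ℝ)) ∨
      ((∀ k : ℕ, ∃ w : Fin 19, w.val ∈ opts (F^[k] 0).val) ∧ (pay i.val f : ℝ) = 0)) := by
  by_cases h10 : run f 10 < 10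
  · right
    refine ⟨?_, ?_⟩
    · intro k
      rw [iter_val F f h]
      exact opts_ne _ (run_cycle f hf h10 k)
    · have := value_zero i ⟨run f 10, h10⟩
      unfold pay
      exact_mod_cast this
  · left
    refine ⟨10, ?_, ?_⟩
    · intro w
      rw [iter_val F f h, opts_ge _ (by omega)]
      simp
    · rw [iter_val F f h]; rfl

/-- The negation of the preceding statement: Every finite n-player positional game on a digraph from a fixed start, where all cycles count as one outcome that every player ranks strictly below every terminal, has a Nash equilibrium in pure stationary strategies. -/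
theorem result :
    ¬ (∀ (V : Type) [Fintype V] (n : ℕ) (E : V → V → Prop) (owner : V → Fin n) (v0 : V)
      (u : Fin n → V → ℝ) (uc : Fin n → ℝ),
      (∀ (i : Fin n) (t : V), (∀ w, ¬ E t w) → uc i < u i t) →
      ∃ σ : V → V,
        (∀ v, (∃ w, E v w) → E v (σ v)) ∧ (∀ v, (∀ w, ¬ E v w) → σ v = v) ∧
        ∀ (i : Fin n) (τ : V → V),
          (∀ v, (∃ w, E v w) → E v (τ v)) → (∀ v, (∀ w, ¬ E v w) → τ v = v) →
          (∀ v, owner v ≠ i → τ v = σ v) →
          ∀ x y : ℝ,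
            ((∃ k : ℕ, (∀ w, ¬ E (σ^[k] v0) w) ∧ x = u i (σ^[k] v0)) ∨
              ((∀ k : ℕ, ∃ w, E (σ^[k] v0) w) ∧ x = uc i)) →
            ((∃ k : ℕ, (∀ w, ¬ E (τ^[k] v0) w) ∧ y = u i (τ^[k] v0)) ∨
              ((∀ k : ℕ, ∃ w, E (τ^[k] v0) w) ∧ y = uc i)) →
            y ≤ x) := by
  intro H
  obtain ⟨σ, h1, h2, h3⟩ := H (Fin 19) 4 (fun v w => w.val ∈ opts v.val) (fun v => own v.val) 0
    (fun i t => (value i.val t.val : ℝ)) (fun _ => 0) (by
      intro i t ht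
      have h10 : 10 ≤ t.val := by
        by_contra hc
        obtain ⟨w, hw⟩ := opts_ne t.val (by omega)
        exact ht w hw
      exact_mod_cast value_pos i t h10)
  -- the profile as a function on ℕ
  let f : ℕ → ℕ := fun v => if h : v < 19 then (σ ⟨v, h⟩).val else v
  have hfσ : ∀ w : Fin 19, (σ w).val = f w.val := by
    intro w
    simp [f]
  have hnt : ∀ v : Fin 19, 10 ≤ v.val → ∀ w : Fin 19, ¬ w.val ∈ opts v.val := by
    intro v hv w
    rw [opts_ge _ hv]; simp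
  have hadm : Adm f := by
    refine ⟨?_, ?_⟩
    · intro v hv
      have := h1 ⟨v, by omega⟩ (opts_ne v hv)
      have e := hfσ ⟨v, by omega⟩
      simp only at this e
      rw [← e]; exact this
    · intro v hv
      by_cases hv' : v < 19
      · have := h2 ⟨v, hv'⟩ (hnt ⟨v, hv'⟩ hv)
        have e := hfσ ⟨v, hv'⟩
        rw [this] at e
        exact e.symm
      · simp [f, hv']
  obtain ⟨i, g, hg, hgf, hlt⟩ := exists_dev f hadm
  have hglt : ∀ w : Fin 19, g w.val < 19 := by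
    intro w
    by_cases hw : w.val < 10
    · exact opts_lt _ hw _ (hg.1 _ hw)
    · rw [hg.2 _ (by omega)]; exact w.isLt
  let τ : Fin 19 → Fin 19 := fun w => ⟨g w.val, hglt w⟩
  have hgτ : ∀ w : Fin 19, (τ w).val = g w.val := fun w => rfl
  have key := h3 i τ
    (by
      rintro v ⟨w, hw⟩
      have hv : v.val < 10 := by
        by_contra hc
        exact hnt v (by omega) w hw
      exact hg.1 v.val hv)
    (by
      intro v hv
      have h10 : 10 ≤ v.val := by
        by_contra hc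
        obtain ⟨w, hw⟩ := opts_ne v.val (by omega)
        exact hv w hw
      exact Fin.ext (hg.2 v.val h10))
    (by
      intro v hv
      apply Fin.ext
      rw [hfσ]
      show g v.val = f v.val
      by_cases h10 : v.val < 10
      · exact hgf v.val h10 hv
      · rw [hg.2 _ (by omega), hadm.2 _ (by omega)])
    (pay i.val f : ℝ) (pay i.val g : ℝ)
    (pay_spec σ f hfσ hadm i) (pay_spec τ g hgτ hg i)
  have hlt' : (pay i.val f : ℝ) < (pay i.val g : ℝ) := by exact_mod_cast hlt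
  exact absurd key (not_le.mpr hlt')

end Pool.Agent.S11994
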