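import Pool.Statements.S12023
-- import your own Pool.Agent.* helpers here
import Pool.Agent.Work.MP_e263ba_co.Main

set_option autoImplicit false
open Pool Pool.MP_e263ba_co

namespace Pool.Agent.S12023

/-- For every prime p, if subsets A, B of F_p^3 both contain 0 and every element of F_p^3 is uniquely a+b with a in A, b in B, then A or B generates a proper additive subgroup. -/
theorem result :
    ∀ (p : ℕ), p.Prime →
      ∀ (A B : Set (Fin 3 → ZMod p)),
        (0 : Fin 3 → ZMod p) ∈ A → (0 : Fin 3 → ZMod p) ∈ B →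
        (∀ g : Fin 3 → ZMod p,
          ∃! ab : (Fin 3 → ZMod p) × (Fin 3 → ZMod p),
            ab.1 ∈ A ∧ ab.2 ∈ B ∧ ab.1 + ab.2 = g) →
        AddSubgroup.closure A ≠ ⊤ ∨ AddSubgroup.closure B ≠ ⊤ := by
  exact Pool.Agent.Redei3.redei_three

end Pool.Agent.S12023
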