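import Pool.Statements.S12106
-- import your own Pool.Agent.* helpers here

set_option autoImplicit false
open Pool Pool.MP_e67bad_co

namespace Pool.Agent.S12106

/-- The nineteen integer points of `[-3,3]^4` on the hyperplane `2x + 15y + 21z + 24w = 0`. -/
def T : Finset (Fin 4 → ℤ) :=
  {![-3, -3, -1, 3], ![-3, -1, 1, 0], ![-3, 0, -2, 2], ![-3, 1, 3, -3], ![-3, 2, 0, -1], ![-3, 3, -3, 1], ![0, -3, 1, 1], ![0, -2, -2, 3], ![0, -1, 3, -2], ![0, 0, 0, 0], ![0, 1, -3, 2], ![0, 2, 2, -3], ![0, 3, -1, -1], ![3, -3, 3, -1], ![3, -2, 0, 1], ![3, -1, -3, 3], ![3, 0, 2, -2], ![3, 1, -1, 0], ![3, 3, 1, -3]}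

theorem T_card : T.card = 19 := by decide +kernel

theorem T_sol : ∀ x ∈ T, (∀ i, -3 ≤ x i ∧ x i ≤ 3) ∧
    2 * x 0 + 15 * x 1 + 21 * x 2 + 24 * x 3 = 0 := by decide +kernel

/-- No nonzero integer point of `[-2,2]^4` lies on the hyperplane. -/
theorem no_small (x : Fin 4 → ℤ) (hx : ∀ i, |x i| ≤ 2)
    (h : 2 * x 0 + 15 * x 1 + 21 * x 2 + 24 * x 3 = 0) : x = 0 := by
  have h0 := abs_le.mp (hx 0)
  have h1 := abs_le.mp (hx 1)
  have h2 := abs_le.mp (hx 2)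
  have h3 := abs_le.mp (hx 3)
  obtain ⟨a0, b0⟩ := h0
  obtain ⟨a1, b1⟩ := h1
  obtain ⟨a2, b2⟩ := h2
  obtain ⟨a3, b3⟩ := h3
  have e0 : x 0 = 0 := by omega
  rw [e0] at h
  have e : x 1 = 0 ∧ x 2 = 0 ∧ x 3 = 0 := by
    generalize x 1 = p at *
    generalize x 2 = q at *
    generalize x 3 = r at *
    interval_cases p <;> omega
  funext i
  fin_cases i
  · exact e0
  · exact e.1
  · exact e.2.1
  · exact e.2.2

theorem value : ((1 + Real.sqrt 2) ^ 4 + (1 - Real.sqrt 2) ^ 4) / 2 = 17 := by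
  have h : Real.sqrt 2 ^ 2 = 2 := Real.sq_sqrt (by norm_num)
  have h4 : Real.sqrt 2 ^ 4 = 4 := by
    have : Real.sqrt 2 ^ 4 = (Real.sqrt 2 ^ 2) ^ 2 := by ring
    rw [this, h]; norm_num
  have : ((1 + Real.sqrt 2) ^ 4 + (1 - Real.sqrt 2) ^ 4) / 2
      = 1 + 6 * Real.sqrt 2 ^ 2 + Real.sqrt 2 ^ 4 := by ring
  rw [this, h, h4]; norm_num

theorem cast_sum (x : Fin 4 → ℤ) :
    ∑ i, (![2, 15, 21, 24] : Fin 4 → ℝ) i * (x i : ℝ)
      = ((2 * x 0 + 15 * x 1 + 21 * x 2 + 24 * x 3 : ℤ) : ℝ) := by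
  simp [Fin.sum_univ_four]

/-- The negation of the preceding statement: For k≥2 and n≥1, over nonzero real a where no nonzero integer vector with entries in [-k,k] satisfies a·x=0, the max number of integer x with entries in [-(k+1),k+1] and a·x=0 is ((1+√2)^n+(1-√2)^n)/2. -/
theorem result :
    ¬ (∀ k : ℕ, 2 ≤ k → ∀ n : ℕ, 1 ≤ n →
      (∃ a : Fin n → ℝ, a ≠ 0 ∧
          (∀ x : Fin n → ℤ, (∀ i, |x i| ≤ (k : ℤ)) →
              ∑ i, a i * (x i : ℝ) = 0 → x = 0) ∧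
          (((Fintype.piFinset fun _ : Fin n => Finset.Icc (-((k : ℤ) + 1)) ((k : ℤ) + 1)).filter
              (fun x => ∑ i, a i * (x i : ℝ) = 0)).card : ℝ)
            = ((1 + Real.sqrt 2) ^ n + (1 - Real.sqrt 2) ^ n) / 2) ∧
      (∀ a : Fin n → ℝ, a ≠ 0 →
          (∀ x : Fin n → ℤ, (∀ i, |x i| ≤ (k : ℤ)) →
              ∑ i, a i * (x i : ℝ) = 0 → x = 0) →
          (((Fintype.piFinset fun _ : Fin n => Finset.Icc (-((k : ℤ) + 1)) ((k : ℤ) + 1)).filter
              (fun x => ∑ i, a i * (x i : ℝ) = 0)).card : ℝ)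
            ≤ ((1 + Real.sqrt 2) ^ n + (1 - Real.sqrt 2) ^ n) / 2)) := by
  intro h
  have key := (h 2 le_rfl 4 (by norm_num)).2 ![2, 15, 21, 24]
    (by
      intro hz
      have := congrFun hz 0
      simp at this)
    (by
      intro x hx hs
      rw [cast_sum] at hs
      exact no_small x hx (by exact_mod_cast hs))
  rw [value] at key
  have hsub : T ⊆ (Fintype.piFinset fun _ : Fin 4 =>
      Finset.Icc (-(((2 : ℕ) : ℤ) + 1)) (((2 : ℕ) : ℤ) + 1)).filter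
        (fun x => ∑ i, (![2, 15, 21, 24] : Fin 4 → ℝ) i * (x i : ℝ) = 0) := by
    intro x hx
    obtain ⟨hb, he⟩ := T_sol x hx
    rw [Finset.mem_filter, Fintype.mem_piFinset]
    refine ⟨?_, ?_⟩
    · intro i
      rw [Finset.mem_Icc]
      have := hb i
      constructor
      · have := this.1; push_cast; linarith
      · have := this.2; push_cast; linarith
    · rw [cast_sum, he]; simp
  have hc := Finset.card_le_card hsub
  rw [T_card] at hc
  have hc' : (19 : ℝ) ≤ (((Fintype.piFinset fun _ : Fin 4 =>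
      Finset.Icc (-(((2 : ℕ) : ℤ) + 1)) (((2 : ℕ) : ℤ) + 1)).filter
        (fun x => ∑ i, (![2, 15, 21, 24] : Fin 4 → ℝ) i * (x i : ℝ) = 0)).card : ℝ) := by
    exact_mod_cast hc
  have hcontra := le_trans hc' key
  norm_num at hcontra

end Pool.Agent.S12106
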