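import Pool.Statements.S12248
import Pool.Agent.Work.MP_ec1f6a_co.Data

set_option autoImplicit false
open scoped Classical
open Pool Pool.MP_ec1f6a_co

namespace Pool.Agent.S12248

/-- The negation of the preceding statement: For every finite simple graph, nonnegative edge weights and distinct edges e,f, the weighted sum over connected spanning edge sets containing e and f, times the unrestricted such sum, is at most the sum containing e times the sum containing f. -/
theorem result :
    ¬ (∀ (n : ℕ) (G : SimpleGraph (Fin n)) (p : Sym2 (Fin n) → ℝ), (∀ x, 0 ≤ p x) →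
      ∀ e ∈ G.edgeFinset, ∀ f ∈ G.edgeFinset, e ≠ f →
        (∑ E' ∈ G.edgeFinset.powerset.filter
            (fun E' => e ∈ E' ∧ f ∈ E' ∧
              (SimpleGraph.fromEdgeSet (E' : Set (Sym2 (Fin n)))).Connected),
            ∏ x ∈ E', p x) *
        (∑ E' ∈ G.edgeFinset.powerset.filter
            (fun E' => (SimpleGraph.fromEdgeSet (E' : Set (Sym2 (Fin n)))).Connected),
            ∏ x ∈ E', p x)
        ≤
        (∑ E' ∈ G.edgeFinset.powerset.filter
            (fun E' => e ∈ E' ∧
              (SimpleGraph.fromEdgeSet (E' : Set (Sym2 (Fin n)))).Connected),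
            ∏ x ∈ E', p x) *
        (∑ E' ∈ G.edgeFinset.powerset.filter
            (fun E' => f ∈ E' ∧
              (SimpleGraph.fromEdgeSet (E' : Set (Sym2 (Fin n)))).Connected),
            ∏ x ∈ E', p x)) := by
  obtain ⟨E, hE, tl, a, b, v, hb, e, f, he, hf, hef, hlt⟩ := ECF.criterion ECF.es
    ECF.es_nodup ECF.es_loop ECF.es_pos 0 [1, 2, 3, 4, 5, 6, 7, 8, 9] ECF.vs_nodup ECF.vs_all
    ECF.te ECF.tf (by decide +kernel) (by decide +kernel) ECF.key_ne ECF.ineq
  exact ECF.negation E hE tl a b v hb e f he hf hef hlt

end Pool.Agent.S12248
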