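import Pool.Statements.S12380
import Pool.Agent.Work.MP_f2c9f5_co.BlowUp

set_option autoImplicit false
open Pool Pool.MP_f2c9f5_co

namespace Pool.Agent.S12380

/-- The negation of the preceding statement: There are constants C, L such that for each r ≥ 2, small ε and large n, every n-vertex graph of min degree at least (1−ε)n, r-edge-coloured, has its vertices split into at most C·r monochromatic trees, each with at most L leaves. -/
theorem result :
    ¬ (∃ C L : ℕ, ∀ r : ℕ, 2 ≤ r → ∃ ε₀ : ℝ, 0 < ε₀ ∧ ∀ ε : ℝ, 0 < ε → ε ≤ ε₀ →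
      ∃ n₀ : ℕ, ∀ n : ℕ, n₀ ≤ n →
      ∀ G : SimpleGraph (Fin n),
        (∀ v : Fin n, (1 - ε) * (n : ℝ) ≤ ((G.neighborSet v).ncard : ℝ)) →
      ∀ c : Sym2 (Fin n) → Fin r,
      ∃ f : Fin n → Fin (C * r), ∃ T : Fin (C * r) → SimpleGraph (Fin n),
        ∀ i : Fin (C * r),
          T i ≤ G ∧
          (∀ u v : Fin n, (T i).Adj u v → f u = i ∧ f v = i) ∧
          (T i).IsAcyclic ∧
          ((T i).induce {v : Fin n | f v = i}).Preconnected ∧
          (∃ col : Fin r, ∀ u v : Fin n, (T i).Adj u v → c s(u, v) = col) ∧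
          {v : Fin n | f v = i ∧ ((T i).neighborSet v).ncard = 1}.ncard ≤ L) := by
  rintro ⟨C, L, H⟩
  obtain ⟨r, W, N0, hr, hW, hmain⟩ := Pool.Agent.Work.MP_f2c9f5_co.main C L
  obtain ⟨ε, hε, H⟩ := H r hr
  obtain ⟨n₀, H⟩ := H ε hε le_rfl
  obtain ⟨N1, hN1⟩ := exists_nat_ge (1 / ε)
  let N := max N0 (max n₀ (max N1 1))
  have hN0 : N0 ≤ N := le_max_left _ _
  have hNn : n₀ ≤ N := (le_max_left _ _).trans (le_max_right _ _)
  have hNN1 : N1 ≤ N := ((le_max_left _ _).trans (le_max_right _ _)).trans (le_max_right _ _)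
  obtain ⟨c, hc⟩ := hmain N hN0
  apply hc
  have hWN : N ≤ W * N := Nat.le_mul_of_pos_left _ hW
  have hdeg : ∀ v : Fin (W * N), (1 - ε) * ((W * N : ℕ) : ℝ) ≤
      (((⊤ : SimpleGraph (Fin (W * N))).neighborSet v).ncard : ℝ) := by
    intro v
    have h1 : (⊤ : SimpleGraph (Fin (W * N))).neighborSet v = {v}ᶜ := by
      ext w
      simp [eq_comm]
    have hpos : 1 ≤ W * N := by
      have := v.pos
      omega
    have h2 : (({v}ᶜ : Set (Fin (W * N)))).ncard = W * N - 1 := by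
      rw [Set.ncard_compl, Set.ncard_singleton, Nat.card_eq_fintype_card, Fintype.card_fin]
    rw [h1, h2, Nat.cast_sub hpos]
    have h3 : 1 ≤ ε * ((W * N : ℕ) : ℝ) := by
      have h4 : (1 : ℝ) / ε ≤ ((W * N : ℕ) : ℝ) := by
        refine hN1.trans ?_
        exact_mod_cast hNN1.trans hWN
      rw [div_le_iff₀ hε] at h4
      linarith
    push_cast at h3 ⊢
    linarith
  obtain ⟨f, T, hT⟩ := H (W * N) (hNn.trans hWN) ⊤ hdeg c
  exact ⟨f, T, fun i => (hT i).2⟩

end Pool.Agent.S12380
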