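import Pool.Statements.S12520
import Pool.Agent.Work.MP_f99e36_co.FinalF

set_option autoImplicit false
open Pool Pool.MP_f99e36_co

namespace Pool.Agent.S12520

/-- The negation of the preceding statement: Every uniform chirotope of rank r≥1 on n≥r elements (alternating, ±1 exactly on distinct tuples, Grassmann–Plücker relations) has an r-set I whose sign reversal still satisfies the Grassmann–Plücker relations, i.e. a mutation. -/
theorem result :
    ¬ (∀ k n : ℕ, k + 1 ≤ n →
    ∀ χ : (Fin (k + 1) → Fin n) → ℤ,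
      (∀ x, χ x = 1 ∨ χ x = -1 ∨ χ x = 0) →
      (∀ x, χ x ≠ 0 ↔ Function.Injective x) →
      (∀ σ : Equiv.Perm (Fin (k + 1)), ∀ x : Fin (k + 1) → Fin n,
          χ (x ∘ σ) = (Equiv.Perm.sign σ : ℤ) * χ x) →
      (∀ x : Fin (k + 2) → Fin n, ∀ y : Fin k → Fin n,
          (∀ i : Fin (k + 2),
              (-1 : ℤ) ^ (i : ℕ) * χ (x ∘ Fin.succAbove i) * χ (Matrix.vecCons (x i) y) = 0) ∨
          ((∃ i : Fin (k + 2),
              (-1 : ℤ) ^ (i : ℕ) * χ (x ∘ Fin.succAbove i) * χ (Matrix.vecCons (x i) y) = 1) ∧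
           (∃ i : Fin (k + 2),
              (-1 : ℤ) ^ (i : ℕ) * χ (x ∘ Fin.succAbove i) * χ (Matrix.vecCons (x i) y) = -1))) →
      ∃ I : Finset (Fin n), I.card = k + 1 ∧
        ∀ χ' : (Fin (k + 1) → Fin n) → ℤ,
          (∀ z : Fin (k + 1) → Fin n,
              χ' z = if Finset.univ.image z = I then -χ z else χ z) →
          ∀ x : Fin (k + 2) → Fin n, ∀ y : Fin k → Fin n,
            (∀ i : Fin (k + 2),
                (-1 : ℤ) ^ (i : ℕ) * χ' (x ∘ Fin.succAbove i) * χ' (Matrix.vecCons (x i) y) = 0) ∨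
            ((∃ i : Fin (k + 2),
                (-1 : ℤ) ^ (i : ℕ) * χ' (x ∘ Fin.succAbove i) * χ' (Matrix.vecCons (x i) y) = 1) ∧
             (∃ i : Fin (k + 2),
                (-1 : ℤ) ^ (i : ℕ) * χ' (x ∘ Fin.succAbove i) * χ' (Matrix.vecCons (x i) y) = -1))) := by
  exact Pool.Agent.Simplex.not_simplex (n := 92) (r := 24) (by norm_num) (by norm_num)
    Pool.Agent.Simplex.final_F.1 Pool.Agent.Simplex.final_F.2

end Pool.Agent.S12520
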