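import Pool.Statements.S13207
import Pool.Agent.Work.MP_594704_gt.Final

set_option autoImplicit false
open Pool Pool.MP_594704_gt

namespace Pool.Agent.S13207

/-- For n ≥ 2, every n-dimensional projective-metric space (open convex domain kind, or projective-space kind with circular lines) satisfying the Ptolemaic inequality is isometric to Euclidean n-space or to hyperbolic n-space of some curvature −k<0. -/
theorem result :
    ∀ n : ℕ, 2 ≤ n →
      (∀ (M : Set (EuclideanSpace ℝ (Fin n)))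
          (d : EuclideanSpace ℝ (Fin n) → EuclideanSpace ℝ (Fin n) → ℝ),
        M.Nonempty → IsOpen M → Convex ℝ M →
        (∀ x ∈ M, d x x = 0) →
        (∀ x ∈ M, ∀ y ∈ M, d x y = d y x) →
        (∀ x ∈ M, ∀ y ∈ M, d x y = 0 → x = y) →
        (∀ x ∈ M, ∀ y ∈ M, ∀ z ∈ M, d x z ≤ d x y + d y z) →
        (∀ x ∈ M, ∀ V : Set (EuclideanSpace ℝ (Fin n)),
          (V ∈ nhds x ↔ ∃ r : ℝ, 0 < r ∧ ∀ y ∈ M, d x y < r → y ∈ V)) →
        (∀ x ∈ M, ∀ y ∈ M, ∀ z ∈ M, (d x y + d y z = d x z ↔ y ∈ segment ℝ x z)) →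
        (∀ p ∈ M, ∀ v : EuclideanSpace ℝ (Fin n), v ≠ 0 →
          ∃ f : ℝ → EuclideanSpace ℝ (Fin n),
            (∀ s t : ℝ, d (f s) (f t) = |s - t|) ∧
            Set.range f = {x | x ∈ M ∧ ∃ t : ℝ, x = p + t • v}) →
        (∀ x ∈ M, ∀ y ∈ M, ∀ z ∈ M, ∀ w ∈ M,
          d x z * d y w ≤ d x y * d z w + d y z * d w x) →
        (∃ φ : EuclideanSpace ℝ (Fin n) → EuclideanSpace ℝ (Fin n),
            Set.BijOn φ M Set.univ ∧ ∀ x ∈ M, ∀ y ∈ M, dist (φ x) (φ y) = d x y) ∨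
        (∃ k : ℝ, 0 < k ∧ ∃ φ : EuclideanSpace ℝ (Fin n) → EuclideanSpace ℝ (Fin n),
            Set.BijOn φ M (Metric.ball 0 1) ∧ ∀ x ∈ M, ∀ y ∈ M,
              d x y = (1 / Real.sqrt k) * Real.log
                ((1 + 2 * ‖φ x - φ y‖ ^ 2 / ((1 - ‖φ x‖ ^ 2) * (1 - ‖φ y‖ ^ 2))) +
                  Real.sqrt ((1 + 2 * ‖φ x - φ y‖ ^ 2 /
                    ((1 - ‖φ x‖ ^ 2) * (1 - ‖φ y‖ ^ 2))) ^ 2 - 1)))) ∧
      (∀ d : Projectivization ℝ (Fin (n + 1) → ℝ) → Projectivization ℝ (Fin (n + 1) → ℝ) → ℝ,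
        (∀ x, d x x = 0) →
        (∀ x y, d x y = d y x) →
        (∀ x y, d x y = 0 → x = y) →
        (∀ x y z, d x z ≤ d x y + d y z) →
        (∃ L : ℝ, 0 < L ∧ ∀ W : Submodule ℝ (Fin (n + 1) → ℝ), Module.finrank ℝ W = 2 →
          ∃ f : AddCircle L → Projectivization ℝ (Fin (n + 1) → ℝ),
            (∀ a b : AddCircle L, d (f a) (f b) = dist a b) ∧
            Set.range f = {p | p.submodule ≤ W}) →
        (∀ x y z w, d x z * d y w ≤ d x y * d z w + d y z * d w x) →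
        (∃ φ : Projectivization ℝ (Fin (n + 1) → ℝ) → EuclideanSpace ℝ (Fin n),
            Function.Bijective φ ∧ ∀ x y, dist (φ x) (φ y) = d x y) ∨
        (∃ k : ℝ, 0 < k ∧ ∃ φ : Projectivization ℝ (Fin (n + 1) → ℝ) → EuclideanSpace ℝ (Fin n),
            Set.BijOn φ Set.univ (Metric.ball 0 1) ∧ ∀ x y,
              d x y = (1 / Real.sqrt k) * Real.log
                ((1 + 2 * ‖φ x - φ y‖ ^ 2 / ((1 - ‖φ x‖ ^ 2) * (1 - ‖φ y‖ ^ 2))) +
                  Real.sqrt ((1 + 2 * ‖φ x - φ y‖ ^ 2 /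
                    ((1 - ‖φ x‖ ^ 2) * (1 - ‖φ y‖ ^ 2))) ^ 2 - 1)))) := by
  intro n hn
  refine ⟨?_, ?_⟩
  · intro M d hM hopen hconv hself hsymm heq htri htop hbtw hline hptol
    exact Pool.Agent.Work.MP_594704_gt.affine_case hn hM
      ⟨hopen, hconv, hself, hsymm, heq, htri, htop, hbtw, hline, hptol⟩
  · intro d _ _ _ _ hL hptol
    exfalso
    refine Pool.Agent.Work.MP_594704_gt.proj_case (V := Fin (n + 1) → ℝ) ?_ hL hptol
    rw [Module.finrank_fin_fun]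
    omega

end Pool.Agent.S13207
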