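import Pool.Statements.S13425
import Pool.Agent.Work.MP_7baebc_gt.Abstract
import Pool.Agent.Work.MP_7baebc_gt.Val

set_option autoImplicit false
open Pool Pool.MP_7baebc_gt

namespace Pool.Agent.S13425

open UpperHalfPlane
open scoped MatrixGroups

/-- Lower triangular unipotent element of `SL(2, ℝ)`. -/
def low (t : ℝ) : SL(2, ℝ) := ⟨!![1, 0; -t, 1], by simp [Matrix.det_fin_two]⟩

theorem low_add (s t : ℝ) : low (s + t) = low s * low t := by
  apply Subtype.ext
  show !![1, 0; -(s+t), 1] = !![1, 0; -s, 1] * !![1, 0; -t, 1]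
  rw [Matrix.mul_fin_two]
  simp
  ring

theorem low_zero : low 0 = 1 := by
  apply Subtype.ext
  show !![1, 0; -(0:ℝ), 1] = 1
  simp [Matrix.one_fin_two]

/-- `low` as a homomorphism. -/
def lowHom : Multiplicative ℝ →* SL(2, ℝ) where
  toFun t := low (Multiplicative.toAdd t)
  map_one' := low_zero
  map_mul' _ _ := low_add _ _

theorem coe_low (t : ℝ) (z : ℍ) : ((low t • z : ℍ) : ℂ) =
    (z : ℂ) / (1 - t * z) := by
  rw [coe_specialLinearGroup_apply]
  simp [low]
  ring

theorem coe_low' (t : ℝ) (z : ℍ) : ((low t • z : ℍ) : ℂ) =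
    ((z : ℂ)⁻¹ - t)⁻¹ := by
  rw [coe_low]
  have := z.ne_zero
  rw [← inv_inj, inv_inv, inv_div]
  field_simp

theorem low_pow (t : ℝ) (n : ℤ) : low t ^ n = low ((n : ℝ) * t) := by
  have h : lowHom (Multiplicative.ofAdd t) ^ n = lowHom (Multiplicative.ofAdd ((n : ℝ) * t)) := by
    rw [← map_zpow, ← ofAdd_zsmul, zsmul_eq_mul]
  exact h

/-- Translation of the upper half-plane by a real number, as an isometric equivalence. -/
noncomputable def trans (a : ℝ) : ℍ ≃ᵢ ℍ :=
  IsometryEquiv.mk (AddAction.toPerm a) (isometry_real_vadd a)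

theorem trans_apply (a : ℝ) (z : ℍ) : trans a z = a +ᵥ z := rfl

/-- There is a subset E of the hyperbolic plane such that two isometric copies of E partition the plane, and also continuum many isometric copies of E, indexed by the reals, partition the plane. -/
theorem result :
    ∃ E : Set UpperHalfPlane,
      (∃ g h : UpperHalfPlane ≃ᵢ UpperHalfPlane,
          Disjoint (⇑g '' E) (⇑h '' E) ∧ ⇑g '' E ∪ ⇑h '' E = Set.univ) ∧
      (∃ f : ℝ → (UpperHalfPlane ≃ᵢ UpperHalfPlane),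
          Pairwise (fun r s => Disjoint (⇑(f r) '' E) (⇑(f s) '' E)) ∧
          (⋃ r : ℝ, ⇑(f r) '' E) = Set.univ) := by
  obtain ⟨F, x0, V, hF, hx0, hcard⟩ := Pool.Agent.Work.MP_7baebc_gt.exists_val
  obtain ⟨e⟩ := Cardinal.eq.mp hcard
  have hx0ne : x0 ≠ 0 := by
    rintro rfl
    exact hx0 (by simp)
  let v := V.valuation
  -- valuations of elements of `F`
  have hvF : ∀ c : F, c ≠ 0 → v (((c : ℝ) : ℂ)) = 1 := by
    intro c hc
    have h1 : v (((c : ℝ) : ℂ)) ≤ 1 := (V.valuation_le_one_iff _).mpr (hF c)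
    have h2 : v ((((c⁻¹ : F) : ℝ) : ℂ)) ≤ 1 := (V.valuation_le_one_iff _).mpr (hF c⁻¹)
    have h3 : ((((c⁻¹ : F) : ℝ) : ℂ)) = (((c : ℝ) : ℂ))⁻¹ := by push_cast; rfl
    rw [h3, map_inv₀] at h2
    apply le_antisymm h1
    have hne : v (((c : ℝ) : ℂ)) ≠ 0 := by
      rw [Valuation.ne_zero_iff]
      intro h
      apply hc
      have : (c : ℝ) = 0 := by exact_mod_cast h
      exact_mod_cast this
    exact (inv_le_one₀ (zero_lt_iff.mpr hne)).mp h2
  have hvx0 : 1 < v (x0 : ℂ) := by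
    rw [← not_le]
    intro h
    exact hx0 ((V.valuation_le_one_iff _).mp h)
  have hvA : ∀ c : F, c ≠ 0 → 1 < v (((x0 * (c : ℝ) : ℝ)) : ℂ) := by
    intro c hc
    push_cast
    rw [map_mul, hvF c hc, mul_one]
    exact hvx0
  -- the action of `F` by translations
  let φ : F →+ ℝ :=
    { toFun := fun c => x0 * (c : ℝ)
      map_zero' := by simp
      map_add' := by intro a b; simp [mul_add] }
  let act : AddAction F ℍ := AddAction.compHom ℍ φ
  have hact : ∀ (c : F) (z : ℍ), c +ᵥ z = (x0 * (c : ℝ)) +ᵥ z := fun _ _ => rfl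
  have hactc : ∀ (c : F) (z : ℍ), ((c +ᵥ z : ℍ) : ℂ) = (((x0 * (c : ℝ) : ℝ)) : ℂ) + z := by
    intro c z
    rw [hact, UpperHalfPlane.coe_vadd]
  let g : Equiv.Perm ℍ := MulAction.toPerm (low x0)
  have hg : ∀ (n : ℤ) (z : ℍ), (g ^ n) z = low ((n : ℝ) * x0) • z := by
    intro n z
    have h1 : g = MulAction.toPermHom SL(2, ℝ) ℍ (low x0) := rfl
    rw [h1, ← map_zpow, low_pow]
    rfl
  let small : ℍ → Prop := fun z => v (z : ℂ) < 1
  let big : ℍ → Prop := fun z => 1 < v (z : ℂ)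
  obtain ⟨E, hE1, hE2⟩ := Pool.Agent.Work.MP_7baebc_gt.exists_set (A := F) g small big
    (fun z hs hb => lt_asymm hs hb)
    (by
      intro z c hc hz
      show 1 < v ((c +ᵥ z : ℍ) : ℂ)
      rw [hactc]
      have h1 : v (z : ℂ) < v (((x0 * (c : ℝ) : ℝ)) : ℂ) := lt_of_le_of_lt (not_lt.mp hz) (hvA c hc)
      rw [Valuation.map_add_eq_of_lt_left _ h1]
      exact hvA c hc)
    (by
      intro z n hn hz
      show v (((g ^ n) z : ℍ) : ℂ) < 1
      rw [hg, coe_low', map_inv₀]
      have hnF : ((n : F)) ≠ 0 := by exact_mod_cast hn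
      have h2 : 1 < v ((((n : ℝ) * x0 : ℝ)) : ℂ) := by
        have := hvA (n : F) hnF
        have e1 : x0 * (((n : F)) : ℝ) = (n : ℝ) * x0 := by push_cast; ring
        rwa [e1] at this
      have h1 : v ((z : ℂ)⁻¹) ≤ 1 := by
        rw [map_inv₀]
        have : 1 ≤ v (z : ℂ) := not_lt.mp hz
        exact inv_le_one_of_one_le₀ this
      have h3 : v ((z : ℂ)⁻¹ - (((n : ℝ) * x0 : ℝ) : ℂ)) = v ((((n : ℝ) * x0 : ℝ)) : ℂ) :=
        Valuation.map_sub_eq_of_lt_right _ (lt_of_le_of_lt h1 h2)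
      rw [h3]
      exact inv_lt_one_of_one_lt₀ h2)
    (by
      intro z c h
      have h1 : ((c +ᵥ z : ℍ) : ℂ) = (z : ℂ) := by rw [h]
      rw [hactc] at h1
      have h2 : (((x0 * (c : ℝ) : ℝ)) : ℂ) = 0 := by linear_combination h1
      have h3 : x0 * (c : ℝ) = 0 := by exact_mod_cast h2
      rcases mul_eq_zero.mp h3 with h4 | h4
      · exact (hx0ne h4).elim
      · exact_mod_cast h4)
    (by
      intro z n h
      have h1 : (((g ^ n) z : ℍ) : ℂ) = (z : ℂ) := by rw [h]
      rw [hg, coe_low'] at h1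
      have h2 : (z : ℂ)⁻¹ - (((n : ℝ) * x0 : ℝ) : ℂ) = (z : ℂ)⁻¹ := by
        have h1' := congrArg (fun w => w⁻¹) h1
        simpa using h1'
      have h3 : (((n : ℝ) * x0 : ℝ) : ℂ) = 0 := by linear_combination -h2
      have h4 : (n : ℝ) * x0 = 0 := by exact_mod_cast h3
      rcases mul_eq_zero.mp h4 with h5 | h5
      · exact_mod_cast h5
      · exact (hx0ne h5).elim)
    1 2 one_ne_zero two_ne_zero (by norm_num)
  refine ⟨E, ?_, ?_⟩
  · refine ⟨IsometryEquiv.refl _, IsometryEquiv.constSMul (low x0), ?_, ?_⟩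
    · rw [Set.disjoint_left]
      rintro z ⟨w, hw, rfl⟩ ⟨y, hy, hyz⟩
      have h1 : g y = w := hyz
      have h2 := (hE2 y).mp hy
      rw [h1] at h2
      exact h2 hw
    · ext z
      simp only [Set.mem_union, Set.mem_univ, iff_true]
      by_cases hz : z ∈ E
      · left; exact ⟨z, hz, rfl⟩
      · right
        refine ⟨g.symm z, ?_, ?_⟩
        · rw [hE2]; simpa using hz
        · exact g.apply_symm_apply z
  · refine ⟨fun r => trans (x0 * ((e.symm r : F) : ℝ)), ?_, ?_⟩
    · intro r s hrs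
      show Disjoint _ _
      rw [Set.disjoint_left]
      rintro z ⟨w, hw, hwz⟩ ⟨y, hy, hyz⟩
      obtain ⟨a, ha, hau⟩ := hE1 z
      have key : ∀ (t : ℝ) (u : ℍ), u ∈ E → trans (x0 * ((e.symm t : F) : ℝ)) u = z →
          -(e.symm t) = a := by
        intro t u hu hz
        apply hau
        have h1 : (e.symm t) +ᵥ u = z := hz
        show -(e.symm t) +ᵥ z ∈ E
        rw [← h1, ← add_vadd, neg_add_cancel, zero_vadd]
        exact hu
      have h1 := key r w hw hwz
      have h2 := key s y hy hyz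
      apply hrs
      exact e.symm.injective (neg_injective (h1.trans h2.symm))
    · ext z
      simp only [Set.mem_iUnion, Set.mem_univ, iff_true]
      obtain ⟨a, ha, hau⟩ := hE1 z
      refine ⟨e (-a), a +ᵥ z, ha, ?_⟩
      rw [e.symm_apply_apply]
      show (-a) +ᵥ (a +ᵥ z) = z
      rw [← add_vadd, neg_add_cancel, zero_vadd]

end Pool.Agent.S13425
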