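import Pool.Statements.S14489
import Pool.Agent.Work.SUBST.Plug
import Pool.Agent.Work.SUBST.Transport

set_option autoImplicit false
open Pool Pool.MP_24c0d2_lc

namespace Pool.Agent.S14489

/-- There is a computable procedure that, given two morphisms each prolongable on a letter with growing iterates and two letter-to-letter codings, correctly decides whether the two resulting substitutive infinite words are equal. -/
theorem result :
    ∃ f : (List (List ℕ) × List ℕ × ℕ) × (List (List ℕ) × List ℕ × ℕ) → Bool,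
      Computable f ∧
      ∀ (σ₁ : List (List ℕ)) (τ₁ : List ℕ) (a₁ : ℕ)
        (σ₂ : List (List ℕ)) (τ₂ : List ℕ) (a₂ : ℕ),
        (a₁ < σ₁.length ∧ (∀ l ∈ σ₁, ∀ x ∈ l, x < σ₁.length) ∧
          (∃ u : List ℕ, u ≠ [] ∧ σ₁.getD a₁ [] = a₁ :: u) ∧
          (∀ N : ℕ, ∃ n : ℕ,
            N < ((fun w : List ℕ => w.flatMap (fun x => σ₁.getD x []))^[n] [a₁]).length)) →
        (a₂ < σ₂.length ∧ (∀ l ∈ σ₂, ∀ x ∈ l, x < σ₂.length) ∧
          (∃ u : List ℕ, u ≠ [] ∧ σ₂.getD a₂ [] = a₂ :: u) ∧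
          (∀ N : ℕ, ∃ n : ℕ,
            N < ((fun w : List ℕ => w.flatMap (fun x => σ₂.getD x []))^[n] [a₂]).length)) →
        (f ((σ₁, τ₁, a₁), (σ₂, τ₂, a₂)) = true ↔
          ∀ n m k : ℕ,
            k < ((fun w : List ℕ => w.flatMap (fun x => σ₁.getD x []))^[n] [a₁]).length →
            k < ((fun w : List ℕ => w.flatMap (fun x => σ₂.getD x []))^[m] [a₂]).length →
            τ₁.getD (((fun w : List ℕ => w.flatMap (fun x => σ₁.getD x []))^[n] [a₁]).getD k 0) 0 =
              τ₂.getD (((fun w : List ℕ => w.flatMap (fun x => σ₂.getD x []))^[m] [a₂]).getD k 0) 0) :=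
  SUBST.final_of_core SUBST.core

end Pool.Agent.S14489
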