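import Pool.Statements.S17045
import Pool.Agent.Work.MP_5955e5_nt.Final2
import Pool.Agent.Work.MP_5955e5_nt.C.Fin

set_option autoImplicit false
open Pool Pool.MP_5955e5_nt

namespace Pool.Agent.S17045

/-- With eta(q) = q^(1/24) times the product of (1 - q^n) over n ≥ 1, the torus integral of log∣1+x+y+z+w∣ equals (15/(4 pi^2))^(5/2) times the integral over t>0 of (eta(e^-3t)^3 eta(e^-5t)^3 + eta(e^-t)^3 eta(e^-15t)^3) t^3. -/
theorem result :
    ∀ η : ℝ → ℝ, (∀ q : ℝ, η q = q ^ ((1 : ℝ) / 24) * ∏' n : ℕ, (1 - q ^ (n + 1))) →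
      (∫ θ in Set.Icc (0 : Fin 4 → ℝ) 1,
          Real.log ‖1 + ∑ i : Fin 4, Complex.exp (2 * (Real.pi : ℂ) * Complex.I * (θ i : ℂ))‖)
        = (15 / (4 * Real.pi ^ 2)) ^ ((5 : ℝ) / 2) *
          ∫ t in Set.Ioi (0 : ℝ),
            (η (Real.exp (-3 * t)) ^ 3 * η (Real.exp (-5 * t)) ^ 3
              + η (Real.exp (-t)) ^ 3 * η (Real.exp (-15 * t)) ^ 3) * t ^ 3 :=
  Pool.RV.final_of_c Pool.RV.block_c

end Pool.Agent.S17045
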