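import Pool.Statements.S19165
import Pool.Agent.GPI.RankTwo
import Pool.Agent.GPI.Full.Unit
import Pool.Agent.GPI.Full.Inv
import Pool.Agent.GPI.Full.All

set_option autoImplicit false
open MeasureTheory ProbabilityTheory
open Pool Pool.MP_130bb2_pr

namespace Pool.Agent.S19165

open Pool.Agent.GPI in
theorem gpi_main {d : ℕ} (μ : Measure (Fin d → ℝ)) [IsGaussian μ] (h0 : ∫ x, x ∂μ = 0)
    (ν : Fin d → ℝ) (hν : ∀ i, 0 ≤ ν i) :
    ∏ i, ∫ x, |x i| ^ (2 * ν i) ∂μ ≤ ∫ x, ∏ i, |x i| ^ (2 * ν i) ∂μ := by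
  obtain ⟨A, hA⟩ := exists_factor (r := d) (secMom_posSemidef μ) (Matrix.rank_le_height (secMom μ))
  have hμ := gaussian_repr μ h0 A hA
  have hall := Full.gpi_all_of_inv
    (fun hA _ hb => Full.gpi_inv_of (fun h1 h2 _ h3 => Full.gpi_unit h1 h2 h3) hA hb)
    A (b := fun i => 2 * ν i) (fun i => by have := hν i; positivity)
  have hleft : ∀ i, ∫ x, |x i| ^ (2 * ν i) ∂μ
      = (∑ k, A i k ^ 2) ^ (2 * ν i / 2) * km (2 * ν i / 2) := by
    intro i
    rw [moment_eval μ h0 i (2 * ν i) (by have := hν i; positivity), hA]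
    have e1 : ∑ k, A i k * A i k = ∑ k, A i k ^ 2 := by
      apply Finset.sum_congr rfl
      intro k _
      ring
    rw [e1]
    rfl
  have hright : ∫ x, ∏ i, |x i| ^ (2 * ν i) ∂μ
      = ∫ g, ∏ i, |(Matrix.mulVec A g) i| ^ (2 * ν i) ∂(gam d) := by
    conv_lhs => rw [hμ]
    have hm1 : Measurable (fun (g : Fin d → ℝ) (i : Fin d) => ∑ k, A i k * g k) :=
      measurable_pi_lambda _ fun i => Finset.measurable_sum _ fun k _ =>
        (measurable_pi_apply k).const_mul _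
    have hm2 : Measurable (fun x : Fin d → ℝ => ∏ i, |x i| ^ (2 * ν i)) :=
      Finset.measurable_prod _ fun i _ => (measurable_pi_apply i).abs.pow_const _
    rw [integral_map hm1.aemeasurable hm2.aestronglyMeasurable]
    rfl
  calc ∏ i, ∫ x, |x i| ^ (2 * ν i) ∂μ
      = ∏ i, ((∑ k, A i k ^ 2) ^ (2 * ν i / 2) * km (2 * ν i / 2)) :=
        Finset.prod_congr rfl fun i _ => hleft i
    _ ≤ _ := hall
    _ = _ := hright.symm

/-- For every centered Gaussian law on R^d and all real exponents nu_i at least 0, the expectation of the product of ∣Z_i∣^(2 nu_i) is at least the product of the individual expectations of ∣Z_i∣^(2 nu_i). -/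
theorem result :
    ∀ (d : ℕ) (μ : Measure (Fin d → ℝ)), IsGaussian μ → ∫ x, x ∂μ = 0 →
      ∀ ν : Fin d → ℝ, (∀ i, 0 ≤ ν i) →
        ∏ i, ∫ x, |x i| ^ (2 * ν i) ∂μ ≤ ∫ x, ∏ i, |x i| ^ (2 * ν i) ∂μ := by
  intro d μ hμ h0 ν hν
  exact gpi_main μ h0 ν hν

end Pool.Agent.S19165
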