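import Pool.Statements.S19189
import Pool.Agent.Work.MP_1ae8db_pr.Bridge
import Pool.Agent.Work.MP_1ae8db_pr.E1
import Pool.Agent.Work.MP_1ae8db_pr.E4

set_option autoImplicit false
open scoped Classical
open Pool Pool.MP_1ae8db_pr

namespace Pool.Agent.S19189

/-- For each fixed k ≥ 2, the fraction of orderings of all k-subsets of an n-set for which, at every time, all (k−1)-sets are covered exactly when a fractional K_k-decomposition exists, tends to 1 as n → ∞. -/
theorem result :
    ∀ k : ℕ, 2 ≤ k →
      Filter.Tendsto
        (fun n : ℕ =>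
          ((Finset.univ.filter
              (fun σ : Fin (n.choose k) ≃ {s : Finset (Fin n) // s.card = k} =>
                ∀ t : ℕ,
                  ((∀ f : Finset (Fin n), f.card = k - 1 →
                      ∃ i : Fin (n.choose k), i.val < t ∧ f ⊆ (σ i).val) ↔
                    (∃ w : Finset (Fin n) → ℝ,
                      (∀ e, 0 ≤ w e ∧ w e ≤ 1) ∧
                      ∀ f : Finset (Fin n), f.card = k - 1 →
                        ∑ i ∈ Finset.univ.filter
                            (fun i : Fin (n.choose k) => i.val < t ∧ f ⊆ (σ i).val),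
                          w (σ i).val = 1)))).card : ℝ) /
            (Fintype.card (Fin (n.choose k) ≃ {s : Finset (Fin n) // s.card = k}) : ℝ))
        Filter.atTop (nhds 1) := by
  intro k hk
  obtain ⟨s, rfl⟩ : ∃ s, k = s + 2 := ⟨k - 2, by omega⟩
  exact Pool.Agent.FracK.bridge s (Pool.Agent.FracK.stmtE1 s) (Pool.Agent.FracK.stmtE2 s)
    (Pool.Agent.FracK.stmtE4 s)

end Pool.Agent.S19189
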