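import Pool.Statements.S19731
import Pool.Agent.Work.MP_f07634_pr.Key

set_option autoImplicit false
open Pool Pool.MP_f07634_pr

namespace Pool.Agent.S19731

open Pool.Agent.Work.MPf07634

/-- From the balance equation to invariance in weak form. -/
theorem weak_inv {N : ℕ} (π : Equiv.Perm (Fin (N+1)) → ℝ)
    (hbal : ∀ τ : Equiv.Perm (Fin (N+1)),
        π τ * ((Finset.univ.filter (fun j : Fin (N+1) => τ (j+1) < τ j)).card : ℝ)
          = ∑ j ∈ Finset.univ.filter (fun j : Fin (N+1) => τ j < τ (j+1)),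
              π (τ * Equiv.swap j (j+1)))
    (G : Equiv.Perm (Fin (N+1)) → ℝ) :
    ∑ τ, π τ * ∑ j, G (TB j τ) = ((N+1 : ℕ) : ℝ) * ∑ τ, π τ * G τ := by
  have h1 : ∀ τ : Equiv.Perm (Fin (N+1)), π τ * ∑ j, G (TB j τ)
      = ((N+1 : ℕ) : ℝ) * (π τ * G τ) + ∑ j : Fin (N+1),
        (if τ (j+1) < τ j then (π τ * G (τ * Equiv.swap j (j+1)) - π τ * G τ) else 0) := by
    intro τ
    have : ((N+1 : ℕ) : ℝ) * (π τ * G τ) = ∑ _j : Fin (N+1), π τ * G τ := by
      rw [Finset.sum_const, Finset.card_univ, Fintype.card_fin, nsmul_eq_mul]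
    rw [this, ← Finset.sum_add_distrib, Finset.mul_sum]
    refine Finset.sum_congr rfl (fun j _ => ?_)
    unfold TB
    split_ifs <;> ring
  rw [Finset.sum_congr rfl (fun τ _ => h1 τ), Finset.sum_add_distrib, ← Finset.mul_sum]
  suffices hsuff : ∑ τ : Equiv.Perm (Fin (N+1)), ∑ j : Fin (N+1),
      (if τ (j+1) < τ j then (π τ * G (τ * Equiv.swap j (j+1)) - π τ * G τ) else 0) = 0 by
    rw [hsuff, add_zero]
  have h2 : ∀ τ : Equiv.Perm (Fin (N+1)), ∑ j : Fin (N+1),
      (if τ (j+1) < τ j then (π τ * G (τ * Equiv.swap j (j+1)) - π τ * G τ) else 0)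
      = (∑ j : Fin (N+1), (if τ (j+1) < τ j then π τ * G (τ * Equiv.swap j (j+1)) else 0))
        - (∑ j ∈ Finset.univ.filter (fun j : Fin (N+1) => τ j < τ (j+1)),
              π (τ * Equiv.swap j (j+1))) * G τ := by
    intro τ
    rw [← hbal τ]
    have : ∑ j : Fin (N+1),
      (if τ (j+1) < τ j then (π τ * G (τ * Equiv.swap j (j+1)) - π τ * G τ) else 0)
      = (∑ j : Fin (N+1), (if τ (j+1) < τ j then π τ * G (τ * Equiv.swap j (j+1)) else 0))
        - ∑ j : Fin (N+1), (if τ (j+1) < τ j then π τ * G τ else 0) := by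
      rw [← Finset.sum_sub_distrib]
      refine Finset.sum_congr rfl (fun j _ => ?_)
      split_ifs <;> ring
    rw [this]
    congr 1
    rw [← Finset.sum_filter, Finset.sum_const, nsmul_eq_mul]
    ring
  rw [Finset.sum_congr rfl (fun τ _ => h2 τ), Finset.sum_sub_distrib]
  have h3 : ∑ τ : Equiv.Perm (Fin (N+1)), ∑ j : Fin (N+1),
      (if τ (j+1) < τ j then π τ * G (τ * Equiv.swap j (j+1)) else 0)
      = ∑ τ : Equiv.Perm (Fin (N+1)),
        (∑ j ∈ Finset.univ.filter (fun j : Fin (N+1) => τ j < τ (j+1)),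
              π (τ * Equiv.swap j (j+1))) * G τ := by
    rw [Finset.sum_comm]
    have h4 : ∀ j : Fin (N+1), ∑ τ : Equiv.Perm (Fin (N+1)),
        (if τ (j+1) < τ j then π τ * G (τ * Equiv.swap j (j+1)) else 0)
        = ∑ τ : Equiv.Perm (Fin (N+1)),
          (if τ j < τ (j+1) then π (τ * Equiv.swap j (j+1)) * G τ else 0) := by
      intro j
      have h5 := Equiv.sum_comp (Equiv.mulRight (Equiv.swap j (j+1)))
        (fun τ : Equiv.Perm (Fin (N+1)) =>
          (if τ (j+1) < τ j then π τ * G (τ * Equiv.swap j (j+1)) else 0))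
      rw [← h5]
      refine Finset.sum_congr rfl (fun τ _ => ?_)
      simp only [Equiv.coe_mulRight, Equiv.Perm.mul_apply, Equiv.swap_apply_right,
        Equiv.swap_apply_left, mul_assoc, Equiv.swap_mul_self, mul_one]
    rw [Finset.sum_congr rfl (fun j _ => h4 j), Finset.sum_comm]
    refine Finset.sum_congr rfl (fun τ _ => ?_)
    rw [Finset.sum_mul, Finset.sum_filter]
  rw [h3, sub_self]

/-- For the stationary law of the ring TASEP with n distinct species (larger label jumps right at rate 1), the probability of seeing i_1..i_r then k at the first r+1 sites, with k > 1 + max i_a, is 1/n times that of seeing i_1..i_r. -/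
theorem result :
    ∀ n : ℕ, ∀ π : Equiv.Perm (Fin n) → ℝ,
      (∀ τ, 0 ≤ π τ) →
      (∑ τ, π τ = 1) →
      (∀ τ : Equiv.Perm (Fin n),
        π τ * ((Finset.univ.filter (fun j : Fin n => τ (finRotate n j) < τ j)).card : ℝ)
          = ∑ j ∈ Finset.univ.filter (fun j : Fin n => τ j < τ (finRotate n j)),
              π (τ * Equiv.swap j (finRotate n j))) →
      ∀ (r : ℕ) (h : r < n) (i : Fin r → Fin n) (k : Fin n),
        (∀ a : Fin r, (i a : ℕ) + 1 < (k : ℕ)) →
        ∑ τ ∈ Finset.univ.filter (fun τ : Equiv.Perm (Fin n) =>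
              (∀ a : Fin r, τ (Fin.castLE h.le a) = i a) ∧ τ ⟨r, h⟩ = k), π τ
          = (1 / (n : ℝ)) * ∑ τ ∈ Finset.univ.filter (fun τ : Equiv.Perm (Fin n) =>
              ∀ a : Fin r, τ (Fin.castLE h.le a) = i a), π τ := by
  classical
  intro n π _ _ hbal r h i k hik
  obtain ⟨N, rfl⟩ : ∃ N, n = N + 1 := ⟨n - 1, by omega⟩
  rcases Nat.eq_zero_or_pos N with hN0 | hN1
  · -- one site
    subst hN0
    have hr : r = 0 := by omega
    subst hr
    have e1 : Finset.univ.filter (fun τ : Equiv.Perm (Fin (0+1)) =>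
              (∀ a : Fin 0, τ (Fin.castLE h.le a) = i a) ∧ τ ⟨0, h⟩ = k)
        = Finset.univ.filter (fun τ : Equiv.Perm (Fin (0+1)) =>
              ∀ a : Fin 0, τ (Fin.castLE h.le a) = i a) := by
      refine Finset.filter_congr (fun τ _ => ?_)
      constructor
      · intro hh; exact hh.1
      · intro hh
        refine ⟨hh, Fin.ext ?_⟩
        have h1 := (τ ⟨0, h⟩).isLt
        have h2 := k.isLt
        omega
    rw [e1]
    norm_num
  · have hN : ∀ j : Fin (N+1), j + 1 ≠ j := by
      intro j hj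
      have h1 : (1 : Fin (N+1)) = 0 := by
        have : j + 1 = j + 0 := by rw [hj, add_zero]
        exact add_left_cancel this
      have h2 : (1 : Fin (N+1)).val = 0 := by rw [h1]; simp
      have h3 : (1 : Fin (N+1)).val = 1 % (N+1) := rfl
      rw [Nat.mod_eq_of_lt (by omega)] at h3
      omega
    have hbal' : ∀ τ : Equiv.Perm (Fin (N+1)),
        π τ * ((Finset.univ.filter (fun j : Fin (N+1) => τ (j+1) < τ j)).card : ℝ)
          = ∑ j ∈ Finset.univ.filter (fun j : Fin (N+1) => τ j < τ (j+1)),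
              π (τ * Equiv.swap j (j+1)) := by
      intro τ
      have := hbal τ
      simp only [finRotate_apply] at this
      exact this
    have hinv := weak_inv π hbal'
    set y : Fin (N+1) := ⟨r, h⟩ with hy
    set i' : Fin (N+1) → ℕ := fun x => if hx : x.val < r then (i ⟨x.val, hx⟩).val else 0 with hi'
    have hev : ∀ τ : Equiv.Perm (Fin (N+1)), (∀ a : Fin r, τ (Fin.castLE h.le a) = i a) ↔
        (∀ x : Fin (N+1), x.val < y.val → (τ x).val = i' x) := by
      intro τ
      constructor
      · intro hh x hx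
        have hx' : x.val < r := hx
        have h1 := hh ⟨x.val, hx'⟩
        have h2 : Fin.castLE h.le ⟨x.val, hx'⟩ = x := Fin.ext rfl
        rw [h2] at h1
        simp only [hi', dif_pos hx']
        rw [h1]
      · intro hh a
        have h1 := hh (Fin.castLE h.le a) a.isLt
        apply Fin.ext
        rw [h1]
        simp only [hi']
        rw [dif_pos (show (Fin.castLE h.le a).val < r from a.isLt)]
        rfl
    set E : ℝ := ∑ τ, π τ * (if (∀ x : Fin (N+1), x.val < y.val → (τ x).val = i' x) then 1 else 0)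
      with hE
    set P : ℕ → ℝ := fun s => ∑ τ, π τ * (if ((∀ x : Fin (N+1), x.val < y.val →
      (τ x).val = i' x) ∧ s ≤ (τ y).val) then 1 else 0) with hP
    have hiv : ∀ x : Fin (N+1), x.val < y.val → i' x + 1 < k.val := by
      intro x hx
      have hx' : x.val < r := hx
      simp only [hi', dif_pos hx']
      exact hik _
    have hPk1 : P (k.val + 1) = (((N - k.val : ℕ) : ℝ) / ((N+1 : ℕ) : ℝ)) * E := by
      refine indep hN π hinv (k.val) y i' (fun x hx => by have := hiv x hx; omega)
        (N - k.val) (k.val + 1) ?_ ?_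
      · have := k.isLt; omega
      · omega
    have hPk : P k.val = (((N - k.val + 1 : ℕ) : ℝ) / ((N+1 : ℕ) : ℝ)) * E := by
      rcases Nat.eq_zero_or_pos k.val with hk | hk
      · rw [hk]
        have : P 0 = E := by
          simp only [hP, hE]
          refine Finset.sum_congr rfl (fun τ _ => ?_)
          simp
        rw [this]
        simp only [Nat.sub_zero]
        rw [div_self (by positivity), one_mul]
      · refine indep hN π hinv (k.val - 1) y i' (fun x hx => by have := hiv x hx; omega)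
          (N - k.val + 1) k.val ?_ ?_
        · have := k.isLt; omega
        · omega
    have hL : ∑ τ ∈ Finset.univ.filter (fun τ : Equiv.Perm (Fin (N+1)) =>
              (∀ a : Fin r, τ (Fin.castLE h.le a) = i a) ∧ τ y = k), π τ
        = P k.val - P (k.val + 1) := by
      simp only [hP]
      rw [← Finset.sum_sub_distrib, Finset.sum_filter]
      refine Finset.sum_congr rfl (fun τ _ => ?_)
      have hk' : τ y = k ↔ (k.val ≤ (τ y).val ∧ ¬ (k.val + 1 ≤ (τ y).val)) := by
        rw [Fin.ext_iff]; omega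
      simp only [hev τ, hk']
      by_cases q1 : (∀ x : Fin (N+1), x.val < y.val → (τ x).val = i' x)
      · by_cases q2 : k.val ≤ (τ y).val
        · by_cases q3 : k.val + 1 ≤ (τ y).val
          · rw [if_neg (fun hh => hh.2.2 q3), if_pos ⟨q1, q2⟩, if_pos ⟨q1, q3⟩]; ring
          · rw [if_pos ⟨q1, q2, q3⟩, if_pos ⟨q1, q2⟩, if_neg (fun hh => q3 hh.2)]; ring
        · rw [if_neg (fun hh => q2 hh.2.1), if_neg (fun hh => q2 hh.2),
            if_neg (fun hh => q2 (by omega))]; ring
      · rw [if_neg (fun hh => q1 hh.1), if_neg (fun hh => q1 hh.1), if_neg (fun hh => q1 hh.1)]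
        ring
    have hR : ∑ τ ∈ Finset.univ.filter (fun τ : Equiv.Perm (Fin (N+1)) =>
              ∀ a : Fin r, τ (Fin.castLE h.le a) = i a), π τ = E := by
      simp only [hE]
      rw [Finset.sum_filter]
      refine Finset.sum_congr rfl (fun τ _ => ?_)
      simp only [hev τ]
      split_ifs <;> ring
    rw [hL, hR, hPk, hPk1]
    have hn : ((N+1 : ℕ) : ℝ) ≠ 0 := by positivity
    rw [← sub_mul, ← sub_div]
    congr 2
    push_cast
    ring

end Pool.Agent.S19731
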